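import Pool.Agent.Helper91.TY.CSwap
import Pool.Agent.Helper33.CV.Cube

/-!
MP_8ee768_co, project TH-Y': words of transpositions on packed lists of cube codes.

A word is a number `w` with `len` digits in base 256; digit `t` is `i + 16 * j`, `i < j`, and means the
exchange of the points `i` and `j`; digit 0 is applied first. `runC K len w X` acts on all lanes of `X`
(`N` lanes of `2 ^ n` bits, `K = 2 ^ n * N`).
-/

set_option autoImplicit false

namespace Pool.Agent.Helper91.TY

open Finset
open Pool.Agent.Helper63.SIMD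
open Pool.Agent.Helper79.CV
open Pool.Agent.Helper89.CV (ofMask)
open Pool.Agent.Helper33.CV

/-- **the exchange of two points on one cube code** -/
theorem cub_mapF_swap {n : ℕ} {i j : Fin 13} (hij : i.val < j.val) (hj : j.val < n) (hn : n ≤ 13)
    (D : Finset (Finset (Fin 13))) :
    cub n (mapF (Equiv.swap i j) D) =
      cswap i.val j.val (ib (2 ^ n) i.val) (ib (2 ^ n) j.val) (cub n D) := by
  refine Nat.eq_of_testBit_eq fun m => ?_
  by_cases h : m < 2 ^ n
  · have h13 : m < 2 ^ 13 := lt_of_lt_of_le h (Nat.pow_le_pow_right (by norm_num) hn)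
    have h1 : 2 ^ (j.val + 1) ∣ 2 ^ n := pow_dvd_pow 2 hj
    have h2 : sidx i.val j.val m < 2 ^ n := sidx_lt (by omega) hj h
    rw [testBit_cub _ h, testBit_cswap hij h1 _ _ h, testBit_cub _ h2, decide_eq_decide,
      mem_mapF', Equiv.symm_swap]
    have h3 : mapS (Equiv.swap i j) (ofMask m) = ofMask (sidx i.val j.val m) := by
      rw [← ofMask_mk (mapS (Equiv.swap i j) (ofMask m)), mk_mapS_swap, mk_ofMask h13]
    rw [h3]
  · rw [testBit_cub_ge _ (by omega)]
    symm
    refine Nat.testBit_lt_two_pow (lt_of_lt_of_le ?_ (Nat.pow_le_pow_right (by norm_num)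
      (not_lt.1 h)))
    -- bits above `2 ^ n` are not touched
    refine Nat.lt_pow_two_of_testBit _ fun g hg => ?_
    have hKi : 2 ^ (i.val + 1) ∣ 2 ^ n := pow_dvd_pow 2 (by omega)
    have hKj : 2 ^ (j.val + 1) ∣ 2 ^ n := pow_dvd_pow 2 hj
    have hM : ∀ t, (Nat.land (ib (2 ^ n) i.val) (Nat.xor (ib (2 ^ n) i.val)
        (ib (2 ^ n) j.val))).testBit t =
        (decide (t < 2 ^ n) && (t.testBit i.val && !t.testBit j.val)) := by
      intro t
      have e : Nat.land (ib (2 ^ n) i.val) (Nat.xor (ib (2 ^ n) i.val) (ib (2 ^ n) j.val)) =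
        (ib (2 ^ n) i.val) &&& ((ib (2 ^ n) i.val) ^^^ (ib (2 ^ n) j.val)) := rfl
      rw [e, Nat.testBit_and, Nat.testBit_xor, testBit_ib hKi, testBit_ib hKj]
      cases decide (t < 2 ^ n) <;> cases t.testBit i.val <;> cases t.testBit j.val <;> rfl
    have hs : ∀ t, t.testBit i.val = true → t.testBit j.val = false →
        (t + (2 ^ j.val - 2 ^ i.val)).testBit i.val = false ∧
          t + (2 ^ j.val - 2 ^ i.val) = sidx i.val j.val t := by
      intro t h1 h2
      refine ⟨?_, sidx_add hij h1 h2⟩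
      rw [sidx_add hij h1 h2, sidx_testBit, if_pos rfl, h2]
    unfold cswap
    have hsub : Nat.sub (Nat.pow 2 j.val) (Nat.pow 2 i.val) = 2 ^ j.val - 2 ^ i.val := rfl
    rw [hsub, testBit_dswap]
    · rw [hM, decide_eq_false (by omega : ¬ g < 2 ^ n)]
      simp only [Bool.false_and, Bool.false_eq_true, if_false]
      rw [if_neg, testBit_cub_ge _ hg]
      rintro ⟨h3, h4⟩
      rw [hM, Bool.and_eq_true, Bool.and_eq_true, Bool.not_eq_true', decide_eq_true_eq] at h4
      have h5 := (hs _ h4.2.1 h4.2.2).2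
      rw [Nat.sub_add_cancel h3] at h5
      have h6 : sidx i.val j.val (g - (2 ^ j.val - 2 ^ i.val)) < 2 ^ n :=
        sidx_lt (by omega) hj h4.1
      omega
    · intro t ht
      rw [hM, Bool.and_eq_true, Bool.and_eq_true, Bool.not_eq_true'] at ht
      rw [hM, (hs t ht.2.1 ht.2.2).1]
      simp

/-- the exchange of two points on a lane that is a cube code -/
theorem fld_cswap_cub {n N l : ℕ} {i j : Fin 13} (hij : i.val < j.val) (hj : j.val < n)
    (hn : n ≤ 13) {X : ℕ} (hl : l < N) {D : Finset (Finset (Fin 13))}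
    (hD : fld (2 ^ n) X l = cub n D) :
    fld (2 ^ n) (cswap i.val j.val (ib (2 ^ n * N) i.val) (ib (2 ^ n * N) j.val) X) l =
      cub n (mapF (Equiv.swap i j) D) := by
  refine Nat.eq_of_testBit_eq fun m => ?_
  by_cases h : m < 2 ^ n
  · have h13 : m < 2 ^ 13 := lt_of_lt_of_le h (Nat.pow_le_pow_right (by norm_num) hn)
    have h2 : sidx i.val j.val m < 2 ^ n := sidx_lt (by omega) hj h
    rw [fld_cswap hij hj X hl h, hD, testBit_cub _ h2, testBit_cub _ h, decide_eq_decide,
      mem_mapF', Equiv.symm_swap]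
    have h3 : mapS (Equiv.swap i j) (ofMask m) = ofMask (sidx i.val j.val m) := by
      rw [← ofMask_mk (mapS (Equiv.swap i j) (ofMask m)), mk_mapS_swap, mk_ofMask h13]
    rw [h3]
  · rw [testBit_cub_ge _ (by omega), testBit_fld, decide_eq_false h, Bool.false_and]

/-! ## words -/

/-- the permutation of a word of pairs, the first pair acts first -/
def wpc : List (Fin 13 × Fin 13) → Equiv.Perm (Fin 13)
  | [] => 1
  | p :: w => wpc w * Equiv.swap p.1 p.2

theorem wpc_append (v w : List (Fin 13 × Fin 13)) : wpc (v ++ w) = wpc w * wpc v := by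
  induction v with
  | nil => rw [List.nil_append]; exact (mul_one _).symm
  | cons a v ih =>
    show wpc (v ++ w) * Equiv.swap a.1 a.2 = wpc w * (wpc v * Equiv.swap a.1 a.2)
    rw [ih, mul_assoc]

theorem wpc_fix {n : ℕ} {w : List (Fin 13 × Fin 13)} (h : ∀ p ∈ w, p.1.val < n ∧ p.2.val < n)
    {b : Fin 13} (hb : n ≤ b.val) : wpc w b = b := by
  induction w with
  | nil => rfl
  | cons p w ih =>
    show wpc w (Equiv.swap p.1 p.2 b) = b
    have h1 := h p List.mem_cons_self
    rw [Equiv.swap_apply_of_ne_of_ne (fun e => by rw [e] at hb; omega)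
      (fun e => by rw [e] at hb; omega), ih (fun c hc => h c (List.mem_cons_of_mem _ hc))]

/-- digit `t` in base 256 -/
def dig8 (w t : ℕ) : ℕ := Nat.land (Nat.shiftRight w (Nat.mul 8 t)) 255

/-- one exchange given by a digit `i + 16 j` -/
def cstep (K d X : ℕ) : ℕ :=
  cswap (Nat.mod d 16) (Nat.div d 16) (ib K (Nat.mod d 16)) (ib K (Nat.div d 16)) X

/-- evaluate the argument first -/
noncomputable def frc (f : ℕ → ℕ) (e : ℕ) : ℕ :=
  @Nat.rec (fun _ => ℕ) (f 0) (fun m _ => f (Nat.succ m)) e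

theorem frc_eq (f : ℕ → ℕ) (e : ℕ) : frc f e = f e := by
  cases e <;> rfl

/-- a word on all lanes -/
noncomputable def runC (K len w X : ℕ) : ℕ :=
  @Nat.rec (fun _ => ℕ) X (fun t ih => frc (fun d => cstep K d ih) (dig8 w t)) len

/-- digit `t` is a pair `i < j < n` -/
def okDig (n w t : ℕ) : Prop :=
  dig8 w t % 16 < dig8 w t / 16 ∧ dig8 w t / 16 < n ∧ dig8 w t / 16 < 13

instance (n w t : ℕ) : Decidable (okDig n w t) := by unfold okDig; infer_instance

/-- all digits are good -/
def okW (n w : ℕ) : ℕ → Bool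
  | 0 => true
  | len + 1 => okW n w len && (Nat.blt (dig8 w len % 16) (dig8 w len / 16) &&
      (Nat.blt (dig8 w len / 16) n && Nat.blt (dig8 w len / 16) 13))

/-- the pairs of a word -/
def prs (w : ℕ) : ℕ → List (Fin 13 × Fin 13)
  | 0 => []
  | len + 1 => prs w len ++
      [(Fin.ofNat 13 (dig8 w len % 16), Fin.ofNat 13 (dig8 w len / 16))]

theorem prs_lt {n w : ℕ} : ∀ {len : ℕ}, okW n w len = true → ∀ p ∈ prs w len,
    p.1.val < p.2.val ∧ p.2.val < n
  | 0, _, p, hp => absurd hp List.not_mem_nil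
  | len + 1, h, p, hp => by
    have h' : (okW n w len && (Nat.blt (dig8 w len % 16) (dig8 w len / 16) &&
      (Nat.blt (dig8 w len / 16) n && Nat.blt (dig8 w len / 16) 13))) = true := h
    rw [Bool.and_eq_true, Bool.and_eq_true, Bool.and_eq_true, Nat.blt_eq, Nat.blt_eq,
      Nat.blt_eq] at h'
    have hp' : p ∈ prs w len ++
      [(Fin.ofNat 13 (dig8 w len % 16), Fin.ofNat 13 (dig8 w len / 16))] := hp
    rw [List.mem_append, List.mem_singleton] at hp'
    rcases hp' with h1 | h1
    · exact prs_lt h'.1 p h1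
    · subst h1
      have e1 : (Fin.ofNat 13 (dig8 w len % 16)).val = dig8 w len % 16 :=
        Nat.mod_eq_of_lt (by omega)
      have e2 : (Fin.ofNat 13 (dig8 w len / 16)).val = dig8 w len / 16 :=
        Nat.mod_eq_of_lt (by omega)
      show (Fin.ofNat 13 (dig8 w len % 16)).val < (Fin.ofNat 13 (dig8 w len / 16)).val ∧
        (Fin.ofNat 13 (dig8 w len / 16)).val < n
      rw [e1, e2]
      exact ⟨h'.2.1, h'.2.2.1⟩

/-- **relabelling of all lanes of cube codes by a word of transpositions** -/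
theorem fld_runC {n N l : ℕ} (hn : n ≤ 13) {w len : ℕ} (hw : okW n w len = true) {X : ℕ}
    (hl : l < N) {D : Finset (Finset (Fin 13))} (hD : fld (2 ^ n) X l = cub n D) :
    fld (2 ^ n) (runC (2 ^ n * N) len w X) l = cub n (mapF (wpc (prs w len)) D) := by
  induction len with
  | zero =>
    show fld (2 ^ n) X l = cub n (mapF 1 D)
    rw [mapF_one]
    exact hD
  | succ len ih =>
    have h' : (okW n w len && (Nat.blt (dig8 w len % 16) (dig8 w len / 16) &&
      (Nat.blt (dig8 w len / 16) n && Nat.blt (dig8 w len / 16) 13))) = true := hw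
    rw [Bool.and_eq_true, Bool.and_eq_true, Bool.and_eq_true, Nat.blt_eq, Nat.blt_eq,
      Nat.blt_eq] at h'
    obtain ⟨h1, h2, h3, h4⟩ := h'
    have e0 : runC (2 ^ n * N) (len + 1) w X =
        frc (fun d => cstep (2 ^ n * N) d (runC (2 ^ n * N) len w X)) (dig8 w len) := rfl
    rw [e0, frc_eq]
    have e1 : (Fin.ofNat 13 (dig8 w len % 16)).val = dig8 w len % 16 :=
      Nat.mod_eq_of_lt (by omega)
    have e2 : (Fin.ofNat 13 (dig8 w len / 16)).val = dig8 w len / 16 :=
      Nat.mod_eq_of_lt (by omega)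
    have h5 := fld_cswap_cub (i := Fin.ofNat 13 (dig8 w len % 16))
      (j := Fin.ofNat 13 (dig8 w len / 16)) (n := n) (N := N) (by rw [e1, e2]; exact h2)
      (by rw [e2]; exact h3) hn hl (ih h1)
    rw [e1, e2] at h5
    have e3 : wpc (prs w (len + 1)) = Equiv.swap (Fin.ofNat 13 (dig8 w len % 16))
        (Fin.ofNat 13 (dig8 w len / 16)) * wpc (prs w len) := by
      show wpc (prs w len ++ [(Fin.ofNat 13 (dig8 w len % 16), Fin.ofNat 13 (dig8 w len / 16))]) = _
      rw [wpc_append]
      rfl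
    rw [e3, mapF_mul, ← h5]
    rfl

end Pool.Agent.Helper91.TY
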