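import Pool.Agent.Helper74.TY.XExt

/-!
MP_8ee768_co, project TH-Y': reading off the hits of an outer product of two key chunks.

The programs thread a state `s` (a position in a stream of certificates, a counter, ..) in continuation form:
a step `f : ℕ → (ℕ → Bool) → Bool` is *accepting for* `P` (`Acc P f`) if `f s c = true` implies `P` and that the
continuation `c` was called with success at some state.

* `bitIdx (2 ^ W - 1) (2 ^ (W * k)) = k` (two divisions by a small number, no table, no logarithm);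
* `hits`: all bits `W * k` of `Z` are visited, `hits_sound`;
* `outer`: all lanes `k` with `fld W A k = fld W B k` (`A`, `B` packed lanes of `W - 1` bits, valid lanes given by the
  mask `H` of top bits) are visited, `outer_sound`; `outer_rows_cols` for `A = rows`, `B = columns`.

The operations carry two salts `u v` (literals which differ from call to call): the whnf cache of the kernel
hashes a literal by its low 64 bits, the salts keep the keys of different calls apart.
-/

set_option autoImplicit false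

namespace Pool.Agent.Helper91.TY

open Pool.Agent.Helper63.SIMD
open Pool.Agent.Helper74.TY (lowbit)

/-- `f` accepts only if `P` holds, and then passes some state to its continuation -/
def Acc (P : Prop) (f : ℕ → (ℕ → Bool) → Bool) : Prop :=
  ∀ s c, f s c = true → P ∧ ∃ s', c s' = true

/-! ## Salted operations -/

def sland (_ _ a b : ℕ) : ℕ := Nat.land a b
def sxor (_ _ a b : ℕ) : ℕ := Nat.xor a b
def sadd (_ _ a b : ℕ) : ℕ := Nat.add a b
def ssub (_ _ a b : ℕ) : ℕ := Nat.sub a b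
def sdiv (_ _ a b : ℕ) : ℕ := Nat.div a b
def smod (_ _ a b : ℕ) : ℕ := Nat.mod a b
def sshr (_ _ a b : ℕ) : ℕ := Nat.shiftRight a b

/-! ## The index of a bit -/

/-- the number of the lane under the bit `b = 2 ^ (W * k)`, where `m = 2 ^ W - 1` -/
def bitIdx (u v m b : ℕ) : ℕ := smod u v (sdiv u v (ssub u v b 1) m) m

theorem two_pow_sub_one (W : ℕ) (k : ℕ) :
    2 ^ (W * k) - 1 = (2 ^ W - 1) * ∑ i ∈ Finset.range k, (2 ^ W) ^ i := by
  have h1 : (2 ^ W : ℕ) - 1 + 1 = 2 ^ W := Nat.sub_add_cancel Nat.one_le_two_pow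
  have h2 := geom_sum_mul_add (2 ^ W - 1 : ℕ) k
  rw [h1, ← pow_mul] at h2
  rw [← h2, Nat.add_sub_cancel, Nat.mul_comm]

theorem sum_mod (m k : ℕ) : (∑ i ∈ Finset.range k, (m + 1) ^ i) % m = k % m := by
  induction k with
  | zero => rfl
  | succ k ih =>
    rw [Finset.sum_range_succ, Nat.add_mod, ih, Nat.pow_mod, Nat.add_mod_left, ← Nat.pow_mod,
      one_pow, ← Nat.add_mod]

theorem bitIdx_eq {u v W k : ℕ} (hk : k < 2 ^ W - 1) : bitIdx u v (2 ^ W - 1) (2 ^ (W * k)) = k := by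
  obtain ⟨m, hm⟩ : ∃ m, 2 ^ W = m + 1 := ⟨2 ^ W - 1, by
    have := Nat.two_pow_pos W
    omega⟩
  show (2 ^ (W * k) - 1) / (2 ^ W - 1) % (2 ^ W - 1) = k
  rw [two_pow_sub_one, Nat.mul_div_cancel_left _ (by omega), hm, Nat.add_sub_cancel, sum_mod,
    Nat.mod_eq_of_lt (by omega)]

/-! ## The loop over the set bits -/

/-- visit all set bits of `Z` (at positions `W * k`), at most `n` of them; `m = 2 ^ W - 1` -/
def hits (u v m : ℕ) (f : ℕ → ℕ → (ℕ → Bool) → Bool) (n : ℕ) : ℕ → ℕ → (ℕ → Bool) → Bool :=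
  @Nat.rec (fun _ => ℕ → ℕ → (ℕ → Bool) → Bool) (fun _ _ _ => false)
    (fun _ ih Z s c => @Bool.rec (fun _ => Bool)
      ((fun Z' => f (bitIdx u v m (sxor u v Z Z')) s (fun s' => ih Z' s' c))
        (sland u v Z (ssub u v Z 1)))
      (c s) (Nat.beq Z 0)) n

theorem hits_zero (u v m : ℕ) (f : ℕ → ℕ → (ℕ → Bool) → Bool) (Z s : ℕ) (c : ℕ → Bool) :
    hits u v m f 0 Z s c = false := rfl

theorem hits_succ (u v m : ℕ) (f : ℕ → ℕ → (ℕ → Bool) → Bool) (n Z s : ℕ) (c : ℕ → Bool) :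
    hits u v m f (n + 1) Z s c = @Bool.rec (fun _ => Bool)
      (f (bitIdx u v m (Z ^^^ (Z &&& (Z - 1)))) s (fun s' => hits u v m f n (Z &&& (Z - 1)) s' c))
      (c s) (Nat.beq Z 0) := rfl

/-- **soundness of the loop**: every set bit at a position `W * k` was visited -/
theorem hits_sound {u v W : ℕ} {P : ℕ → Prop} {f : ℕ → ℕ → (ℕ → Bool) → Bool}
    (hf : ∀ k, Acc (P k) (f k)) : ∀ {n Z s : ℕ} {c : ℕ → Bool},
    hits u v (2 ^ W - 1) f n Z s c = true →
      (∀ k, k < 2 ^ W - 1 → Z.testBit (W * k) = true → P k) ∧ ∃ s', c s' = true := by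
  intro n
  induction n with
  | zero =>
    intro Z s c h
    rw [hits_zero] at h
    exact Bool.noConfusion h
  | succ n ih =>
    intro Z s c h
    rw [hits_succ] at h
    by_cases hZ : Z = 0
    · subst hZ
      refine ⟨fun k _ hk => ?_, s, h⟩
      rw [Nat.zero_testBit] at hk
      exact Bool.noConfusion hk
    · have hb : Nat.beq Z 0 = false := by
        rw [← Bool.not_eq_true]
        intro h1
        exact hZ (Nat.eq_of_beq_eq_true h1)
      rw [hb] at h
      obtain ⟨t, h1, h2, h3⟩ := lowbit hZ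
      rw [h2] at h
      obtain ⟨h4, s', h5⟩ := hf _ _ _ h
      obtain ⟨h6, h7⟩ := ih h5
      refine ⟨fun k hk hkt => ?_, h7⟩
      by_cases hit : W * k = t
      · subst hit
        rw [bitIdx_eq hk] at h4
        exact h4
      · exact h6 k hk (h3 _ hkt hit)

/-- the same in the form of a step -/
theorem hits_acc {u v W n Z : ℕ} {P : ℕ → Prop} {f : ℕ → ℕ → (ℕ → Bool) → Bool}
    (hf : ∀ k, Acc (P k) (f k)) :
    Acc (∀ k, k < 2 ^ W - 1 → Z.testBit (W * k) = true → P k) (hits u v (2 ^ W - 1) f n Z) :=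
  fun _ _ h => hits_sound hf h

/-! ## Equal lanes -/

/-- visit all lanes `k` with equal keys: `M = (2 ^ (W - 1) - 1) * rep W N`, `H` = top bits of the valid lanes,
`m = 2 ^ W - 1`, `h = W - 1`; at most `n` hits -/
def outer (M h m : ℕ) (f : ℕ → ℕ → (ℕ → Bool) → Bool) (n H A B s : ℕ) (c : ℕ → Bool) : Bool :=
  (fun x => @Bool.rec (fun _ => Bool) (hits A B m f n (sshr A B (sxor A B x H) h) s c) (c s)
    (Nat.beq x H)) (Nat.land (Nat.add (Nat.xor A B) M) H)

theorem outer_sound {W N : ℕ} (hW : 0 < W) (hN : N < 2 ^ W) {a b : ℕ → ℕ}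
    (ha : ∀ k < N, a k < 2 ^ (W - 1)) (hb : ∀ k < N, b k < 2 ^ (W - 1))
    {P : ℕ → Prop} {f : ℕ → ℕ → (ℕ → Bool) → Bool} (hf : ∀ k, Acc (P k) (f k))
    {n H s : ℕ} {c : ℕ → Bool}
    (h : outer ((2 ^ (W - 1) - 1) * rep W N) (W - 1) (2 ^ W - 1) f n H (pk W N a) (pk W N b) s c
      = true) :
    (∀ k < N, H.testBit (W * k + (W - 1)) = true → a k = b k → P k) ∧ ∃ s', c s' = true := by
  have h2 : 2 ^ W = 2 ^ (W - 1) + 2 ^ (W - 1) := by
    obtain ⟨w, rfl⟩ := Nat.exists_eq_succ_of_ne_zero hW.ne'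
    rw [Nat.succ_sub_one, pow_succ]; ring
  have hp := Nat.two_pow_pos (W - 1)
  have hx : ∀ k < N, a k ^^^ b k < 2 ^ (W - 1) := fun k hk =>
    Nat.xor_lt_two_pow (ha k hk) (hb k hk)
  have hS : (pk W N a ^^^ pk W N b) + (2 ^ (W - 1) - 1) * rep W N =
      pk W N (fun k => (a k ^^^ b k) + (2 ^ (W - 1) - 1)) := by
    rw [pk_xor (fun k hk => by have := ha k hk; omega) (fun k hk => by have := hb k hk; omega),
      mul_rep hW, pk_add]
  -- the bit of an equal lane is not in the sum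
  have hbit : ∀ k < N, a k = b k →
      ((pk W N a ^^^ pk W N b) + (2 ^ (W - 1) - 1) * rep W N).testBit (W * k + (W - 1)) = false := by
    intro k hk hab
    rw [hS]
    have h3 := fld_pk (W := W) (N := N) (a := fun k => (a k ^^^ b k) + (2 ^ (W - 1) - 1))
      (fun i hi => by
        have := hx i hi
        show (a i ^^^ b i) + (2 ^ (W - 1) - 1) < 2 ^ W
        omega) hk
    have h4 : (fld W (pk W N fun k => (a k ^^^ b k) + (2 ^ (W - 1) - 1)) k).testBit (W - 1) =
        ((a k ^^^ b k) + (2 ^ (W - 1) - 1)).testBit (W - 1) := by rw [h3]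
    unfold fld at h4
    rw [Nat.testBit_mod_two_pow, Nat.testBit_div_two_pow, hab, Nat.xor_self, Nat.zero_add,
      Nat.testBit_two_pow_sub_one, decide_eq_true (show W - 1 < W by omega),
      decide_eq_false (lt_irrefl (W - 1)), Bool.true_and, Nat.add_comm (W - 1)] at h4
    exact h4
  change @Bool.rec (fun _ => Bool) (hits (pk W N a) (pk W N b) (2 ^ W - 1) f n
    ((((pk W N a ^^^ pk W N b) + (2 ^ (W - 1) - 1) * rep W N) &&& H ^^^ H) >>> (W - 1)) s c) (c s)
    (Nat.beq (((pk W N a ^^^ pk W N b) + (2 ^ (W - 1) - 1) * rep W N) &&& H) H) = true at h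
  generalize hSdef : (pk W N a ^^^ pk W N b) + (2 ^ (W - 1) - 1) * rep W N = S at h hbit
  by_cases he : S &&& H = H
  · have hb1 : Nat.beq (S &&& H) H = true := by
      rw [he]
      exact Nat.beq_refl H
    rw [hb1] at h
    refine ⟨fun k hk hH hab => ?_, s, h⟩
    have h5 := hbit k hk hab
    rw [← he, Nat.testBit_and, h5, Bool.false_and] at hH
    exact Bool.noConfusion hH
  · have hb1 : Nat.beq (S &&& H) H = false := by
      rw [← Bool.not_eq_true]
      intro h1
      exact he (Nat.eq_of_beq_eq_true h1)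
    rw [hb1] at h
    obtain ⟨h6, h7⟩ := hits_sound hf h
    refine ⟨fun k hk hH hab => h6 k (by omega) ?_, h7⟩
    rw [Nat.testBit_shiftRight, Nat.testBit_xor, Nat.testBit_and, Nat.add_comm (W - 1), hH,
      hbit k hk hab]
    rfl

/-- the same for a row chunk `a` (`N` lanes at stride `W * N'`) and a column chunk `b` (`N'` lanes at stride `W`) -/
theorem outer_rows_cols {W N N' : ℕ} (hW : 0 < W) (hN' : 0 < N') (hN : N * N' < 2 ^ W) {a b : ℕ → ℕ}
    (ha : ∀ i < N, a i < 2 ^ (W - 1)) (hb : ∀ j < N', b j < 2 ^ (W - 1))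
    {P : ℕ → Prop} {f : ℕ → ℕ → (ℕ → Bool) → Bool} (hf : ∀ k, Acc (P k) (f k))
    {n H s : ℕ} {c : ℕ → Bool}
    (h : outer ((2 ^ (W - 1) - 1) * rep W (N * N')) (W - 1) (2 ^ W - 1) f n H
      (pk (W * N') N a * rep W N') (rep (W * N') N * pk W N' b) s c = true) :
    (∀ i < N, ∀ j < N', H.testBit (W * (N' * i + j) + (W - 1)) = true → a i = b j →
      P (N' * i + j)) ∧ ∃ s', c s' = true := by
  rw [rows hW, cols hW hN'] at h
  obtain ⟨h1, h2⟩ := outer_sound hW hN
    (fun k hk => ha _ (Nat.div_lt_of_lt_mul (by rwa [Nat.mul_comm] at hk)))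
    (fun k _ => hb _ (Nat.mod_lt _ hN')) hf h
  refine ⟨fun i hi j hj hH hab => h1 _ ?_ hH ?_, h2⟩
  · calc N' * i + j < N' * i + N' := by omega
      _ = N' * (i + 1) := by ring
      _ ≤ N' * N := Nat.mul_le_mul_left _ hi
      _ = N * N' := Nat.mul_comm _ _
  · rw [Nat.mul_add_div hN', Nat.div_eq_of_lt hj, Nat.add_zero, Nat.mul_add_mod,
      Nat.mod_eq_of_lt hj, hab]

theorem outer_acc {W N N' : ℕ} (hW : 0 < W) (hN' : 0 < N') (hN : N * N' < 2 ^ W) {a b : ℕ → ℕ}
    (ha : ∀ i < N, a i < 2 ^ (W - 1)) (hb : ∀ j < N', b j < 2 ^ (W - 1))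
    {P : ℕ → Prop} {f : ℕ → ℕ → (ℕ → Bool) → Bool} (hf : ∀ k, Acc (P k) (f k)) {n H : ℕ} :
    Acc (∀ i < N, ∀ j < N', H.testBit (W * (N' * i + j) + (W - 1)) = true → a i = b j →
        P (N' * i + j))
      (outer ((2 ^ (W - 1) - 1) * rep W (N * N')) (W - 1) (2 ^ W - 1) f n H
        (pk (W * N') N a * rep W N') (rep (W * N') N * pk W N' b)) :=
  fun _ _ h => outer_rows_cols hW hN' hN ha hb hf h

end Pool.Agent.Helper91.TY
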