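import Pool.Agent.Helper91.TY.GlueA
import Pool.Agent.Helper38.TY.CenFn
import Pool.Agent.Helper52.TY.FrameA

/-!
MP_8ee768_co, project TH-Y', stage A (E, B1): the lists of helper38's centre function contain the lanes.

* `RowIn n cs F`: one of the first `n` lanes of the expanded row is the cube code of `F`;
* `grp_has`: the groups of a record; `lyl_letters`, `lzl_letters`: the pair letters;
  `root_letters`: the root cube in the pair frame; `inL_cutL`: the chunks of 64 lanes;
* `recsChk`: the check of the records of a centre; `ents_pair`: for two positions `p < q` of the mask there are two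
  entries, in this order, which contain the lanes of `p` and of `q`.
-/

set_option autoImplicit false
set_option maxRecDepth 100000
set_option exponentiation.threshold 2000000

namespace Pool.Agent.Helper91.TY

open Finset
open Pool.Agent.Helper89.CV (OddCover ofMask)
open Pool.Agent.Helper97.CV
open Pool.Agent.Helper63.SIMD
open Pool.Agent.Helper79.CV
open Pool.Agent.Helper33.CV
open Pool.Agent.Helper82.TY (below Lay lay_mapF)
open Pool.Agent.Helper39.TY (InL)
open Pool.Agent.Helper52.TY (expandC dcode qA piA tauA LYL LZL LYL_piA LZL_piA)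
open Pool.Agent.Helper38.TY

/-! ## rows -/

/-- one of the first `n` lanes of the expanded row is the cube code of `F` -/
def RowIn (n : ℕ) (cs : List ℕ) (F : Fam) : Prop :=
  ∃ k X i, cs[k]? = some X ∧ i < 64 ∧ 64 * k + i < n ∧ fld 2048 (expandC X) i = cub 11 F

theorem DenN.rowIn {n : ℕ} {cs : List ℕ} {F : Fam} (h : DenN n cs F) (hc : chkDL 32768 cs = true)
    (hF : ∀ s ∈ F, mk s < 2048 → s.card = 0 ∨ s.card = 1 ∨ s.card = 3 ∨ s.card = 4 ∨
      s.card = 11) : RowIn n cs F := by
  obtain ⟨k, X, i, h1, h2, h3, h4⟩ := h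
  obtain ⟨h5, h6⟩ := chkD_sound (chkDL_sound hc X (List.mem_of_getElem? h1))
  exact ⟨k, X, i, h1, h2, h3, Pool.Agent.Helper52.TY.fld_expandC h5 h6 h2 hF h4⟩

theorem fld_catN {n : ℕ} {l : List ℕ} (hl : ∀ X ∈ l, expandC X < 2 ^ 131072) {k X i : ℕ}
    (hk : k < n) (h : l[k]? = some X) (hi : i < 64) :
    fld 2048 (catN n l) (64 * k + i) = fld 2048 (expandC X) i := by
  induction n generalizing l k with
  | zero => exact absurd hk (Nat.not_lt_zero k)
  | succ n ih =>
    cases l with
    | nil =>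
      rw [List.getElem?_nil] at h
      exact absurd h (by simp)
    | cons Y l =>
      have e64 : 2048 * 64 = 131072 := by norm_num
      have e : catN (n + 1) (Y :: l) = glue 131072 (expandC Y) (catN n l) := by
        rw [catN_cons]
        exact Nat.lor_comm _ _
      have hY := hl Y List.mem_cons_self
      have hg := fld_glue (N := 64) (Y := expandC Y) (X := catN n l) (i := 64 * k + i)
        (by rw [e64]; exact hY)
      rw [e64] at hg
      rw [e, hg]
      cases k with
      | zero =>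
        rw [List.getElem?_cons_zero, Option.some.injEq] at h
        rw [Nat.mul_zero, Nat.zero_add, if_pos hi, h]
      | succ k =>
        rw [List.getElem?_cons_succ] at h
        have h1 : 64 * (k + 1) + i = 64 * k + i + 64 := by ring
        rw [if_neg (by omega), h1, Nat.add_sub_cancel]
        exact ih (fun Z hZ => hl Z (List.mem_cons_of_mem _ hZ)) (by omega) h

theorem KL_eq : KL = 2048 * 512 := by
  unfold KL
  norm_num

/-- **the groups of a record contain the relabelled lanes of the row** -/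
theorem grp_has {p len w : ℕ} (hw : okW 11 w len = true) {L : List Ent} {F : Fam} :
    ∀ {g N : ℕ} {l : List ℕ}, (∀ X ∈ l, expandC X < 2 ^ 131072) → RowIn N l F → N ≤ 512 * g →
    ∃ e ∈ grpF p len w L g N l, e.p = p ∧ 64 * e.n ≤ 512 ∧
      InX (64 * e.n) e.X (mapF (wpc (prs w len)) F) ∧
      InX (64 * e.n) e.Y (mapF (wpc (prs w len)) F) := by
  intro g
  induction g with
  | zero =>
    intro N l _ h hN
    obtain ⟨k, X, i, -, -, h3, -⟩ := h
    omega
  | succ g ih =>
    intro N l hl h hN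
    obtain ⟨k, X, i, h1, h2, h3, h4⟩ := h
    by_cases hk : k < 8
    · refine ⟨entF p len w N l, List.mem_cons_self, rfl, ?_, ?_, ?_⟩
      · show 64 * ((mn N + 63) / 64) ≤ 512
        have h5 : mn N ≤ 512 := by
          rw [mn_eq]
          exact min_le_right _ _
        omega
      all_goals
        have h5 : mn N = min N 512 := mn_eq N
        have h6 : mn N ≤ 512 := by
          rw [h5]
          exact min_le_right _ _
        have h7 : 64 * k + i < mn N := by
          rw [h5]
          exact lt_min h3 (by omega)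
        have h8 : k < (mn N + 63) / 64 := by omega
        have h9 : InX (mn N) (catN ((mn N + 63) / 64) l) F :=
          ⟨64 * k + i, h7, by rw [fld_catN hl h8 h1 h2, h4]⟩
        have h10 : InX (mn N) (runC KL len w (catN ((mn N + 63) / 64) l))
            (mapF (wpc (prs w len)) F) := by
          rw [KL_eq]
          exact h9.run h6 hw
      · exact h10.mono (by show mn N ≤ 64 * ((mn N + 63) / 64); omega)
      · have h11 : InX (mn N) (padN (mn N) ((mn N + 63) / 64)
            (runC KL len w (catN ((mn N + 63) / 64) l))) (mapF (wpc (prs w len)) F) := by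
          unfold padN
          exact h10.pad
        exact h11.mono (by show mn N ≤ 64 * ((mn N + 63) / 64); omega)
    · have h5 : RowIn (N - 512) (dropN 8 l) F := by
        refine ⟨k - 8, X, i, ?_, h2, by omega, h4⟩
        rw [dropN_eq, List.getElem?_drop]
        have h6 : 8 + (k - 8) = k := by omega
        rw [h6, h1]
      obtain ⟨e, he, h6⟩ := ih (fun X hX => hl X (by
        rw [dropN_eq] at hX
        exact List.mem_of_mem_drop hX)) h5 (by omega)
      exact ⟨e, List.mem_cons_of_mem _ he, h6⟩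

theorem mem_grpF {p len w : ℕ} {L : List Ent} : ∀ {g N : ℕ} {l : List ℕ} {e : Ent},
    e ∈ L → e ∈ grpF p len w L g N l
  | 0, _, _, _, h => h
  | g + 1, _, _, _, h => List.mem_cons_of_mem _ (mem_grpF (g := g) h)

/-- the groups of a record are in front of the rest -/
theorem grpF_pairwise {PP : Ent → Ent → Prop} {p len w : ℕ} {L : List Ent} :
    ∀ {g N : ℕ} {l : List ℕ}, (grpF p len w L g N l).Pairwise PP → L.Pairwise PP ∧
      ∀ e ∈ grpF p len w [] g N l, ∀ e' ∈ L, PP e e'
  | 0, _, _, h => ⟨h, fun e he => absurd he List.not_mem_nil⟩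
  | g + 1, N, l, h => by
    have h1 : (entF p len w N l :: grpF p len w L g (N - 512) (dropN 8 l)).Pairwise PP := h
    rw [List.pairwise_cons] at h1
    obtain ⟨h2, h3⟩ := grpF_pairwise (g := g) h1.2
    refine ⟨h2, fun e he e' he' => ?_⟩
    have h4 : e ∈ entF p len w N l :: grpF p len w [] g (N - 512) (dropN 8 l) := he
    rcases List.mem_cons.1 h4 with h5 | h5
    · rw [h5]
      exact h1.1 e' (mem_grpF he')
    · exact h3 e h5 e' he'

/-! ## the letters of a pair -/

theorem wY_perm : ∀ p q : Fin 13, p < q → q < 12 →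
    okW 11 (wY (zl p.val q.val)) (lenY (zl p.val q.val)) = true ∧
      ∀ a, wpc (prs (wY (zl p.val q.val)) (lenY (zl p.val q.val))) a =
        Equiv.swap (qA p q) 10 a := by decide +kernel

theorem wZ_perm : ∀ p q : Fin 13, p < q → q < 12 →
    okW 11 (wZ p.val q.val) (lenZ p.val q.val) = true ∧
      ∀ a, wpc (prs (wZ p.val q.val) (lenZ p.val q.val)) a = tauA p q a := by decide +kernel

theorem wR_perm : ∀ p q : Fin 13, p < q → q < 12 →
    okW 12 (wR p.val (zl p.val q.val)) (lenR (zl p.val q.val)) = true ∧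
      ∀ a, wpc (prs (wR p.val (zl p.val q.val)) (lenR (zl p.val q.val))) a = piA p q a := by
  decide +kernel

/-- the lane of `p` in the pair frame -/
theorem lyl_letters {p q : Fin 13} (hpq : p < q) (hq : q < 12) {B : Fam} {n X : ℕ}
    (hn : n ≤ 512) (h : InX n X (Lay (moved (Equiv.swap p 11) B p))) :
    InX n (runC KL (lenY (zl p.val q.val)) (wY (zl p.val q.val)) X) (LYL (mapF (piA p q) B)) := by
  obtain ⟨h1, h2⟩ := wY_perm p q hpq hq
  have h3 := h.run (N := 512) hn h1
  rw [← KL_eq, Equiv.ext h2] at h3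
  rw [LYL_piA hpq hq]
  exact h3

/-- the lane of `q` in the pair frame -/
theorem lzl_letters {p q : Fin 13} (hpq : p < q) (hq : q < 12) {B : Fam} {n X : ℕ}
    (hn : n ≤ 512) (h : InX n X (Lay (moved (Equiv.swap q 11) B q))) :
    InX n (runC KL (lenZ p.val q.val) (wZ p.val q.val) X) (LZL (mapF (piA p q) B)) := by
  obtain ⟨h1, h2⟩ := wZ_perm p q hpq hq
  have h3 := h.run (N := 512) hn h1
  rw [← KL_eq, Equiv.ext h2] at h3
  rw [LZL_piA hpq hq]
  exact h3

/-- the root cube in the pair frame -/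
theorem root_letters {p q : Fin 13} (hpq : p < q) (hq : q < 12) (D : Fam) :
    runC 4096 (lenR (zl p.val q.val)) (wR p.val (zl p.val q.val)) (cub 12 D) % 2 ^ 4096 =
      cub 12 (mapF (piA p q) D) := by
  obtain ⟨h1, h2⟩ := wR_perm p q hpq hq
  have h3 := runC_one (n := 12) (by norm_num) h1 D
  rw [Equiv.ext h2, fld_mod] at h3
  have e : 2 ^ 12 * 1 = 4096 := by norm_num
  rw [e] at h3
  exact h3

/-! ## chunks -/

theorem mem_cutL {M Y : ℕ} : ∀ {n k : ℕ}, k < n →
    Nat.land (Nat.shiftRight Y (Nat.mul 131072 k)) M ∈ cutL M n Y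
  | 0, k, h => absurd h (Nat.not_lt_zero k)
  | n + 1, k, h => by
    rw [cutL_succ]
    rcases Nat.lt_succ_iff_lt_or_eq.1 h with h1 | h1
    · exact List.mem_cons_of_mem _ (mem_cutL h1)
    · rw [h1]
      exact List.mem_cons_self

theorem inL_cutL {n Y : ℕ} {F : Fam} (h : InX (64 * n) Y F) :
    InL 64 (cutL (2 ^ 131072 - 1) n Y) F := by
  refine h.cut (N := 64) (K := n) le_rfl fun k hk => ?_
  have h1 := mem_cutL (M := 2 ^ 131072 - 1) (Y := Y) hk
  have e64 : 2048 * 64 = 131072 := by norm_num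
  have e : Nat.land (Nat.shiftRight Y (Nat.mul 131072 k)) (2 ^ 131072 - 1) = cutK 64 Y k := by
    show (Y >>> (131072 * k)) &&& (2 ^ 131072 - 1) = (Y >>> ((2048 * 64) * k)) % 2 ^ (2048 * 64)
    rw [Nat.and_two_pow_sub_one_eq_mod, e64]
  rw [e] at h1
  exact h1

/-! ## the records of a centre -/

/-- the lane of the position `p` is in the entry `e` -/
structure Good (e : Ent) (B : Fam) (p : Fin 13) : Prop where
  pos : e.p = p.val
  le : 64 * e.n ≤ 512
  inX : InX (64 * e.n) e.X (Lay (moved (Equiv.swap p 11) B p))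
  inY : InX (64 * e.n) e.Y (Lay (moved (Equiv.swap p 11) B p))

/-- check of `n` records: positions increasing from `a`, types in `[2, NT)`, words -/
noncomputable def recsChk (typ : ℕ → ℕ) (NT R : ℕ) (n : ℕ) : ℕ → ℕ → Bool :=
  @Nat.rec (fun _ => ℕ → ℕ → Bool) (fun _ _ => true)
    (fun _ ih a C => frS C (rP C) fun p => frS C (rT C) fun t => frS C (typ t) fun T =>
      frS C (rLen C) fun len => frS C (rW C) fun w =>
      ite0 (Nat.ble a p) false (ite0 (Nat.ble p 11) false (ite0 (Nat.ble 2 t) false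
        (ite0 (Nat.ble (Nat.succ t) NT) false (ite0 (baseChk R p T len w) false
          (frS C (Nat.shiftRight C 112) fun C' => ih (Nat.succ p) C')))))) n

theorem ite0_and {b : Bool} {x : Bool} (h : ite0 b false x = true) : b = true ∧ x = true := by
  cases b with
  | false => exact Bool.noConfusion h
  | true => exact ⟨rfl, h⟩

theorem recsChk_succ {typ : ℕ → ℕ} {NT R n a C : ℕ} (h : recsChk typ NT R (n + 1) a C = true) :
    a ≤ rP C ∧ rP C ≤ 11 ∧ 2 ≤ rT C ∧ rT C < NT ∧
      baseChk R (rP C) (typ (rT C)) (rLen C) (rW C) = true ∧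
      recsChk typ NT R n (rP C + 1) (C >>> 112) = true := by
  have h0 : (frS C (rP C) fun p => frS C (rT C) fun t => frS C (typ t) fun T =>
      frS C (rLen C) fun len => frS C (rW C) fun w =>
      ite0 (Nat.ble a p) false (ite0 (Nat.ble p 11) false (ite0 (Nat.ble 2 t) false
        (ite0 (Nat.ble (Nat.succ t) NT) false (ite0 (baseChk R p T len w) false
          (frS C (Nat.shiftRight C 112) fun C' => recsChk typ NT R n (Nat.succ p) C')))))) = true := h
  simp only [frS_eq] at h0
  obtain ⟨h1, h0⟩ := ite0_and h0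
  obtain ⟨h2, h0⟩ := ite0_and h0
  obtain ⟨h3, h0⟩ := ite0_and h0
  obtain ⟨h4, h0⟩ := ite0_and h0
  obtain ⟨h5, h0⟩ := ite0_and h0
  exact ⟨Nat.le_of_ble_eq_true h1, Nat.le_of_ble_eq_true h2, Nat.le_of_ble_eq_true h3,
    Nat.le_of_ble_eq_true h4, h5, h0⟩

/-- what is known about the rows -/
structure RowsOK (typ nl : ℕ → ℕ) (row : ℕ → List ℕ) (NT cap : ℕ) (P : Fam → Prop) : Prop where
  typ_lt : ∀ t, typ t < 2 ^ 165
  row_lt : ∀ t, 2 ≤ t → t < NT → ∀ X ∈ row t, expandC X < 2 ^ 131072
  rows : ∀ t, 2 ≤ t → t < NT → ∀ D : Fam, OddFam 3 (below 12) D → link D 11 = fam 11 3 (typ t) →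
    2 * D.card ≤ 114 + cap → P D → RowIn (nl t) (row t) (Lay D)

/-- the cover in the frame of a centre, the position `p` is light -/
structure Lgt (cap : ℕ) (P : Fam → Prop) (r : ℕ) (B : Fam) (p : Fin 13) : Prop where
  odd : OddCover B
  root : link B 12 = fam 12 4 r
  le : MM B p ≤ cap
  prop : P (link B p)

/-- the moved link is a relabelled member of the table -/
theorem moved_row {cap : ℕ} {P : Fam → Prop} (hP : Inv P) {B : Fam} (hB : OddCover B)
    {y : Fin 13} (hPy : P (link B y)) (hM : MM B y ≤ cap) {σ : Equiv.Perm (Fin 13)}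
    (h12 : σ 12 = 12) (hy : σ y = 11) {w len T : ℕ} (hw : okW 11 w len = true)
    (hρT : mapF (wpc (prs w len)) (fam 11 3 T) = link (mapF σ (link B 12)) 11) :
    ∃ D : Fam, OddFam 3 (below 12) D ∧ link D 11 = fam 11 3 T ∧ 2 * D.card ≤ 114 + cap ∧ P D ∧
      Lay (moved σ B y) = mapF (wpc (prs w len)) (Lay D) := by
  have hρ := wpc_fix2 hw
  set ρ := wpc (prs w len) with hρdef
  have e1 : (ρ.symm * σ) 12 = 12 := by rw [Equiv.Perm.mul_apply, h12, hρ.symm.2]
  have e2 : (ρ.symm * σ) y = 11 := by rw [Equiv.Perm.mul_apply, hy, hρ.symm.1]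
  have h1 : mapF (ρ.symm * σ) (link (link B 12) y) = fam 11 3 T := by
    rw [mapF_mul, ← link_mapF σ (link B 12) y, hy, ← hρT, mapF_symm_mapF]
  refine ⟨moved (ρ.symm * σ) B y, moved_odd hB e2, moved_link e1 h1,
    by rw [moved_card hB]; omega, ?_, ?_⟩
  · unfold moved
    exact hP _ _ hPy
  · rw [← lay_mapF hρ.1 hρ.2, ← moved_base hρ]

/-- one record -/
theorem rec_has {typ nl : ℕ → ℕ} {row : ℕ → List ℕ} {NT cap : ℕ} {P : Fam → Prop} (hP : Inv P)
    (hrow : RowsOK typ nl row NT cap P) {r C : ℕ} (h2 : 2 ≤ rT C) (hNT : rT C < NT)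
    (h11 : rP C ≤ 11)
    (hb : baseChk (cub 12 (fam 12 4 r)) (rP C) (typ (rT C)) (rLen C) (rW C) = true) {B : Fam}
    {p : Fin 13} (hp : p.val = rP C) (hB : Lgt cap P r B p) (L : List Ent) :
    ∃ e ∈ recF row nl C L, Good e B p := by
  have hp12 : p ≠ 12 := by
    rintro rfl
    have e : (12 : Fin 13).val = 12 := rfl
    omega
  rw [← hp] at hb
  obtain ⟨hw, hρ⟩ := baseChk_sound hp12 (hrow.typ_lt _) hb
  obtain ⟨D, h3, h4, h5, h6, h7⟩ := moved_row hP hB.odd hB.prop hB.le (σ := Equiv.swap p 11)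
    (Equiv.swap_apply_of_ne_of_ne hp12.symm (by decide)) (Equiv.swap_apply_left _ _) hw
    (by rw [hB.root]; exact hρ)
  have h8 := hrow.rows _ h2 hNT D h3 h4 h5 h6
  obtain ⟨e, he, g1, g2, g3, g4⟩ := grp_has (p := rP C) hw (L := L)
    (g := (nl (rT C) + 511) / 512) (hrow.row_lt _ h2 hNT) h8 (by omega)
  rw [← h7] at g3 g4
  exact ⟨e, he, g1.trans hp.symm, g2, g3, g4⟩

theorem testBit_maskF_succ {n C p : ℕ} :
    (maskF (n + 1) C).testBit p = true ↔ p = rP C ∨ (maskF n (C >>> 112)).testBit p = true := by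
  have e : maskF (n + 1) C = 2 ^ rP C ||| maskF n (C >>> 112) := rfl
  rw [e, Nat.testBit_or, Bool.or_eq_true, Nat.testBit_two_pow, decide_eq_true_eq]
  exact or_congr_left eq_comm

/-- positions of the mask are at least `a` -/
theorem mask_ge {typ : ℕ → ℕ} {NT R : ℕ} : ∀ {n a C : ℕ}, recsChk typ NT R n a C = true →
    ∀ {p : ℕ}, (maskF n C).testBit p = true → a ≤ p ∧ p ≤ 11
  | 0, _, _, _, p, hp => by
    have e : ∀ C, maskF 0 C = 0 := fun _ => rfl
    rw [e, Nat.zero_testBit] at hp
    exact absurd hp Bool.false_ne_true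
  | n + 1, a, C, h, p, hp => by
    obtain ⟨h1, h2, -, -, -, h6⟩ := recsChk_succ h
    rcases testBit_maskF_succ.1 hp with h7 | h7
    · omega
    · have := mask_ge h6 h7
      omega

theorem mem_recF {row : ℕ → List ℕ} {nl : ℕ → ℕ} {C : ℕ} {L : List Ent} {e : Ent} (h : e ∈ L) :
    e ∈ recF row nl C L := mem_grpF h

/-- **one position of the mask** -/
theorem ents_one {typ nl : ℕ → ℕ} {row : ℕ → List ℕ} {NT cap : ℕ} {P : Fam → Prop} (hP : Inv P)
    (hrow : RowsOK typ nl row NT cap P) {r : ℕ} {B : Fam} {p : Fin 13} (hB : Lgt cap P r B p) :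
    ∀ {n a C : ℕ}, recsChk typ NT (cub 12 (fam 12 4 r)) n a C = true →
    (maskF n C).testBit p.val = true → ∃ e ∈ entsF row nl n C, Good e B p
  | 0, _, _, _, hp => by
    have e : ∀ C, maskF 0 C = 0 := fun _ => rfl
    rw [e, Nat.zero_testBit] at hp
    exact absurd hp Bool.false_ne_true
  | n + 1, a, C, h, hp => by
    obtain ⟨h1, h2, h3, h4, h5, h6⟩ := recsChk_succ h
    have e : entsF row nl (n + 1) C = recF row nl C (entsF row nl n (C >>> 112)) := rfl
    rw [e]
    rcases testBit_maskF_succ.1 hp with h7 | h7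
    · exact rec_has hP hrow h3 h4 h2 h5 h7 hB _
    · obtain ⟨e, he, h8⟩ := ents_one hP hrow hB h6 h7
      exact ⟨e, mem_recF he, h8⟩

/-- **two positions of the mask**: two entries in this order -/
theorem ents_pair {typ nl : ℕ → ℕ} {row : ℕ → List ℕ} {NT cap : ℕ} {P : Fam → Prop} (hP : Inv P)
    (hrow : RowsOK typ nl row NT cap P) {r : ℕ} {B : Fam} {p q : Fin 13} (hpq : p < q)
    (hBp : Lgt cap P r B p) (hBq : Lgt cap P r B q) {PP : Ent → Ent → Prop} :
    ∀ {n a C : ℕ}, recsChk typ NT (cub 12 (fam 12 4 r)) n a C = true →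
    (maskF n C).testBit p.val = true → (maskF n C).testBit q.val = true →
    (entsF row nl n C).Pairwise PP → ∃ a b, Good a B p ∧ Good b B q ∧ PP a b
  | 0, _, _, _, hp, _, _ => by
    have e : ∀ C, maskF 0 C = 0 := fun _ => rfl
    rw [e, Nat.zero_testBit] at hp
    exact absurd hp Bool.false_ne_true
  | n + 1, a, C, h, hp, hq, hPP => by
    obtain ⟨h1, h2, h3, h4, h5, h6⟩ := recsChk_succ h
    have e : entsF row nl (n + 1) C = recF row nl C (entsF row nl n (C >>> 112)) := rfl
    rw [e] at hPP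
    obtain ⟨h8, h9⟩ := grpF_pairwise hPP
    have hpq' : p.val < q.val := hpq
    rcases testBit_maskF_succ.1 hp with h7 | h7
    · rcases testBit_maskF_succ.1 hq with h10 | h10
      · omega
      · obtain ⟨e1, he1, g1⟩ := rec_has hP hrow h3 h4 h2 h5 h7 hBp []
        obtain ⟨e2, he2, g2⟩ := ents_one hP hrow hBq h6 h10
        exact ⟨e1, e2, g1, g2, h9 e1 he1 e2 he2⟩
    · rcases testBit_maskF_succ.1 hq with h10 | h10
      · have := (mask_ge h6 h7).1
        omega
      · exact ents_pair hP hrow hpq hBp hBq h6 h7 h10 h8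

end Pool.Agent.Helper91.TY
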