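import Pool.Agent.Helper63.SIMD.Pack

/-!
MP_8ee768_co, project TH-Y': masked exchanges of bits (delta swaps) on all lanes of a packed list.

`dswap s M x` exchanges every bit `j` in `M` with the bit `j + s`. If the bits of `M` and of `M <<< s`
are disjoint and lie inside the lane, then the operation with the replicated mask `M * rep W N` acts on
every lane as the operation with the mask `M` (`fld_dswap`).
-/

set_option autoImplicit false

namespace Pool.Agent.Helper91.TY

open Pool.Agent.Helper63.SIMD

/-- last step of an exchange -/
def dswap2 (s x t : ℕ) : ℕ := Nat.xor (Nat.xor x t) (Nat.shiftLeft t s)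

/-- exchange of the bits in `M` with the bits `s` places higher -/
def dswap (s M x : ℕ) : ℕ := dswap2 s x (Nat.land (Nat.xor (Nat.shiftRight x s) x) M)

theorem testBit_dswap {s M x : ℕ} (hd : ∀ j, M.testBit j = true → M.testBit (j + s) = false) (j : ℕ) :
    (dswap s M x).testBit j =
      if M.testBit j = true then x.testBit (j + s)
      else if s ≤ j ∧ M.testBit (j - s) = true then x.testBit (j - s) else x.testBit j := by
  have e : dswap s M x = (x ^^^ (((x >>> s) ^^^ x) &&& M)) ^^^ ((((x >>> s) ^^^ x) &&& M) <<< s) := rfl
  rw [e, Nat.testBit_xor, Nat.testBit_xor, Nat.testBit_and, Nat.testBit_xor, Nat.testBit_shiftRight,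
    Nat.testBit_shiftLeft, Nat.add_comm s j]
  by_cases h1 : M.testBit j = true
  · rw [if_pos h1]
    by_cases h2 : s ≤ j
    · have h3 : M.testBit (j - s) = false := by
        by_contra h
        rw [Bool.not_eq_false] at h
        have := hd _ h
        rw [Nat.sub_add_cancel h2, h1] at this
        exact Bool.noConfusion this
      rw [Nat.testBit_and, h3, h1]
      cases x.testBit j <;> cases x.testBit (j + s) <;> simp
    · have h3 : decide (j ≥ s) = false := by simpa using h2
      rw [h3, h1]
      cases x.testBit j <;> cases x.testBit (j + s) <;> simp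
  · rw [if_neg h1]
    rw [Bool.not_eq_true] at h1
    by_cases h2 : s ≤ j
    · have h3 : decide (j ≥ s) = true := by simpa using h2
      rw [h3, h1, Nat.testBit_and, Nat.testBit_xor, Nat.testBit_shiftRight, Nat.add_comm s,
        Nat.sub_add_cancel h2]
      by_cases h4 : M.testBit (j - s) = true
      · rw [if_pos ⟨h2, h4⟩, h4]
        cases x.testBit j <;> cases x.testBit (j - s) <;> simp
      · rw [if_neg (fun h => h4 h.2)]
        rw [Bool.not_eq_true] at h4
        rw [h4]
        cases x.testBit j <;> simp
    · have h3 : decide (j ≥ s) = false := by simpa using h2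
      rw [h3, h1, if_neg (fun h => h2 h.1)]
      cases x.testBit j <;> simp

/-- bit `j` of field `i` -/
theorem testBit_fld {W X i j : ℕ} : (fld W X i).testBit j = (decide (j < W) && X.testBit (W * i + j)) := by
  unfold fld
  rw [Nat.testBit_mod_two_pow, ← Nat.shiftRight_eq_div_pow, Nat.testBit_shiftRight]

/-- bits of a replicated mask -/
theorem testBit_mul_rep {W N M : ℕ} (hW : 0 < W) (hM : M < 2 ^ W) (j : ℕ) :
    (M * rep W N).testBit j = (decide (j < W * N) && M.testBit (j % W)) := by
  rw [mul_rep hW]
  by_cases h : j < W * N
  · have h1 : j / W < N := Nat.div_lt_of_lt_mul h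
    have h2 := fld_pk (W := W) (N := N) (a := fun _ => M) (fun _ _ => hM) h1
    have h3 := congrArg (fun v => Nat.testBit v (j % W)) h2
    simp only [testBit_fld] at h3
    rw [Nat.div_add_mod] at h3
    simpa [Nat.mod_lt j hW, h] using h3
  · have h1 : pk W N (fun _ => M) < 2 ^ (W * N) := pk_lt (fun _ _ => hM)
    have h2 : pk W N (fun _ => M) < 2 ^ j := lt_of_lt_of_le h1 (Nat.pow_le_pow_right (by norm_num) (by omega))
    rw [Nat.testBit_lt_two_pow h2]
    simp [h]

/-- the exchange on all lanes -/
theorem fld_dswap {W N s M X : ℕ} (hM : M <<< s < 2 ^ W)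
    (hd : M &&& (M <<< s) = 0) {i : ℕ} (hi : i < N) :
    fld W (dswap s (M * rep W N) X) i = dswap s M (fld W X i) := by
  have hW : 0 < W ∨ M = 0 := by
    rcases Nat.eq_zero_or_pos W with h | h
    · right
      subst h
      rw [pow_zero, Nat.lt_one_iff, Nat.shiftLeft_eq] at hM
      rcases Nat.mul_eq_zero.1 hM with h | h
      · exact h
      · exact absurd h (Nat.two_pow_pos s).ne'
    · exact Or.inl h
  rcases hW with hW | rfl
  swap
  · have e : ∀ x, dswap s 0 x = x := by
      intro x
      show (x ^^^ (((x >>> s) ^^^ x) &&& 0)) ^^^ ((((x >>> s) ^^^ x) &&& 0) <<< s) = x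
      simp
    rw [Nat.zero_mul, e, e]
  have hMW : ∀ j, M.testBit j = true → j + s < W := by
    intro j hj
    by_contra h
    have h1 : (M <<< s).testBit (j + s) = true := by
      rw [Nat.testBit_shiftLeft]; simp [hj]
    have h2 : (M <<< s) < 2 ^ (j + s) := lt_of_lt_of_le hM (Nat.pow_le_pow_right (by norm_num) (by omega))
    rw [Nat.testBit_lt_two_pow h2] at h1
    exact Bool.noConfusion h1
  have hM' : M < 2 ^ W := by
    by_contra h
    have h1 : M ≤ M <<< s := by
      rw [Nat.shiftLeft_eq]
      exact Nat.le_mul_of_pos_right _ (Nat.two_pow_pos s)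
    omega
  have hdj : ∀ j, M.testBit j = true → M.testBit (j + s) = false := by
    intro j hj
    have h1 := congrArg (fun v => Nat.testBit v (j + s)) hd
    simp only [Nat.testBit_and, Nat.zero_testBit, Nat.testBit_shiftLeft] at h1
    simpa [hj] using h1
  have hD : ∀ j, (M * rep W N).testBit j = true → (M * rep W N).testBit (j + s) = false := by
    intro j hj
    rw [testBit_mul_rep hW hM'] at hj ⊢
    rw [Bool.and_eq_true] at hj
    have h1 := hMW _ hj.2
    have h2 : (j + s) % W = j % W + s := by
      have h3 := Nat.div_add_mod j W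
      have h4 : j + s = (j % W + s) + W * (j / W) := by omega
      rw [h4, Nat.add_mul_mod_self_left, Nat.mod_eq_of_lt h1]
    rw [h2, hdj _ hj.2, Bool.and_false]
  refine Nat.eq_of_testBit_eq fun j => ?_
  rw [testBit_fld, testBit_dswap hD, testBit_dswap hdj]
  by_cases hj : j < W
  · have hb : ∀ k, k < W → (M * rep W N).testBit (W * i + k) = M.testBit k := by
      intro k hk
      rw [testBit_mul_rep hW hM', Nat.mul_add_mod, Nat.mod_eq_of_lt hk]
      have h1 : W * i + k < W * N := by
        calc W * i + k < W * i + W := by omega
          _ = W * (i + 1) := by ring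
          _ ≤ W * N := Nat.mul_le_mul_left _ hi
      simp [h1]
    rw [hb j hj]
    simp only [testBit_fld, hj, decide_true, Bool.true_and]
    by_cases h1 : M.testBit j = true
    · rw [if_pos h1, if_pos h1]
      simp [hMW j h1, Nat.add_assoc]
    · rw [if_neg h1, if_neg h1]
      by_cases h2 : s ≤ j
      · have h3 : W * i + j - s = W * i + (j - s) := by omega
        have h4 : s ≤ W * i + j := by omega
        rw [h3, hb (j - s) (by omega)]
        by_cases h5 : M.testBit (j - s) = true
        · rw [if_pos ⟨h4, h5⟩, if_pos ⟨h2, h5⟩]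
          simp [show j - s < W by omega]
        · rw [if_neg (fun h => h5 h.2), if_neg (fun h => h5 h.2)]
      · rw [if_neg (c := s ≤ j ∧ M.testBit (j - s) = true) (fun h => h2 h.1)]
        rw [if_neg]
        rintro ⟨h4, h5⟩
        rw [testBit_mul_rep hW hM', Bool.and_eq_true] at h5
        have h6 := hMW _ h5.2
        -- the bit lies in the previous lane
        have h7 : 0 < i := by
          by_contra h
          have : i = 0 := by omega
          subst this
          omega
        obtain ⟨i', rfl⟩ : ∃ i', i = i' + 1 := ⟨i - 1, by omega⟩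
        by_cases h8 : s ≤ W + j
        · have h9 : W * (i' + 1) + j - s = W * i' + (W + j - s) := by
            rw [Nat.mul_add, Nat.mul_one]; omega
          rw [h9, Nat.mul_add_mod, Nat.mod_eq_of_lt (by omega)] at h6
          omega
        · have h9 := Nat.mod_lt (W * (i' + 1) + j - s) hW
          omega
  · simp only [hj, decide_false, Bool.false_and]
    have h1 : M.testBit j = false := by
      have h2 : M < 2 ^ j := lt_of_lt_of_le hM' (Nat.pow_le_pow_right (by norm_num) (by omega))
      exact Nat.testBit_lt_two_pow h2
    rw [h1, if_neg (by simp)]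
    split_ifs with h2
    · have h3 := hMW _ h2.2
      omega
    · rw [testBit_fld]
      simp [hj]

end Pool.Agent.Helper91.TY
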