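import Pool.Agent.Helper91.TY.AdjTab

/-!
MP_8ee768_co, project TH-Y': words of adjacent transpositions on packed lists of colex codes.

A word is a number `w` with `len` digits in base 16, digit `i` is `(w >>> (4 i)) land 15`, digit 0 is
applied first. `run4 len w R X` relabels all lanes of `X` (`R = rep W N`), lanes of `W >= 330` bits with
families of 4-subsets of `{0, ..., 10}`; `run5`: `W >= 792`, 5-subsets of `{0, ..., 11}`; `run3`: `W >= 165`,
3-subsets of `{0, ..., 10}`. Everything is written for the kernel: raw recursors, straight-line exchanges.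
-/

set_option autoImplicit false

namespace Pool.Agent.Helper91.TY

open Finset
open Pool.Agent.Helper63.SIMD
open Pool.Agent.Helper97.CV
open Pool.Agent.Helper79.CV
open Pool.Agent.Helper33.CV

/-- one exchange on all lanes -/
def sw (s M R x : ℕ) : ℕ :=
  dswap2 s x (Nat.land (Nat.xor (Nat.shiftRight x s) x) (Nat.mul M R))

theorem sw_eq (s M R x : ℕ) : sw s M R x = dswap s (M * R) x := rfl

/-- a program of exchanges on all lanes -/
def appP (R : ℕ) : List (ℕ × ℕ) → ℕ → ℕ
  | [], x => x
  | p :: l, x => appP R l (sw p.1 p.2 R x)

theorem fld_appP {W N : ℕ} {tb : List (ℕ × ℕ)} (h : tb.all (okEx W) = true) {i : ℕ} (hi : i < N)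
    (X : ℕ) : fld W (appP (rep W N) tb X) i = app tb (fld W X i) := by
  induction tb generalizing X with
  | nil => rfl
  | cons p l ih =>
    rw [List.all_cons, Bool.and_eq_true] at h
    show fld W (appP (rep W N) l (sw p.1 p.2 (rep W N) X)) i = app l (dswap p.1 p.2 (fld W X i))
    rw [ih h.2, sw_eq, fld_dswap (okEx_iff.1 h.1).1 (okEx_iff.1 h.1).2 hi]

theorem okEx_mono {W W' : ℕ} (h : W ≤ W') {tb : List (ℕ × ℕ)} (h1 : tb.all (okEx W) = true) :
    tb.all (okEx W') = true := by
  rw [List.all_eq_true] at h1 ⊢
  intro p hp
  have h2 := okEx_iff.1 (h1 p hp)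
  exact okEx_iff.2 ⟨lt_of_lt_of_le h2.1 (Nat.pow_le_pow_right (by norm_num) h), h2.2⟩

theorem okEx_of_chk {n k a : ℕ} {tb : List (ℕ × ℕ)} (h : chkTb n k a tb = true) :
    tb.all (okEx (n.choose k)) = true := by
  unfold chkTb at h
  rw [Bool.and_eq_true, Bool.and_eq_true] at h
  exact h.2.1

theorem choose_3 : Nat.choose 11 3 = 165 := by norm_num [Nat.choose]

theorem choose_4 : Nat.choose 11 4 = 330 := by norm_num [Nat.choose]

theorem choose_5 : Nat.choose 12 5 = 792 := by norm_num [Nat.choose]

/-! ## words -/

/-- the permutation of a word, the first letter acts first -/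
def wp : List ℕ → Equiv.Perm (Fin 13)
  | [] => 1
  | a :: w => wp w * swp a

/-- running a word on one code -/
def runW (tab : ℕ → List (ℕ × ℕ)) : List ℕ → ℕ → ℕ
  | [], x => x
  | a :: w, x => runW tab w (app (tab a) x)

theorem enc_wp {n k : ℕ} (hn : n ≤ 13) {tab : ℕ → List (ℕ × ℕ)} {w : List ℕ}
    (h : ∀ a ∈ w, chkTb n k a (tab a) = true) (D : Finset (Finset (Fin 13))) :
    enc n k (mapF (wp w) D) = runW tab w (enc n k D) := by
  induction w generalizing D with
  | nil =>
    show enc n k (mapF 1 D) = enc n k D
    rw [mapF_one]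
  | cons a w ih =>
    show enc n k (mapF (wp w * swp a) D) = runW tab w (app (tab a) (enc n k D))
    rw [mapF_mul, ih (fun b hb => h b (List.mem_cons_of_mem _ hb)),
      enc_swp hn (h a List.mem_cons_self)]

theorem wp_append (v w : List ℕ) : wp (v ++ w) = wp w * wp v := by
  induction v with
  | nil => rw [List.nil_append]; exact (mul_one _).symm
  | cons a v ih =>
    show wp (v ++ w) * swp a = wp w * (wp v * swp a)
    rw [ih, mul_assoc]

theorem runW_append (tab : ℕ → List (ℕ × ℕ)) (v w : List ℕ) (x : ℕ) :
    runW tab (v ++ w) x = runW tab w (runW tab v x) := by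
  induction v generalizing x with
  | nil => rfl
  | cons a v ih => exact ih _

/-- a point above all letters is fixed -/
theorem wp_fix {n : ℕ} {w : List ℕ} (h : ∀ a ∈ w, a + 1 < n) {b : Fin 13} (hb : n ≤ b.val) :
    wp w b = b := by
  induction w with
  | nil => rfl
  | cons a w ih =>
    show wp w (swp a b) = b
    have h1 := h a List.mem_cons_self
    rw [swp_fix (by omega) (by omega), ih (fun c hc => h c (List.mem_cons_of_mem _ hc))]

theorem keeps_wp {n : ℕ} {w : List ℕ} (h : ∀ a ∈ w, a + 1 < n) : Keeps n (wp w) := by
  induction w with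
  | nil => exact fun _ hb => hb
  | cons a w ih =>
    intro b hb
    exact ih (fun c hc => h c (List.mem_cons_of_mem _ hc)) _
      (keeps_swp (h a List.mem_cons_self) b hb)

/-- digit `i` of a word -/
def dig (w i : ℕ) : ℕ := Nat.land (Nat.shiftRight w (Nat.mul 4 i)) 15

/-- the digits of a word -/
def digs (w : ℕ) : ℕ → List ℕ
  | 0 => []
  | len + 1 => digs w len ++ [dig w len]

theorem mem_digs {w len a : ℕ} : a ∈ digs w len ↔ ∃ i < len, dig w i = a := by
  induction len with
  | zero => simp [digs]
  | succ len ih =>
    show a ∈ digs w len ++ [dig w len] ↔ _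
    rw [List.mem_append, ih, List.mem_singleton]
    constructor
    · rintro (⟨i, h1, h2⟩ | h)
      · exact ⟨i, by omega, h2⟩
      · exact ⟨len, by omega, h.symm⟩
    · rintro ⟨i, h1, h2⟩
      by_cases h3 : i = len
      · subst h3
        exact Or.inr h2.symm
      · exact Or.inl ⟨i, by omega, h2⟩

def k3_0 (R X : ℕ) : ℕ := (sw (nat_lit 1) (nat_lit 0x101020844a01020844a020844a04225044a128a4) R X)
def k3_1 (R X : ℕ) : ℕ := (sw (nat_lit 1) (nat_lit 0x2020410891020410891041089108448889124512) R X)
def k3_2 (R X : ℕ) : ℕ := (sw (nat_lit 2) (nat_lit 0x6000000006000000600003000601860) R (sw (nat_lit 1) (nat_lit 0x4040821100040821100082110010880110040001) R X))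
def k3_3 (R X : ℕ) : ℕ := (sw (nat_lit 3) (nat_lit 0x3800000003800000380001c00380e00e) R (sw (nat_lit 1) (nat_lit 0x8081042000081042000104200021000200000000) R X))
def k3_4 (R X : ℕ) : ℕ := (sw (nat_lit 6) (nat_lit 0x3f0) R (sw (nat_lit 4) (nat_lit 0x3c00000003c000003c0001e003c000000) R (sw (nat_lit 1) (nat_lit 0x10102080000102080000208000040000000000000) R X)))
def k3_5 (R X : ℕ) : ℕ := (sw (nat_lit 10) (nat_lit 0xffc00) R (sw (nat_lit 5) (nat_lit 0x7c00000007c000007c0003e00000000000) R (sw (nat_lit 1) (nat_lit 0x20204000000204000000400000000000000000000) R X)))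
def k3_6 (R X : ℕ) : ℕ := (sw (nat_lit 15) (nat_lit 0x7fff00000) R (sw (nat_lit 6) (nat_lit 0x1f80000001f800001f800000000000000000) R (sw (nat_lit 1) (nat_lit 0x40400000000400000000000000000000000000000) R X)))
def k3_7 (R X : ℕ) : ℕ := (sw (nat_lit 21) (nat_lit 0xfffff800000000) R (sw (nat_lit 7) (nat_lit 0xfe0000000fe00000000000000000000000000) R (sw (nat_lit 1) (nat_lit 0x80000000000000000000000000000000000000000) R X)))
def k3_8 (R X : ℕ) : ℕ := (sw (nat_lit 28) (nat_lit 0xfffffff00000000000000) R (sw (nat_lit 8) (nat_lit 0xff0000000000000000000000000000000000000) R X))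
def k3_9 (R X : ℕ) : ℕ := (sw (nat_lit 36) (nat_lit 0xfffffffff000000000000000000000) R X)

/-- transposition `a` on all lanes -/
def k3 (R a X : ℕ) : ℕ :=
  bif Nat.ble (nat_lit 5) a then (bif Nat.ble (nat_lit 7) a then (bif Nat.ble (nat_lit 8) a then (bif Nat.ble (nat_lit 9) a then (k3_9 R X) else (k3_8 R X)) else (k3_7 R X)) else (bif Nat.ble (nat_lit 6) a then (k3_6 R X) else (k3_5 R X))) else (bif Nat.ble (nat_lit 2) a then (bif Nat.ble (nat_lit 3) a then (bif Nat.ble (nat_lit 4) a then (k3_4 R X) else (k3_3 R X)) else (k3_2 R X)) else (bif Nat.ble (nat_lit 1) a then (k3_1 R X) else (k3_0 R X)))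

theorem k3_eq (R : ℕ) {a : ℕ} (h : a < 10) (X : ℕ) : k3 R a X = appP R (tab3 a) X := by
  match a, h with
  | 0, _ => rfl
  | 1, _ => rfl
  | 2, _ => rfl
  | 3, _ => rfl
  | 4, _ => rfl
  | 5, _ => rfl
  | 6, _ => rfl
  | 7, _ => rfl
  | 8, _ => rfl
  | 9, _ => rfl
  | a + 10, h => exact absurd h (by omega)

/-- a word on all lanes -/
noncomputable def run3 (len w R X : ℕ) : ℕ :=
  @Nat.rec (fun _ => ℕ) X (fun i ih => k3 R (dig w i) ih) len

theorem fld_run3 {W N : ℕ} (hW : 165 ≤ W) {len w : ℕ} (hw : ∀ a ∈ digs w len, a < 10) (X : ℕ)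
    {i : ℕ} (hi : i < N) :
    fld W (run3 len w (rep W N) X) i = runW tab3 (digs w len) (fld W X i) := by
  induction len with
  | zero => rfl
  | succ len ih =>
    have h1 : dig w len < 10 := hw _ (by
      show dig w len ∈ digs w len ++ [dig w len]
      exact List.mem_append_right _ (List.mem_singleton.2 rfl))
    show fld W (k3 (rep W N) (dig w len) (run3 len w (rep W N) X)) i =
      runW tab3 (digs w len ++ [dig w len]) (fld W X i)
    rw [k3_eq _ h1, fld_appP (okEx_mono (by rw [choose_3]; exact hW) (okEx_of_chk (chk_tab3 _ h1))) hi,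
      runW_append,
      ih (fun a ha => hw a (List.mem_append_left _ ha))]
    rfl

/-- **relabelling of all lanes**: codes of `D i` become codes of the images -/
theorem fld_run3_enc {W N : ℕ} (hW : 165 ≤ W) {len w : ℕ} (hw : ∀ a ∈ digs w len, a < 10) (X : ℕ)
    {i : ℕ} (hi : i < N) {D : Finset (Finset (Fin 13))} (hD : fld W X i = enc 11 3 D) :
    fld W (run3 len w (rep W N) X) i = enc 11 3 (mapF (wp (digs w len)) D) := by
  rw [fld_run3 hW hw X hi, hD, enc_wp (by norm_num) (tab := tab3) (fun a ha => chk_tab3 a (hw a ha))]

def k4_0 (R X : ℕ) : ℕ := (sw (nat_lit 1) (nat_lit 0x4082112808211281089411284a29008211281089411284a2901089411284a29022509452094521488) R X)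
def k4_1 (R X : ℕ) : ℕ := (sw (nat_lit 1) (nat_lit 0x810422441042244211222244914481042244211222244914482112222449144844892289122892244) R X)
def k4_2 (R X : ℕ) : ℕ := (sw (nat_lit 2) (nat_lit 0x1800000180000c00180618000000180000c0018061800000c00180618000300c3000c300c00) R (sw (nat_lit 1) (nat_lit 0x1020844002084400422004401000042084400422004401000044220044010000488020000a00008022) R X))
def k4_3 (R X : ℕ) : ℕ := (sw (nat_lit 3) (nat_lit 0xe000000e00007000e03803800000e00007000e0380380007000e03803801c070070700701c0) R (sw (nat_lit 1) (nat_lit 0x2041080004108000840008000000004108000840008000000008400080000000100000000000000001) R X))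
def k4_4 (R X : ℕ) : ℕ := (sw (nat_lit 6) (nat_lit 0xfc0000000000000000000fc000000000000fc0000001f8001f80000) R (sw (nat_lit 4) (nat_lit 0xf000000f00007800f00000000000f00007800f0000000007800f00000001e00000000000001e) R (sw (nat_lit 1) (nat_lit 0x4082000008200001000000000000008200001000000000000010000000000000000000000000000000) R X)))
def k4_5 (R X : ℕ) : ℕ := (sw (nat_lit 10) (nat_lit 0x3ff0000000000000000003ff000000000003ff0000007fe00000007fe0) R (sw (nat_lit 5) (nat_lit 0x1f000001f0000f800000000000001f0000f8000000000000f80000000000000000000000000000) R (sw (nat_lit 1) (nat_lit 0x8100000010000000000000000000010000000000000000000000000000000000000000000000000000) R X)))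
def k4_6 (R X : ℕ) : ℕ := (sw (nat_lit 20) (nat_lit 0x7ffff8000) R (sw (nat_lit 15) (nat_lit 0x1fffc00000000000000001fffc0000000001fffc0000000000000000000000) R (sw (nat_lit 6) (nat_lit 0x7e000007e00000000000000000007e0000000000000000000000000000000000000000000000000) R (sw (nat_lit 1) (nat_lit 0x10000000000000000000000000000000000000000000000000000000000000000000000000000000000) R X))))
def k4_7 (R X : ℕ) : ℕ := (sw (nat_lit 35) (nat_lit 0x3ffffffff800000000) R (sw (nat_lit 21) (nat_lit 0x3ffffe0000000000000003ffffe0000000000000000000000000000000000000000) R (sw (nat_lit 7) (nat_lit 0x3f8000000000000000000000000000000000000000000000000000000000000000000000000000000) R X)))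
def k4_8 (R X : ℕ) : ℕ := (sw (nat_lit 56) (nat_lit 0x3fffffffffffffc00000000000000000) R (sw (nat_lit 28) (nat_lit 0x3ffffffc000000000000000000000000000000000000000000000000000000000000000000) R X))
def k4_9 (R X : ℕ) : ℕ := (sw (nat_lit 84) (nat_lit 0x3ffffffffffffffffffffc0000000000000000000000000000000) R X)

/-- transposition `a` on all lanes -/
def k4 (R a X : ℕ) : ℕ :=
  bif Nat.ble (nat_lit 5) a then (bif Nat.ble (nat_lit 7) a then (bif Nat.ble (nat_lit 8) a then (bif Nat.ble (nat_lit 9) a then (k4_9 R X) else (k4_8 R X)) else (k4_7 R X)) else (bif Nat.ble (nat_lit 6) a then (k4_6 R X) else (k4_5 R X))) else (bif Nat.ble (nat_lit 2) a then (bif Nat.ble (nat_lit 3) a then (bif Nat.ble (nat_lit 4) a then (k4_4 R X) else (k4_3 R X)) else (k4_2 R X)) else (bif Nat.ble (nat_lit 1) a then (k4_1 R X) else (k4_0 R X)))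

theorem k4_eq (R : ℕ) {a : ℕ} (h : a < 10) (X : ℕ) : k4 R a X = appP R (tab4 a) X := by
  match a, h with
  | 0, _ => rfl
  | 1, _ => rfl
  | 2, _ => rfl
  | 3, _ => rfl
  | 4, _ => rfl
  | 5, _ => rfl
  | 6, _ => rfl
  | 7, _ => rfl
  | 8, _ => rfl
  | 9, _ => rfl
  | a + 10, h => exact absurd h (by omega)

/-- a word on all lanes -/
noncomputable def run4 (len w R X : ℕ) : ℕ :=
  @Nat.rec (fun _ => ℕ) X (fun i ih => k4 R (dig w i) ih) len

theorem fld_run4 {W N : ℕ} (hW : 330 ≤ W) {len w : ℕ} (hw : ∀ a ∈ digs w len, a < 10) (X : ℕ)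
    {i : ℕ} (hi : i < N) :
    fld W (run4 len w (rep W N) X) i = runW tab4 (digs w len) (fld W X i) := by
  induction len with
  | zero => rfl
  | succ len ih =>
    have h1 : dig w len < 10 := hw _ (by
      show dig w len ∈ digs w len ++ [dig w len]
      exact List.mem_append_right _ (List.mem_singleton.2 rfl))
    show fld W (k4 (rep W N) (dig w len) (run4 len w (rep W N) X)) i =
      runW tab4 (digs w len ++ [dig w len]) (fld W X i)
    rw [k4_eq _ h1, fld_appP (okEx_mono (by rw [choose_4]; exact hW) (okEx_of_chk (chk_tab4 _ h1))) hi,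
      runW_append,
      ih (fun a ha => hw a (List.mem_append_left _ ha))]
    rfl

/-- **relabelling of all lanes**: codes of `D i` become codes of the images -/
theorem fld_run4_enc {W N : ℕ} (hW : 330 ≤ W) {len w : ℕ} (hw : ∀ a ∈ digs w len, a < 10) (X : ℕ)
    {i : ℕ} (hi : i < N) {D : Finset (Finset (Fin 13))} (hD : fld W X i = enc 11 4 D) :
    fld W (run4 len w (rep W N) X) i = enc 11 4 (mapF (wp (digs w len)) D) := by
  rw [fld_run4 hW hw X hi, hD, enc_wp (by norm_num) (tab := tab4) (fun a ha => chk_tab4 a (hw a ha))]

def k5_0 (R X : ℕ) : ℕ := (sw (nat_lit 1) (nat_lit 0x1020844a020844a04225044a128a4020844a04225044a128a404225044a128a408942514825148522008211281089411284a2901089411284a2902250945209452148804225044a128a408942514825148522022509452094521488128a4291052210) R X)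
def k5_1 (R X : ℕ) : ℕ := (sw (nat_lit 1) (nat_lit 0x2041089104108910844888912451204108910844888912451208448889124512112248a2448a248910104224421122224491448211222244914484489228912289224408448889124512112248a2448a2489104489228912289224424512448889108) R X)
def k5_2 (R X : ℕ) : ℕ := (sw (nat_lit 2) (nat_lit 0x600000060000300060186000000060000300060186000003000601860000c030c0030c0300000000180000c0018061800000c00180618000300c3000c300c0000003000601860000c030c0030c0300000300c3000c300c0001860180030000) R (sw (nat_lit 1) (nat_lit 0x40821100082110010880110040001082110010880110040001108801100400012200800028000200882084400422004401000044220044010000488020000a000080221088011004000122008000280002008888020000a0000802240001004400884) R X))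
def k5_3 (R X : ℕ) : ℕ := (sw (nat_lit 3) (nat_lit 0x3800000380001c00380e00e00000380001c00380e00e0001c00380e00e00701c01c1c01c070000000e00007000e0380380007000e03803801c070070700701c00001c00380e00e00701c01c1c01c070001c070070700701c00e00e038007000) R (sw (nat_lit 1) (nat_lit 0x81042000104200021000200000000104200021000200000000210002000000004000000000000000044108000840008000000008400080000000100000000000000001210002000000004000000000000000050000000000000000100000000200042) R X))
def k5_4 (R X : ℕ) : ℕ := (sw (nat_lit 6) (nat_lit 0x3f00000000000000000003f0000000000003f00000007e0007e00000000000000000000000fc000000000000fc0000001f8001f80000000000000003f00000007e0007e00000000001f8001f80000003f0000000000) R (sw (nat_lit 4) (nat_lit 0x3c000003c0001e003c00000000003c0001e003c000000001e003c0000000780000000000000780000f00007800f0000000007800f00000001e00000000000001e001e003c0000000780000000000000781e00000000000001e00000003c00780) R (sw (nat_lit 1) (nat_lit 0x102080000208000040000000000000208000040000000000000400000000000000000000000000000008200001000000000000010000000000000000000000000000000400000000000000000000000000000000000000000000000000000000000001)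 R X)))
def k5_5 (R X : ℕ) : ℕ := (sw (nat_lit 10) (nat_lit 0xffc000000000000000000ffc00000000000ffc000001ff80000001ff800000000000000003ff000000000003ff0000007fe00000007fe0000000000ffc000001ff80000001ff800007fe00000007fe000000ffc000000) R (sw (nat_lit 5) (nat_lit 0x7c000007c0003e000000000000007c0003e0000000000003e00000000000000000000000000000001f0000f8000000000000f8000000000000000000000000000003e00000000000000000000000000000000000000000000000000000000003e) R (sw (nat_lit 1) (nat_lit 0x204000000400000000000000000000400000000000000000000000000000000000000000000000000010000000000000000000000000000000000000000000000000000000000000000000000000000000000000000000000000000000000000000000) R X)))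
def k5_6 (R X : ℕ) : ℕ := (sw (nat_lit 20) (nat_lit 0x1ffffe000000000000000000000000000000000000000000000007ffff800000000000000000000000001ffffe0000000000007ffff800000000000000000) R (sw (nat_lit 15) (nat_lit 0x7fff000000000000000007fff00000000007fff00000000000000000000000000000000001fffc0000000001fffc0000000000000000000000000007fff0000000000000000000000000000000000000000000000001fffc0) R (sw (nat_lit 6) (nat_lit 0x1f800001f80000000000000000001f8000000000000000000000000000000000000000000000000007e0000000000000000000000000000000000000000000000000000000000000000000000000000000000000000000000000000000000000000) R (sw (nat_lit 1) (nat_lit 0x400000000000000000000000000000000000000000000000000000000000000000000000000000000000000000000000000000000000000000000000000000000000000000000000000000000000000000000000000000000000000000000000000000) R X))))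
def k5_7 (R X : ℕ) : ℕ := (sw (nat_lit 35) (nat_lit 0xffffffffe00000000000000000000000000000000000000000003ffffffff80000000000000000000000ffffffffe00000000000000000000000000ffffffffe00000) R (sw (nat_lit 21) (nat_lit 0xfffff8000000000000000fffff800000000000000000000000000000000000000000000003ffffe0000000000000000000000000000000000000000000000000000000000000000000000000000000000000000000000000000000) R (sw (nat_lit 7) (nat_lit 0xfe00000000000000000000000000000000000000000000000000000000000000000000000000000000000000000000000000000000000000000000000000000000000000000000000000000000000000000000000000000000000000000000000000) R X)))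
def k5_8 (R X : ℕ) : ℕ := (sw (nat_lit 70) (nat_lit 0x3fffffffffffffffff00000000000000) R (sw (nat_lit 56) (nat_lit 0xffffffffffffff000000000000000000000000000000000000003fffffffffffffc00000000000000000000000000000000000000000000000000000000000000000000000000000000) R (sw (nat_lit 28) (nat_lit 0xfffffff00000000000000000000000000000000000000000000000000000000000000000000000000000000000000000000000000000000000000000000000000000000000000000000000000000000000000000000000000000000000000) R X)))
def k5_9 (R X : ℕ) : ℕ := (sw (nat_lit 126) (nat_lit 0xfffffffffffffffffffffffffffffffc0000000000000000000000000000000) R (sw (nat_lit 84) (nat_lit 0xfffffffffffffffffffff000000000000000000000000000000000000000000000000000000000000000000000000000000000000000000000000000000000000000000000000000000000000000000000000000) R X))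
def k5_10 (R X : ℕ) : ℕ := (sw (nat_lit 210) (nat_lit 0x3ffffffffffffffffffffffffffffffffffffffffffffffffffff000000000000000000000000000000000000000000000000000000000000000) R X)

/-- transposition `a` on all lanes -/
def k5 (R a X : ℕ) : ℕ :=
  bif Nat.ble (nat_lit 5) a then (bif Nat.ble (nat_lit 8) a then (bif Nat.ble (nat_lit 9) a then (bif Nat.ble (nat_lit 10) a then (k5_10 R X) else (k5_9 R X)) else (k5_8 R X)) else (bif Nat.ble (nat_lit 6) a then (bif Nat.ble (nat_lit 7) a then (k5_7 R X) else (k5_6 R X)) else (k5_5 R X))) else (bif Nat.ble (nat_lit 2) a then (bif Nat.ble (nat_lit 3) a then (bif Nat.ble (nat_lit 4) a then (k5_4 R X) else (k5_3 R X)) else (k5_2 R X)) else (bif Nat.ble (nat_lit 1) a then (k5_1 R X) else (k5_0 R X)))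

theorem k5_eq (R : ℕ) {a : ℕ} (h : a < 11) (X : ℕ) : k5 R a X = appP R (tab5 a) X := by
  match a, h with
  | 0, _ => rfl
  | 1, _ => rfl
  | 2, _ => rfl
  | 3, _ => rfl
  | 4, _ => rfl
  | 5, _ => rfl
  | 6, _ => rfl
  | 7, _ => rfl
  | 8, _ => rfl
  | 9, _ => rfl
  | 10, _ => rfl
  | a + 11, h => exact absurd h (by omega)

/-- a word on all lanes -/
noncomputable def run5 (len w R X : ℕ) : ℕ :=
  @Nat.rec (fun _ => ℕ) X (fun i ih => k5 R (dig w i) ih) len

theorem fld_run5 {W N : ℕ} (hW : 792 ≤ W) {len w : ℕ} (hw : ∀ a ∈ digs w len, a < 11) (X : ℕ)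
    {i : ℕ} (hi : i < N) :
    fld W (run5 len w (rep W N) X) i = runW tab5 (digs w len) (fld W X i) := by
  induction len with
  | zero => rfl
  | succ len ih =>
    have h1 : dig w len < 11 := hw _ (by
      show dig w len ∈ digs w len ++ [dig w len]
      exact List.mem_append_right _ (List.mem_singleton.2 rfl))
    show fld W (k5 (rep W N) (dig w len) (run5 len w (rep W N) X)) i =
      runW tab5 (digs w len ++ [dig w len]) (fld W X i)
    rw [k5_eq _ h1, fld_appP (okEx_mono (by rw [choose_5]; exact hW) (okEx_of_chk (chk_tab5 _ h1))) hi,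
      runW_append,
      ih (fun a ha => hw a (List.mem_append_left _ ha))]
    rfl

/-- **relabelling of all lanes**: codes of `D i` become codes of the images -/
theorem fld_run5_enc {W N : ℕ} (hW : 792 ≤ W) {len w : ℕ} (hw : ∀ a ∈ digs w len, a < 11) (X : ℕ)
    {i : ℕ} (hi : i < N) {D : Finset (Finset (Fin 13))} (hD : fld W X i = enc 12 5 D) :
    fld W (run5 len w (rep W N) X) i = enc 12 5 (mapF (wp (digs w len)) D) := by
  rw [fld_run5 hW hw X hi, hD, enc_wp (by norm_num) (tab := tab5) (fun a ha => chk_tab5 a (hw a ha))]

end Pool.Agent.Helper91.TY
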