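import Pool.Agent.Helper91.TY.Swap
import Pool.Agent.Helper79.CV.Colex

/-!
MP_8ee768_co, project TH-Y': exchange of two points in cube codes, on all lanes at once.

A cube code has bit `m` iff the set with mask `m` belongs to the family. A packed list of `N` lanes of
`2 ^ n` bits is again indexed by bits: lane number times `2 ^ n` plus mask. `ib K i` is the number with
the bits `g < K` such that bit `i` of `g` is set.
-/

set_option autoImplicit false

namespace Pool.Agent.Helper91.TY

open Finset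
open Pool.Agent.Helper63.SIMD
open Pool.Agent.Helper89.CV (ofMask)
open Pool.Agent.Helper79.CV

/-- the bits `g < K` with `g.testBit i` (if `2 ^ (i + 1)` divides `K`) -/
def ib (K i : ℕ) : ℕ := 2 ^ 2 ^ i * (2 ^ 2 ^ i - 1) * rep (2 ^ (i + 1)) (K / 2 ^ (i + 1))

theorem testBit_eq_mod (g i : ℕ) : g.testBit i = decide (2 ^ i ≤ g % 2 ^ (i + 1)) := by
  have h1 : (g % 2 ^ (i + 1)).testBit i = g.testBit i := by
    rw [Nat.testBit_mod_two_pow]; simp
  rw [← h1]
  have h2 : g % 2 ^ (i + 1) < 2 ^ (i + 1) := Nat.mod_lt _ (Nat.two_pow_pos _)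
  by_cases h : 2 ^ i ≤ g % 2 ^ (i + 1)
  · rw [decide_eq_true h]
    rw [Nat.testBit_eq_decide_div_mod_eq, decide_eq_true_eq]
    have h3 : g % 2 ^ (i + 1) / 2 ^ i = 1 := by
      refine Nat.div_eq_of_lt_le (by omega) ?_
      rw [pow_succ] at h2
      omega
    rw [h3]
  · rw [decide_eq_false h]
    exact Nat.testBit_lt_two_pow (by omega)

theorem add_two_pow_eq_xor {x b : ℕ} (h : x.testBit b = false) : x + 2 ^ b = x ^^^ 2 ^ b := by
  have h1 : x % 2 ^ (b + 1) < 2 ^ b := by
    rw [testBit_eq_mod, decide_eq_false_iff_not] at h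
    omega
  have hx := Nat.div_add_mod x (2 ^ (b + 1))
  have hr : x % 2 ^ (b + 1) < 2 ^ (b + 1) := Nat.mod_lt _ (Nat.two_pow_pos _)
  have hr2 : 2 ^ b + x % 2 ^ (b + 1) < 2 ^ (b + 1) := by
    have : 2 ^ (b + 1) = 2 ^ b + 2 ^ b := by rw [pow_succ]; ring
    omega
  have e1 : x + 2 ^ b = 2 ^ (b + 1) * (x / 2 ^ (b + 1)) + (2 ^ b + x % 2 ^ (b + 1)) := by omega
  refine Nat.eq_of_testBit_eq fun k => ?_
  rw [e1, Nat.testBit_two_pow_mul_add _ hr2, Nat.testBit_xor]
  have e2 : x.testBit k = if k < b + 1 then (x % 2 ^ (b + 1)).testBit k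
      else (x / 2 ^ (b + 1)).testBit (k - (b + 1)) := by
    conv_lhs => rw [← hx]
    exact Nat.testBit_two_pow_mul_add _ hr _
  rw [e2]
  by_cases hk : k < b + 1
  · rw [if_pos hk, if_pos hk]
    by_cases hkb : k = b
    · subst hkb
      rw [Nat.testBit_two_pow_add_eq, Nat.testBit_two_pow_self, Bool.xor_true]
    · rw [Nat.testBit_two_pow_add_gt (by omega), Nat.testBit_two_pow_of_ne (by omega),
        Bool.xor_false]
  · rw [if_neg hk, if_neg hk, Nat.testBit_two_pow_of_ne (by omega), Bool.xor_false]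

theorem testBit_ib {K i : ℕ} (h : 2 ^ (i + 1) ∣ K) (g : ℕ) :
    (ib K i).testBit g = (decide (g < K) && g.testBit i) := by
  unfold ib
  have hp := Nat.two_pow_pos (i + 1)
  have hq := Nat.two_pow_pos (2 ^ i)
  have e : 2 ^ 2 ^ (i + 1) = 2 ^ 2 ^ i * 2 ^ 2 ^ i := by
    rw [← pow_add, pow_succ]
    ring_nf
  have hM : 2 ^ 2 ^ i * (2 ^ 2 ^ i - 1) < 2 ^ 2 ^ (i + 1) := by
    rw [e]
    exact Nat.mul_lt_mul_of_pos_left (by omega) hq
  rw [testBit_mul_rep hp hM, Nat.mul_div_cancel' h, testBit_eq_mod g i]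
  congr 1
  have h1 : g % 2 ^ (i + 1) < 2 ^ i + 2 ^ i := by
    have := Nat.mod_lt g hp
    rw [pow_succ] at this ⊢
    omega
  rw [Nat.mul_comm, Nat.testBit_mul_two_pow, Nat.testBit_two_pow_sub_one]
  by_cases h2 : 2 ^ i ≤ g % 2 ^ (i + 1)
  · have h3 : g % 2 ^ (i + 1) - 2 ^ i < 2 ^ i := by omega
    simp [h2, h3]
  · simp [h2]

theorem ib_lt {K i : ℕ} (h : 2 ^ (i + 1) ∣ K) : ib K i < 2 ^ K := by
  refine Nat.lt_pow_two_of_testBit _ fun g hg => ?_
  rw [testBit_ib h]
  simp [Nat.not_lt.2 hg]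

/-- exchange of the points `i < j`; `Bi = ib K i`, `Bj = ib K j` -/
def cswap (i j Bi Bj X : ℕ) : ℕ :=
  dswap (Nat.sub (Nat.pow 2 j) (Nat.pow 2 i)) (Nat.land Bi (Nat.xor Bi Bj)) X

/-- exchange of the bits `i` and `j` of an index -/
def sidx (i j g : ℕ) : ℕ :=
  if g.testBit i = g.testBit j then g else g ^^^ (2 ^ i ^^^ 2 ^ j)

theorem sidx_testBit (i j g k : ℕ) :
    (sidx i j g).testBit k =
      if k = i then g.testBit j else if k = j then g.testBit i else g.testBit k := by
  unfold sidx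
  by_cases h1 : g.testBit i = g.testBit j
  · rw [if_pos h1]
    by_cases h2 : k = i
    · rw [if_pos h2, h2, h1]
    · rw [if_neg h2]
      by_cases h3 : k = j
      · rw [if_pos h3, h3, h1]
      · rw [if_neg h3]
  · rw [if_neg h1, Nat.testBit_xor, Nat.testBit_xor]
    have hij : i ≠ j := fun e => h1 (by rw [e])
    by_cases h2 : k = i
    · rw [if_pos h2, h2, Nat.testBit_two_pow_self, Nat.testBit_two_pow_of_ne hij.symm]
      revert h1
      cases g.testBit i <;> cases g.testBit j <;> simp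
    · rw [if_neg h2, Nat.testBit_two_pow_of_ne (fun e => h2 e.symm)]
      by_cases h3 : k = j
      · rw [if_pos h3, h3, Nat.testBit_two_pow_self]
        revert h1
        cases g.testBit i <;> cases g.testBit j <;> simp
      · rw [if_neg h3, Nat.testBit_two_pow_of_ne (fun e => h3 e.symm)]
        simp

theorem sidx_sidx (i j g : ℕ) : sidx i j (sidx i j g) = g := by
  refine Nat.eq_of_testBit_eq fun k => ?_
  rw [sidx_testBit]
  by_cases hk : k = i
  · rw [if_pos hk, sidx_testBit]
    by_cases hji : j = i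
    · rw [if_pos hji, hk, hji]
    · rw [if_neg hji, if_pos rfl, hk]
  · rw [if_neg hk]
    by_cases hkj : k = j
    · rw [if_pos hkj, sidx_testBit, if_pos rfl, hkj]
    · rw [if_neg hkj, sidx_testBit, if_neg hk, if_neg hkj]

theorem sidx_add {i j g : ℕ} (hij : i < j) (h1 : g.testBit i = true) (h2 : g.testBit j = false) :
    g + (2 ^ j - 2 ^ i) = sidx i j g := by
  have hp : 2 ^ i ≤ 2 ^ j := Nat.pow_le_pow_right (by norm_num) hij.le
  have e1 : g = (g ^^^ 2 ^ i) + 2 ^ i := by
    have h3 : (g ^^^ 2 ^ i).testBit i = false := by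
      rw [Nat.testBit_xor, Nat.testBit_two_pow_self, h1]
      rfl
    rw [add_two_pow_eq_xor h3, Nat.xor_assoc, Nat.xor_self, Nat.xor_zero]
  have e2 : sidx i j g = (g ^^^ 2 ^ i) + 2 ^ j := by
    have h3 : (g ^^^ 2 ^ i).testBit j = false := by
      rw [Nat.testBit_xor, Nat.testBit_two_pow_of_ne hij.ne, h2]
      rfl
    rw [add_two_pow_eq_xor h3, Nat.xor_assoc]
    unfold sidx
    rw [if_neg (by rw [h1, h2]; exact Bool.noConfusion)]
  rw [e2]
  omega

theorem testBit_cswap {K i j : ℕ} (hij : i < j) (hK : 2 ^ (j + 1) ∣ K) (X g : ℕ) (hg : g < K) :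
    (cswap i j (ib K i) (ib K j) X).testBit g = X.testBit (sidx i j g) := by
  have hKi : 2 ^ (i + 1) ∣ K := dvd_trans (pow_dvd_pow 2 (by omega)) hK
  have hp : 2 ^ i < 2 ^ j := Nat.pow_lt_pow_right (by norm_num) hij
  -- the mask
  have hM : ∀ t, (Nat.land (ib K i) (Nat.xor (ib K i) (ib K j))).testBit t =
      (decide (t < K) && (t.testBit i && !t.testBit j)) := by
    intro t
    have e : Nat.land (ib K i) (Nat.xor (ib K i) (ib K j)) =
      (ib K i) &&& ((ib K i) ^^^ (ib K j)) := rfl
    rw [e, Nat.testBit_and, Nat.testBit_xor, testBit_ib hKi, testBit_ib hK]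
    cases decide (t < K) <;> cases t.testBit i <;> cases t.testBit j <;> rfl
  have hs : ∀ t, t.testBit i = true → t.testBit j = false →
      (t + (2 ^ j - 2 ^ i)).testBit i = false ∧ (t + (2 ^ j - 2 ^ i)).testBit j = true := by
    intro t h1 h2
    rw [sidx_add hij h1 h2, sidx_testBit, sidx_testBit, if_pos rfl, h2,
      if_neg (by omega : j ≠ i), if_pos rfl, h1]
    exact ⟨rfl, rfl⟩
  unfold cswap
  have hsub : Nat.sub (Nat.pow 2 j) (Nat.pow 2 i) = 2 ^ j - 2 ^ i := rfl
  rw [hsub, testBit_dswap]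
  · by_cases h1 : g.testBit i = true
    · by_cases h2 : g.testBit j = true
      · -- both bits set
        rw [hM, h2]
        have e : sidx i j g = g := by
          unfold sidx; rw [if_pos (by rw [h1, h2])]
        rw [e]
        simp only [Bool.not_true, Bool.and_false, Bool.false_eq_true, if_false]
        rw [if_neg]
        rintro ⟨h3, h4⟩
        rw [hM, Bool.and_eq_true, Bool.and_eq_true, Bool.not_eq_true'] at h4
        have h5 := (hs _ h4.2.1 h4.2.2).1
        rw [Nat.sub_add_cancel h3, h1] at h5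
        exact Bool.noConfusion h5
      · rw [Bool.not_eq_true] at h2
        rw [hM, h1, h2, decide_eq_true hg, sidx_add hij h1 h2]
        rfl
    · rw [Bool.not_eq_true] at h1
      rw [hM g, h1]
      simp only [Bool.false_and, Bool.and_false, Bool.false_eq_true, if_false]
      by_cases h2 : g.testBit j = true
      · -- bit i clear, bit j set
        have h3 : (sidx i j g).testBit i = true ∧ (sidx i j g).testBit j = false := by
          rw [sidx_testBit, sidx_testBit, if_pos rfl, h2, if_neg (by omega : j ≠ i), if_pos rfl, h1]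
          exact ⟨rfl, rfl⟩
        have h4 : sidx i j (sidx i j g) = g := sidx_sidx i j g
        have h5 := sidx_add hij h3.1 h3.2
        rw [h4] at h5
        have h6 : g - (2 ^ j - 2 ^ i) = sidx i j g := by omega
        rw [h6, if_pos]
        refine ⟨by omega, ?_⟩
        rw [hM, h3.1, h3.2, decide_eq_true (by omega : sidx i j g < K)]
        rfl
      · rw [Bool.not_eq_true] at h2
        have e : sidx i j g = g := by
          unfold sidx; rw [if_pos (by rw [h1, h2])]
        rw [e, if_neg]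
        rintro ⟨h3, h4⟩
        rw [hM, Bool.and_eq_true, Bool.and_eq_true, Bool.not_eq_true'] at h4
        have h5 := (hs _ h4.2.1 h4.2.2).2
        rw [Nat.sub_add_cancel h3, h2] at h5
        exact Bool.noConfusion h5
  · intro t ht
    rw [hM, Bool.and_eq_true, Bool.and_eq_true, Bool.not_eq_true'] at ht
    rw [hM, (hs t ht.2.1 ht.2.2).1]
    simp

theorem sidx_lt {i j n g : ℕ} (hi : i < n) (hj : j < n) (hg : g < 2 ^ n) : sidx i j g < 2 ^ n := by
  refine Nat.lt_pow_two_of_testBit _ fun k hk => ?_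
  rw [sidx_testBit, if_neg (by omega), if_neg (by omega)]
  exact Nat.testBit_lt_two_pow (lt_of_lt_of_le hg (Nat.pow_le_pow_right (by norm_num) hk))

theorem sidx_lane {i j n l m : ℕ} (hi : i < n) (hj : j < n) (hm : m < 2 ^ n) :
    sidx i j (2 ^ n * l + m) = 2 ^ n * l + sidx i j m := by
  refine Nat.eq_of_testBit_eq fun k => ?_
  rw [sidx_testBit, Nat.testBit_two_pow_mul_add _ hm, Nat.testBit_two_pow_mul_add _ hm,
    Nat.testBit_two_pow_mul_add _ hm, Nat.testBit_two_pow_mul_add _ (sidx_lt hi hj hm), if_pos hi,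
    if_pos hj, sidx_testBit]
  by_cases hk : k < n
  · rw [if_pos hk, if_pos hk]
  · rw [if_neg hk, if_neg hk, if_neg (by omega), if_neg (by omega)]

/-- **the exchange of two points on every lane of a packed list of cube codes** -/
theorem fld_cswap {n N i j l m : ℕ} (hij : i < j) (hj : j < n) (X : ℕ) (hl : l < N)
    (hm : m < 2 ^ n) :
    (fld (2 ^ n) (cswap i j (ib (2 ^ n * N) i) (ib (2 ^ n * N) j) X) l).testBit m =
      (fld (2 ^ n) X l).testBit (sidx i j m) := by
  have h1 : 2 ^ n * l + m < 2 ^ n * N := by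
    calc 2 ^ n * l + m < 2 ^ n * l + 2 ^ n := by omega
      _ = 2 ^ n * (l + 1) := by ring
      _ ≤ 2 ^ n * N := Nat.mul_le_mul_left _ hl
  have h2 : 2 ^ (j + 1) ∣ 2 ^ n * N := dvd_mul_of_dvd_left (pow_dvd_pow 2 (by omega)) _
  rw [testBit_fld, testBit_fld, testBit_cswap hij h2 X _ h1, sidx_lane (by omega) hj hm,
    decide_eq_true hm, decide_eq_true (sidx_lt (by omega) hj hm)]

theorem mk_mapS_swap (i j : Fin 13) (s : Finset (Fin 13)) :
    mk (mapS (Equiv.swap i j) s) = sidx i.val j.val (mk s) := by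
  refine Nat.eq_of_testBit_eq fun k => ?_
  rw [sidx_testBit]
  by_cases hk : k < 13
  · have e : ∀ t : Fin 13, (mk s).testBit t.val = decide (t ∈ s) := testBit_mk s
    have e' := testBit_mk (mapS (Equiv.swap i j) s) ⟨k, hk⟩
    simp only at e'
    rw [e']
    have h1 : (⟨k, hk⟩ ∈ mapS (Equiv.swap i j) s) ↔ Equiv.swap i j ⟨k, hk⟩ ∈ s := by
      rw [mem_mapS', Equiv.symm_swap]
    by_cases h2 : k = i.val
    · rw [if_pos h2, e, decide_eq_decide, h1]
      have : (⟨k, hk⟩ : Fin 13) = i := Fin.ext h2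
      rw [this, Equiv.swap_apply_left]
    · rw [if_neg h2]
      by_cases h3 : k = j.val
      · rw [if_pos h3, e, decide_eq_decide, h1]
        have : (⟨k, hk⟩ : Fin 13) = j := Fin.ext h3
        rw [this, Equiv.swap_apply_right]
      · rw [if_neg h3]
        have e'' := e ⟨k, hk⟩
        simp only at e''
        rw [e'', decide_eq_decide, h1, Equiv.swap_apply_of_ne_of_ne]
        · exact fun h => h2 (congrArg Fin.val h)
        · exact fun h => h3 (congrArg Fin.val h)
  · have h1 := i.isLt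
    have h2 := j.isLt
    rw [testBit_mk_ge _ (by omega), if_neg (by omega), if_neg (by omega),
      testBit_mk_ge _ (by omega)]

/-- the same in terms of sets: the lane after the exchange is the image of the lane before -/
theorem fld_cswap_mk {n N l : ℕ} {i j : Fin 13} (hij : i.val < j.val) (hj : j.val < n) (X : ℕ)
    (hl : l < N) {s : Finset (Fin 13)} (hs : mk s < 2 ^ n) :
    (fld (2 ^ n) (cswap i.val j.val (ib (2 ^ n * N) i.val) (ib (2 ^ n * N) j.val) X) l).testBit
      (mk s) = (fld (2 ^ n) X l).testBit (mk (mapS (Equiv.swap i j) s)) := by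
  rw [fld_cswap hij hj X hl hs, mk_mapS_swap]

end Pool.Agent.Helper91.TY
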