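import Pool.Agent.Helper39.TY.Lane
import Pool.Agent.Helper52.TY.ExpandT
import Pool.Agent.Helper91.TY.Hits

/-!
MP_8ee768_co, project TH-Y', star engine, piece (f): lists of chunks.

A list of chunks is a list of numbers, each with `N` lanes of 2048 bits (cube codes). All functions are raw
recursions; the chunks of the result are closed terms, the kernel evaluates each of them once.

* `InL N L F` (helper39): some lane of some chunk of `L` is the cube code of `F`;
* `InN N n L F`: the same with number of the lane `< n` in the whole list;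
* `expL`: dense chunks (64 lanes of 512 bits) to cube chunks, `inN_expL`;
* `relab K ws cs`: the union of the relabelled lists over the words `ws`, `InL.relab`, `InN.relab1`;
* `pairL`: two chunks of 64 lanes glued to one of 128 lanes, `inN_pairL`;
* `padR N n L`: the lanes with number `≥ n` become junk (all ones), `InN.padR`; absent lanes of columns are 0.
-/

set_option autoImplicit false

namespace Pool.Agent.Helper91.TY

open Finset
open Pool.Agent.Helper63.SIMD
open Pool.Agent.Helper79.CV
open Pool.Agent.Helper33.CV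
open Pool.Agent.Helper39.TY (InL)

/-- the number of the lane counted through the list is smaller than `n` -/
def InN (N n : ℕ) (L : List ℕ) (F : Fam) : Prop :=
  ∃ k X i, L[k]? = some X ∧ i < N ∧ N * k + i < n ∧ fld 2048 X i = cub 11 F

theorem InN.inL {N n : ℕ} {L : List ℕ} {F : Fam} (h : InN N n L F) : InL N L F := by
  obtain ⟨k, X, i, h1, h2, -, h3⟩ := h
  exact ⟨X, List.mem_of_getElem? h1, i, h2, h3⟩

/-! ## map -/

/-- map in raw form, in front of the list `t` -/
def mapA (f : ℕ → ℕ) (t l : List ℕ) : List ℕ :=
  @List.rec ℕ (fun _ => List ℕ) t (fun a _ ih => f a :: ih) l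

theorem mapA_eq (f : ℕ → ℕ) (t l : List ℕ) : mapA f t l = l.map f ++ t := by
  induction l with
  | nil => rfl
  | cons a l ih =>
    show f a :: mapA f t l = _
    rw [ih]
    rfl

/-! ## relabelling -/

/-- all chunks of `cs` relabelled by all words `(len, w)` of `ws` -/
noncomputable def relab (K : ℕ) (ws : List (ℕ × ℕ)) (cs : List ℕ) : List ℕ :=
  @List.rec (ℕ × ℕ) (fun _ => List ℕ) [] (fun w _ ih => mapA (runC K w.1 w.2) ih cs) ws

theorem relab_nil (K : ℕ) (cs : List ℕ) : relab K [] cs = [] := rfl

theorem relab_cons (K : ℕ) (w : ℕ × ℕ) (ws : List (ℕ × ℕ)) (cs : List ℕ) :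
    relab K (w :: ws) cs = cs.map (runC K w.1 w.2) ++ relab K ws cs := by
  show mapA (runC K w.1 w.2) (relab K ws cs) cs = _
  rw [mapA_eq]

theorem mem_relab {K : ℕ} {ws : List (ℕ × ℕ)} {cs : List ℕ} {w : ℕ × ℕ} {c : ℕ} (hw : w ∈ ws)
    (hc : c ∈ cs) : runC K w.1 w.2 c ∈ relab K ws cs := by
  induction ws with
  | nil => exact absurd hw List.not_mem_nil
  | cons v ws ih =>
    rw [relab_cons]
    rcases List.mem_cons.1 hw with h | h
    · subst h
      exact List.mem_append_left _ (List.mem_map_of_mem hc)
    · exact List.mem_append_right _ (ih h)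

/-- **relabelled lists** -/
theorem inL_relab {N : ℕ} {cs : List ℕ} {F : Fam} (h : InL N cs F) {ws : List (ℕ × ℕ)}
    {w len : ℕ} (hm : (len, w) ∈ ws) (hw : okW 11 w len = true) :
    InL N (relab (2048 * N) ws cs) (mapF (wpc (prs w len)) F) := by
  obtain ⟨X, h1, i, hi, h2⟩ := h
  exact ⟨_, mem_relab hm h1, i, hi, fld_runC (n := 11) (N := N) (by norm_num) hw hi h2⟩

/-- one word, numbers of lanes kept -/
noncomputable def relab1 (K len w : ℕ) (cs : List ℕ) : List ℕ := mapA (runC K len w) [] cs

theorem relab1_eq (K len w : ℕ) (cs : List ℕ) : relab1 K len w cs = cs.map (runC K len w) := by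
  unfold relab1
  rw [mapA_eq, List.append_nil]

theorem InN.relab1 {N n : ℕ} {cs : List ℕ} {F : Fam} (h : InN N n cs F) {w len : ℕ}
    (hw : okW 11 w len = true) :
    InN N n (relab1 (2048 * N) len w cs) (mapF (wpc (prs w len)) F) := by
  obtain ⟨k, X, i, h1, h2, h3, h4⟩ := h
  refine ⟨k, _, i, ?_, h2, h3, fld_runC (n := 11) (N := N) (by norm_num) hw h2 h4⟩
  rw [relab1_eq, List.getElem?_map, h1]
  rfl

theorem inL_relab1 {N : ℕ} {cs : List ℕ} {F : Fam} (h : InL N cs F) {w len : ℕ}
    (hw : okW 11 w len = true) :
    InL N (relab1 (2048 * N) len w cs) (mapF (wpc (prs w len)) F) := by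
  rw [relab1_eq]
  exact h.run hw

/-! ## junk rows -/

/-- the lanes `a ≤ i < N` of the chunk become all ones -/
def padX (N a X : ℕ) : ℕ :=
  Nat.lor X (Nat.sub (Nat.pow 2 (Nat.mul 2048 N)) (Nat.pow 2 (Nat.mul 2048 a)))

theorem fld_padX {N a X i : ℕ} (hi : i < a) (ha : a ≤ N) : fld 2048 (padX N a X) i = fld 2048 X i := by
  refine Nat.eq_of_testBit_eq fun j => ?_
  rw [testBit_fld, testBit_fld]
  by_cases hj : j < 2048
  · rw [decide_eq_true hj, Bool.true_and, Bool.true_and]
    have e : padX N a X = X ||| (2 ^ (2048 * N) - 2 ^ (2048 * a)) := rfl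
    have h1 : 2048 * i + j < 2048 * a := by omega
    have h2 : 2 ^ (2048 * N) - 2 ^ (2048 * a) = 2 ^ (2048 * a) * (2 ^ (2048 * N - 2048 * a) - 1) := by
      rw [Nat.mul_sub, mul_one, ← pow_add, Nat.add_sub_cancel' (by omega)]
    rw [e, Nat.testBit_or, h2, Nat.testBit_two_pow_mul, decide_eq_false (by omega), Bool.false_and,
      Bool.or_false]
  · rw [decide_eq_false hj, Bool.false_and, Bool.false_and]

/-- cut the list after `n` lanes, the rest of the last chunk becomes junk -/
def padR (N : ℕ) (L : List ℕ) : ℕ → List ℕ :=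
  @List.rec ℕ (fun _ => ℕ → List ℕ) (fun _ => [])
    (fun X _ ih n => @Bool.rec (fun _ => List ℕ) (padX N n X :: []) (X :: ih (Nat.sub n N))
      (Nat.ble N n)) L

theorem padR_cons (N X : ℕ) (L : List ℕ) (n : ℕ) :
    padR N (X :: L) n = @Bool.rec (fun _ => List ℕ) (padX N n X :: []) (X :: padR N L (n - N))
      (Nat.ble N n) := rfl

/-- **padding keeps the valid lanes** -/
theorem InN.padR {N n : ℕ} {L : List ℕ} {F : Fam} (h : InN N n L F) : InL N (padR N L n) F := by
  obtain ⟨k, X, i, h1, h2, h3, h4⟩ := h
  induction L generalizing k n with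
  | nil =>
    rw [List.getElem?_nil] at h1
    exact absurd h1 (by simp)
  | cons Y L ih =>
    rw [padR_cons]
    by_cases hn : N ≤ n
    · have hb : Nat.ble N n = true := Nat.ble_eq_true_of_le hn
      rw [hb]
      cases k with
      | zero =>
        rw [List.getElem?_cons_zero, Option.some.injEq] at h1
        subst h1
        exact ⟨Y, List.mem_cons_self, i, h2, h4⟩
      | succ k =>
        rw [List.getElem?_cons_succ] at h1
        have h5 := ih (n := n - N) k h1 (by
          rw [Nat.mul_add, mul_one] at h3
          omega)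
        exact h5.mono fun Z hZ => List.mem_cons_of_mem _ hZ
    · have hb : Nat.ble N n = false := by
        rw [← Bool.not_eq_true]
        intro h5
        exact hn (Nat.le_of_ble_eq_true h5)
      rw [hb]
      have hk : k = 0 := by
        by_contra h5
        have h6 : N * 1 ≤ N * k := Nat.mul_le_mul_left _ (Nat.one_le_iff_ne_zero.2 h5)
        omega
      subst hk
      rw [List.getElem?_cons_zero, Option.some.injEq] at h1
      subst h1
      refine ⟨_, List.mem_cons_self, i, h2, ?_⟩
      rw [fld_padX (by omega) (by omega)]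
      exact h4

/-! ## dense chunks -/

/-- dense chunks to cube chunks -/
def expL (cs : List ℕ) : List ℕ := mapA Pool.Agent.Helper52.TY.expandC [] cs

theorem expL_eq (cs : List ℕ) : expL cs = cs.map Pool.Agent.Helper52.TY.expandC := by
  unfold expL
  rw [mapA_eq, List.append_nil]

/-- mask of the padding bits `a, .., a + 3` of `N` lanes of `a + 4` bits -/
def padM (a N : ℕ) : ℕ := Nat.mul (Nat.mul 15 (Nat.pow 2 a)) (rep (a + 4) N)

theorem padM_bit {a N X : ℕ} (h : X &&& padM a N = 0) {i r : ℕ} (hi : i < N) (h1 : a ≤ r)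
    (h2 : r < a + 4) : X.testBit ((a + 4) * i + r) = false := by
  have h6 : (X &&& padM a N).testBit ((a + 4) * i + r) = false := by
    rw [h, Nat.zero_testBit]
  have e : padM a N = (15 * 2 ^ a) * rep (a + 4) N := rfl
  have h3 : 15 * 2 ^ a < 2 ^ (a + 4) := by
    rw [pow_add, Nat.mul_comm (2 ^ a)]
    exact (Nat.mul_lt_mul_right (Nat.two_pow_pos a)).2 (by norm_num)
  have h7 : ((a + 4) * i + r) % (a + 4) = r := by
    rw [Nat.mul_add_mod, Nat.mod_eq_of_lt h2]
  have h4 : (a + 4) * i + r < (a + 4) * N := by
    calc (a + 4) * i + r < (a + 4) * i + (a + 4) := by omega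
      _ = (a + 4) * (i + 1) := by ring
      _ ≤ (a + 4) * N := Nat.mul_le_mul_left _ hi
  rw [Nat.testBit_and, e, testBit_mul_rep (by omega) h3, h7, decide_eq_true h4,
    Bool.true_and] at h6
  have h8 : (15 * 2 ^ a).testBit r = true := by
    rw [Nat.testBit_mul_two_pow, decide_eq_true h1, Bool.true_and]
    have h9 : r - a < 4 := by omega
    generalize r - a = q at h9
    interval_cases q <;> rfl
  rw [h8, Bool.and_true] at h6
  exact h6

/-- mask of the padding bits 508, .., 511 of the 64 dense lanes -/
def padD : ℕ := padM 508 64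

/-- a dense chunk: at most `b` bits (`b = 32768`), padding bits 0 -/
def chkD (b X : ℕ) : Bool :=
  @Bool.rec (fun _ => Bool) false (Nat.beq (Nat.land X padD) 0) (Nat.ble (Nat.succ X) (Nat.pow 2 b))

theorem chkD_sound {b X : ℕ} (h : chkD b X = true) : X < 2 ^ b ∧
    ∀ i < 64, ∀ r, 508 ≤ r → r < 512 → X.testBit (512 * i + r) = false := by
  have e : chkD b X = @Bool.rec (fun _ => Bool) false (Nat.beq (Nat.land X padD) 0)
      (Nat.ble (Nat.succ X) (2 ^ b)) := rfl
  rw [e] at h
  have h1 : Nat.ble (Nat.succ X) (2 ^ b) = true := by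
    by_contra hc
    rw [Bool.not_eq_true] at hc
    rw [hc] at h
    exact Bool.noConfusion h
  rw [h1] at h
  have h2 : Nat.beq (Nat.land X padD) 0 = true := h
  refine ⟨Nat.le_of_ble_eq_true h1, fun i hi r h3 h4 => ?_⟩
  have h5 : X &&& padD = 0 := Nat.eq_of_beq_eq_true h2
  exact padM_bit h5 hi h3 h4

/-- all chunks are good -/
def chkDL (b : ℕ) (cs : List ℕ) : Bool :=
  @List.rec ℕ (fun _ => Bool) true
    (fun X _ ih => @Bool.rec (fun _ => Bool) false ih (chkD b X)) cs

theorem chkDL_sound {b : ℕ} {cs : List ℕ} (h : chkDL b cs = true) : ∀ X ∈ cs, chkD b X = true := by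
  induction cs with
  | nil => exact fun X hX => absurd hX List.not_mem_nil
  | cons Y cs ih =>
    have h1 : @Bool.rec (fun _ => Bool) false (chkDL b cs) (chkD b Y) = true := h
    cases hY : chkD b Y with
    | false =>
      rw [hY] at h1
      exact Bool.noConfusion h1
    | true =>
      rw [hY] at h1
      intro X hX
      rcases List.mem_cons.1 hX with h2 | h2
      · rw [h2, hY]
      · exact ih h1 X h2

/-- lane `i` (counted through the list, 64 per chunk) is the dense code of `F` -/
def DenN (n : ℕ) (cs : List ℕ) (F : Fam) : Prop :=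
  ∃ k X i, cs[k]? = some X ∧ i < 64 ∧ 64 * k + i < n ∧ fld 512 X i = Pool.Agent.Helper52.TY.dcode F

/-- **dense lists** -/
theorem DenN.expL {n : ℕ} {cs : List ℕ} {F : Fam} (h : DenN n cs F) (hc : chkDL 32768 cs = true)
    (hF : ∀ s ∈ F, mk s < 2048 → s.card = 0 ∨ s.card = 1 ∨ s.card = 3 ∨ s.card = 4 ∨
      s.card = 11) : InN 64 n (expL cs) F := by
  obtain ⟨k, X, i, h1, h2, h3, h4⟩ := h
  obtain ⟨h5, h6⟩ := chkD_sound (chkDL_sound hc X (List.mem_of_getElem? h1))
  refine ⟨k, Pool.Agent.Helper52.TY.expandC X, i, ?_, h2, h3,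
    Pool.Agent.Helper52.TY.fld_expandC h5 h6 h2 hF h4⟩
  rw [expL_eq, List.getElem?_map, h1]
  rfl

/-! ## two chunks in one -/

/-- chunks `Y, X` glued: the lanes of `X` above those of `Y` -/
def glue (s Y X : ℕ) : ℕ := Nat.lor (Nat.shiftLeft X s) Y

theorem fld_glue {N Y X i : ℕ} (hY : Y < 2 ^ (2048 * N)) : fld 2048 (glue (2048 * N) Y X) i =
    if i < N then fld 2048 Y i else fld 2048 X (i - N) := by
  have e : glue (2048 * N) Y X = (X <<< (2048 * N)) ||| Y := rfl
  refine Nat.eq_of_testBit_eq fun j => ?_
  rw [testBit_fld, e, Nat.testBit_or, Nat.testBit_shiftLeft]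
  by_cases hj : j < 2048
  · rw [decide_eq_true hj, Bool.true_and]
    split_ifs with h
    · rw [testBit_fld, decide_eq_true hj, Bool.true_and,
        decide_eq_false (show ¬ 2048 * i + j ≥ 2048 * N by omega), Bool.false_and, Bool.false_or]
    · rw [testBit_fld, decide_eq_true hj, Bool.true_and,
        decide_eq_true (show 2048 * i + j ≥ 2048 * N by omega), Bool.true_and,
        Nat.testBit_eq_false_of_lt (lt_of_lt_of_le hY (Nat.pow_le_pow_right (by norm_num)
          (show 2048 * N ≤ 2048 * i + j by omega))), Bool.or_false]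
      congr 1
      omega
  · rw [decide_eq_false hj, Bool.false_and]
    split_ifs <;> rw [testBit_fld, decide_eq_false hj, Bool.false_and]

/-- glue the chunks two by two (`N` lanes each) -/
def pairL (s : ℕ) : List ℕ → List ℕ
  | [] => []
  | [Y] => [Y]
  | Y :: X :: L => glue s Y X :: pairL s L

theorem InN.pairL {N n : ℕ} {L : List ℕ} {F : Fam} (h : InN N n L F)
    (hL : ∀ Y ∈ L, Y < 2 ^ (2048 * N)) : InN (2 * N) n (pairL (2048 * N) L) F := by
  obtain ⟨k, X, i, h1, h2, h3, h4⟩ := h
  -- induction on the list
  have key : ∀ (m : ℕ) (L : List ℕ), L.length ≤ m → (∀ Y ∈ L, Y < 2 ^ (2048 * N)) →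
      ∀ k n, L[k]? = some X → N * k + i < n → InN (2 * N) n (Helper91.TY.pairL (2048 * N) L) F := by
    intro m
    induction m with
    | zero =>
      intro L hm _ k n h1 _
      have : L = [] := List.length_eq_zero_iff.1 (by omega)
      subst this
      rw [List.getElem?_nil] at h1
      exact absurd h1 (by simp)
    | succ m ih =>
      intro L hm hL k n h1 h3
      match L, hm, hL, h1 with
      | [], _, _, h1 =>
        rw [List.getElem?_nil] at h1
        exact absurd h1 (by simp)
      | [Y], _, _, h1 =>
        cases k with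
        | zero =>
          rw [List.getElem?_cons_zero, Option.some.injEq] at h1
          subst h1
          exact ⟨0, Y, i, rfl, by omega, by omega, h4⟩
        | succ k =>
          rw [List.getElem?_cons_succ, List.getElem?_nil] at h1
          exact absurd h1 (by simp)
      | Y :: Z :: L, hm, hL, h1 =>
        have hY := hL Y List.mem_cons_self
        cases k with
        | zero =>
          rw [List.getElem?_cons_zero, Option.some.injEq] at h1
          subst h1
          refine ⟨0, glue (2048 * N) Y Z, i, rfl, by omega, by omega, ?_⟩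
          rw [fld_glue hY, if_pos h2]
          exact h4
        | succ k =>
          cases k with
          | zero =>
            rw [List.getElem?_cons_succ, List.getElem?_cons_zero, Option.some.injEq] at h1
            subst h1
            refine ⟨0, glue (2048 * N) Y Z, N + i, rfl, by omega, by omega, ?_⟩
            rw [fld_glue hY, if_neg (by omega), Nat.add_sub_cancel_left]
            exact h4
          | succ k =>
            rw [List.getElem?_cons_succ, List.getElem?_cons_succ] at h1
            have h5 : N * (k + 1 + 1) = N * k + 2 * N := by ring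
            obtain ⟨k', X', i', g1, g2, g3, g4⟩ := ih L (by
              simp only [List.length_cons] at hm
              omega) (fun W hW => hL W (List.mem_cons_of_mem _ (List.mem_cons_of_mem _ hW))) k
              (n - 2 * N) h1 (by omega)
            refine ⟨k' + 1, X', i', g1, g2, ?_, g4⟩
            rw [Nat.mul_add, mul_one]
            omega
  exact key L.length L le_rfl hL k n h1 h3

end Pool.Agent.Helper91.TY
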