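import Pool.Agent.Helper91.TY.Swap
import Pool.Agent.Helper33.CV.Perm

/-!
MP_8ee768_co, project TH-Y': adjacent transpositions of points on colex codes.

A table `tb : List (ℕ × ℕ)` of pairs (shift, mask) is a program of masked exchanges; `app tb x` runs it.
`chkTb n k a tb = true` implies `enc n k (mapF (swp a) D) = app tb (enc n k D)` where `swp a` is the
transposition of `a` and `a + 1` (`enc_swp`).
-/

set_option autoImplicit false

namespace Pool.Agent.Helper91.TY

open Finset
open Pool.Agent.Helper63.SIMD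
open Pool.Agent.Helper89.CV (OddCover ofMask)
open Pool.Agent.Helper97.CV
open Pool.Agent.Helper79.CV
open Pool.Agent.Helper33.CV

/-- running a program of exchanges -/
def app : List (ℕ × ℕ) → ℕ → ℕ
  | [], x => x
  | p :: l, x => app l (dswap p.1 p.2 x)

/-- the place from which bit `j` comes in one exchange -/
def src (s M j : ℕ) : ℕ :=
  bif M.testBit j then j + s else bif Nat.ble s j && M.testBit (j - s) then j - s else j

/-- the place from which bit `j` comes in a program -/
def srcs : List (ℕ × ℕ) → ℕ → ℕ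
  | [], j => j
  | p :: l, j => src p.1 p.2 (srcs l j)

/-- the exchange stays inside `W` bits and is well defined -/
def okEx (W : ℕ) (p : ℕ × ℕ) : Bool :=
  Nat.blt (Nat.shiftLeft p.2 p.1) (2 ^ W) && Nat.beq (Nat.land p.2 (Nat.shiftLeft p.2 p.1)) 0

theorem okEx_iff {W : ℕ} {p : ℕ × ℕ} :
    okEx W p = true ↔ p.2 <<< p.1 < 2 ^ W ∧ p.2 &&& (p.2 <<< p.1) = 0 := by
  unfold okEx
  rw [Bool.and_eq_true, Nat.blt_eq, Nat.beq_eq]
  rfl

theorem disj_of_okEx {s M : ℕ} (hd : M &&& (M <<< s) = 0) :
    ∀ j, M.testBit j = true → M.testBit (j + s) = false := by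
  intro j hj
  have h1 := congrArg (fun v => Nat.testBit v (j + s)) hd
  simp only [Nat.testBit_and, Nat.zero_testBit, Nat.testBit_shiftLeft] at h1
  simpa [hj] using h1

theorem testBit_dswap_src {s M x : ℕ} (hd : M &&& (M <<< s) = 0) (j : ℕ) :
    (dswap s M x).testBit j = x.testBit (src s M j) := by
  rw [testBit_dswap (disj_of_okEx hd)]
  unfold src
  by_cases h1 : M.testBit j = true
  · rw [if_pos h1, h1, cond_true]
  · rw [if_neg h1]
    rw [Bool.not_eq_true] at h1
    rw [h1, cond_false]
    by_cases h2 : s ≤ j ∧ M.testBit (j - s) = true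
    · rw [if_pos h2, h2.2, Nat.ble_eq_true_of_le h2.1]
      rfl
    · rw [if_neg h2]
      have h3 : (Nat.ble s j && M.testBit (j - s)) = false := by
        rw [Bool.eq_false_iff, Ne, Bool.and_eq_true, Nat.ble_eq]
        exact h2
      rw [h3, cond_false]

theorem testBit_app {tb : List (ℕ × ℕ)} {W : ℕ} (h : tb.all (okEx W) = true) (x j : ℕ) :
    (app tb x).testBit j = x.testBit (srcs tb j) := by
  induction tb generalizing x with
  | nil => rfl
  | cons p l ih =>
    rw [List.all_cons, Bool.and_eq_true] at h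
    show (app l (dswap p.1 p.2 x)).testBit j = x.testBit (src p.1 p.2 (srcs l j))
    rw [ih h.2, testBit_dswap_src (okEx_iff.1 h.1).2]

theorem lt_of_testBit {W M s : ℕ} (h : M <<< s < 2 ^ W) {j : ℕ} (hj : M.testBit j = true) :
    j + s < W := by
  by_contra hc
  have h1 : (M <<< s).testBit (j + s) = true := by
    rw [Nat.testBit_shiftLeft]; simp [hj]
  have h2 : (M <<< s) < 2 ^ (j + s) :=
    lt_of_lt_of_le h (Nat.pow_le_pow_right (by norm_num) (by omega))
  rw [Nat.testBit_lt_two_pow h2] at h1
  exact Bool.noConfusion h1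

theorem src_ge {W s M : ℕ} (h : M <<< s < 2 ^ W) {j : ℕ} (hj : W ≤ j) : src s M j = j := by
  unfold src
  have h1 : M.testBit j = false := by
    by_contra hc
    rw [Bool.not_eq_false] at hc
    have := lt_of_testBit h hc
    omega
  have h2 : (Nat.ble s j && M.testBit (j - s)) = false := by
    rw [Bool.eq_false_iff, Ne, Bool.and_eq_true, Nat.ble_eq]
    rintro ⟨h3, h4⟩
    have := lt_of_testBit h h4
    omega
  rw [h1, h2]
  rfl

theorem srcs_ge {tb : List (ℕ × ℕ)} {W : ℕ} (h : tb.all (okEx W) = true) {j : ℕ} (hj : W ≤ j) :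
    srcs tb j = j := by
  induction tb with
  | nil => rfl
  | cons p l ih =>
    rw [List.all_cons, Bool.and_eq_true] at h
    show src p.1 p.2 (srcs l j) = j
    rw [ih h.2]
    exact src_ge (okEx_iff.1 h.1).1 hj

theorem src_lt {W s M : ℕ} (h : M <<< s < 2 ^ W) {j : ℕ} (hj : j < W) : src s M j < W := by
  unfold src
  by_cases h1 : M.testBit j = true
  · rw [h1, cond_true]
    exact lt_of_testBit h h1
  · rw [Bool.not_eq_true] at h1
    rw [h1, cond_false]
    by_cases h2 : (Nat.ble s j && M.testBit (j - s)) = true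
    · rw [h2, cond_true]
      omega
    · rw [Bool.not_eq_true] at h2
      rw [h2, cond_false]
      exact hj

theorem srcs_lt {tb : List (ℕ × ℕ)} {W : ℕ} (h : tb.all (okEx W) = true) {j : ℕ} (hj : j < W) :
    srcs tb j < W := by
  induction tb with
  | nil => exact hj
  | cons p l ih =>
    rw [List.all_cons, Bool.and_eq_true] at h
    exact src_lt (okEx_iff.1 h.1).1 (ih h.2)

theorem app_lt {tb : List (ℕ × ℕ)} {W : ℕ} (h : tb.all (okEx W) = true) {x : ℕ}
    (hx : x < 2 ^ W) : app tb x < 2 ^ W := by
  refine Nat.lt_pow_two_of_testBit _ fun j hj => ?_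
  rw [testBit_app h, srcs_ge h hj]
  exact Nat.testBit_lt_two_pow (lt_of_lt_of_le hx (Nat.pow_le_pow_right (by norm_num) hj))

/-! ## transpositions -/

/-- the transposition of `a` and `a + 1` -/
def swp (a : ℕ) : Equiv.Perm (Fin 13) :=
  if h : a + 1 < 13 then Equiv.swap ⟨a, by omega⟩ ⟨a + 1, h⟩ else 1

theorem swp_symm (a : ℕ) : (swp a).symm = swp a := by
  unfold swp
  split_ifs
  · exact Equiv.symm_swap _ _
  · rfl

theorem keeps_swp {n a : ℕ} (ha : a + 1 < n) : Keeps n (swp a) := by
  intro b hb
  unfold swp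
  split_ifs with h
  · by_cases h1 : b = ⟨a, by omega⟩
    · rw [h1, Equiv.swap_apply_left]
      exact ha
    · by_cases h2 : b = ⟨a + 1, h⟩
      · rw [h2, Equiv.swap_apply_right]
        show a < n
        omega
      · rw [Equiv.swap_apply_of_ne_of_ne h1 h2]
        exact hb
  · exact hb

/-- a point outside `{a, a + 1}` is fixed -/
theorem swp_fix {a : ℕ} {b : Fin 13} (h1 : b.val ≠ a) (h2 : b.val ≠ a + 1) : swp a b = b := by
  unfold swp
  split_ifs with h
  · exact Equiv.swap_apply_of_ne_of_ne (fun e => h1 (congrArg Fin.val e))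
      (fun e => h2 (congrArg Fin.val e))
  · rfl

/-- check of a table for the transposition of `a` and `a + 1` -/
def chkTb (n k a : ℕ) (tb : List (ℕ × ℕ)) : Bool :=
  Nat.blt (a + 1) n && (tb.all (okEx (n.choose k)) &&
    (PL n k (valL (swp a)) == (List.range (n.choose k)).map (srcs tb)))

theorem enc_swp {n k a : ℕ} (hn : n ≤ 13) {tb : List (ℕ × ℕ)} (h : chkTb n k a tb = true)
    (D : Finset (Finset (Fin 13))) : enc n k (mapF (swp a) D) = app tb (enc n k D) := by
  unfold chkTb at h
  rw [Bool.and_eq_true, Bool.and_eq_true, Nat.blt_eq, beq_iff_eq] at h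
  obtain ⟨h1, h2, h3⟩ := h
  have h4 := enc_mapF_gather (k := k) hn (keeps_swp h1) D
  rw [swp_symm, h3] at h4
  rw [h4]
  refine Nat.eq_of_testBit_eq fun i => ?_
  rw [testBit_app h2, Bool.eq_iff_iff, testBit_gather]
  by_cases hi : i < n.choose k
  · have h5 : ((List.range (n.choose k)).map (srcs tb))[i]? = some (srcs tb i) := by
      rw [List.getElem?_map, List.getElem?_range hi]
      rfl
    rw [h5]
    simp
  · rw [srcs_ge h2 (by omega), testBit_enc_ge D (by rw [length_L]; omega)]
    have h5 : ((List.range (n.choose k)).map (srcs tb))[i]? = none := by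
      rw [List.getElem?_eq_none]
      rw [List.length_map, List.length_range]
      omega
    rw [h5]
    simp

end Pool.Agent.Helper91.TY
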