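import Pool.Agent.Helper91.TY.Build
import Pool.Agent.Helper91.TY.FastCub3
import Pool.Agent.Helper79.CV.Lane3

/-!
MP_8ee768_co, project TH-Y', stages A / E / B1: from the rows of the tables and certified words to
the lanes of the star engine. Everything is generic in the layer function `Lay` (equivariant under
the permutations which fix `11` and `12`) and in the number `N` of lanes of the list.

* `InX n X F`: one of the first `n` lanes of `X` is the cube code of `F`;
* `InX.run`, `InX.step`: after a word of exchanges, after one exchange;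
* `InX.lor`: after padding the lanes `≥ n`;  `InX.cut`: in the chunks of 64 lanes;
* `InN.cat`, `inX_cat`: the list as one number;
* `moved_mul`: `moved (κ * σ) B y = mapF κ (moved σ B y)` if `κ` fixes `11` and `12`;
* `inX_base`: the lane of `y` in its base frame is a lane of the relabelled row, from `baseChk`.
-/

set_option autoImplicit false
set_option maxRecDepth 100000
set_option exponentiation.threshold 5000

namespace Pool.Agent.Helper91.TY

open Finset
open Pool.Agent.Helper89.CV (OddCover ofMask)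
open Pool.Agent.Helper97.CV
open Pool.Agent.Helper63.SIMD
open Pool.Agent.Helper79.CV
open Pool.Agent.Helper33.CV
open Pool.Agent.Helper82.TY (below)
open Pool.Agent.Helper39.TY (InL)

/-! ## lanes of one number -/

/-- one of the first `n` lanes of `X` is the cube code of `F` -/
def InX (n X : ℕ) (F : Fam) : Prop := ∃ i < n, fld 2048 X i = cub 11 F

theorem InX.mono {n n' X : ℕ} {F : Fam} (h : InX n X F) (hn : n ≤ n') : InX n' X F := by
  obtain ⟨i, hi, h1⟩ := h
  exact ⟨i, by omega, h1⟩

/-- a word of exchanges on the whole number -/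
theorem InX.run {n N X : ℕ} {F : Fam} (h : InX n X F) (hn : n ≤ N) {w len : ℕ}
    (hw : okW 11 w len = true) :
    InX n (runC (2048 * N) len w X) (mapF (wpc (prs w len)) F) := by
  obtain ⟨i, hi, h1⟩ := h
  exact ⟨i, hi, fld_runC (n := 11) (N := N) (by norm_num) hw (by omega) h1⟩

/-- one exchange on the whole number, `i < j < 11` -/
theorem InX.swap {n N X : ℕ} {F : Fam} (h : InX n X F) (hn : n ≤ N) {i j : Fin 13}
    (hij : i.val < j.val) (hj : j.val < 11) :
    InX n (cswap i.val j.val (ib (2048 * N) i.val) (ib (2048 * N) j.val) X)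
      (mapF (Equiv.swap i j) F) := by
  obtain ⟨l, hl, h1⟩ := h
  exact ⟨l, hl, fld_cswap_cub (n := 11) (N := N) hij hj (by norm_num) (by omega) h1⟩

/-- one exchange given by its digit -/
theorem InX.step {n N X d : ℕ} {F : Fam} (h : InX n X F) (hn : n ≤ N) {i j : Fin 13}
    (hij : i.val < j.val) (hj : j.val < 11) (hd : d = i.val + 16 * j.val) :
    InX n (cstep (2048 * N) d X) (mapF (Equiv.swap i j) F) := by
  have h1 : Nat.mod d 16 = i.val := by
    show d % 16 = i.val
    omega
  have h2 : Nat.div d 16 = j.val := by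
    show d / 16 = j.val
    omega
  unfold cstep
  rw [h1, h2]
  exact h.swap hn hij hj

/-- bits above the first `n` lanes do not matter -/
theorem InX.lor {n X Y : ℕ} {F : Fam} (h : InX n X F)
    (hY : ∀ t, t < 2048 * n → Y.testBit t = false) : InX n (Nat.lor X Y) F := by
  obtain ⟨i, hi, h1⟩ := h
  refine ⟨i, hi, ?_⟩
  rw [← h1]
  refine Nat.eq_of_testBit_eq fun t => ?_
  rw [testBit_fld, testBit_fld]
  by_cases ht : t < 2048
  · have e : Nat.lor X Y = X ||| Y := rfl
    rw [e, Nat.testBit_or, hY _ (by omega), Bool.or_false]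
  · rw [decide_eq_false ht, Bool.false_and, Bool.false_and]

/-- padding by a multiple of a power of two -/
theorem InX.pad {n X Z : ℕ} {F : Fam} (h : InX n X F) :
    InX n (Nat.lor X (Nat.shiftLeft Z (2048 * n))) F := by
  refine h.lor fun t ht => ?_
  have e : Nat.shiftLeft Z (2048 * n) = Z <<< (2048 * n) := rfl
  rw [e, Nat.testBit_shiftLeft, decide_eq_false (by omega), Bool.false_and]

/-- chunk `k` of `N` lanes -/
def cutK (N X k : ℕ) : ℕ :=
  Nat.mod (Nat.shiftRight X (Nat.mul (Nat.mul 2048 N) k)) (Nat.pow 2 (Nat.mul 2048 N))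

theorem fld_cutK {N X k i : ℕ} (hi : i < N) : fld 2048 (cutK N X k) i = fld 2048 X (N * k + i) := by
  refine Nat.eq_of_testBit_eq fun t => ?_
  rw [testBit_fld, testBit_fld]
  by_cases ht : t < 2048
  · have e : cutK N X k = (X >>> (2048 * N * k)) % 2 ^ (2048 * N) := rfl
    have h1 : 2048 * i + t < 2048 * N := by omega
    rw [e, Nat.testBit_mod_two_pow, decide_eq_true h1, Bool.true_and, Nat.testBit_shiftRight]
    congr 2
    ring
  · rw [decide_eq_false ht, Bool.false_and, Bool.false_and]

/-- the chunks number `0, .., K - 1` -/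
theorem InX.cut {n N X K : ℕ} {F : Fam} (h : InX n X F) (hn : n ≤ N * K) {L : List ℕ}
    (hL : ∀ k < K, cutK N X k ∈ L) : InL N L F := by
  obtain ⟨i, hi, h1⟩ := h
  have hN : 0 < N := by
    rcases Nat.eq_zero_or_pos N with h2 | h2
    · rw [h2, Nat.zero_mul] at hn
      omega
    · exact h2
  have h3 : i / N < K := Nat.div_lt_of_lt_mul (by omega)
  refine ⟨_, hL _ h3, i % N, Nat.mod_lt _ hN, ?_⟩
  rw [fld_cutK (Nat.mod_lt _ hN), Nat.div_add_mod, h1]

/-- a list of chunks as one number -/
def catX (b : ℕ) (L : List ℕ) : ℕ :=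
  @List.rec ℕ (fun _ => ℕ) 0 (fun X _ ih => Nat.lor (Nat.shiftLeft ih b) X) L

theorem catX_cons (b X : ℕ) (L : List ℕ) : catX b (X :: L) = (catX b L <<< b) ||| X := rfl

theorem fld_catX {N : ℕ} : ∀ {L : List ℕ}, (∀ X ∈ L, X < 2 ^ (2048 * N)) → ∀ {k i X : ℕ},
    L[k]? = some X → i < N → fld 2048 (catX (2048 * N) L) (N * k + i) = fld 2048 X i := by
  intro L
  induction L with
  | nil =>
    intro _ k i X h
    rw [List.getElem?_nil] at h
    exact absurd h (by simp)
  | cons Y L ih =>
    intro hL k i X h hi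
    rw [catX_cons]
    have e : (catX (2048 * N) L <<< (2048 * N)) ||| Y = glue (2048 * N) Y (catX (2048 * N) L) := rfl
    rw [e, fld_glue (hL Y List.mem_cons_self)]
    cases k with
    | zero =>
      rw [List.getElem?_cons_zero, Option.some.injEq] at h
      rw [Nat.mul_zero, Nat.zero_add, if_pos hi, h]
    | succ k =>
      rw [List.getElem?_cons_succ] at h
      have h1 : N * (k + 1) + i = N * k + i + N := by ring
      rw [if_neg (by omega), h1, Nat.add_sub_cancel]
      exact ih (fun Z hZ => hL Z (List.mem_cons_of_mem _ hZ)) h hi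

theorem InN.cat {N n : ℕ} {L : List ℕ} {F : Fam} (h : InN N n L F)
    (hL : ∀ X ∈ L, X < 2 ^ (2048 * N)) : InX n (catX (2048 * N) L) F := by
  obtain ⟨k, X, i, h1, h2, h3, h4⟩ := h
  exact ⟨N * k + i, h3, by rw [fld_catX hL h1 h2, h4]⟩

/-! ## moved links -/

/-- `sw` commutes with the permutations fixing `11` and `12` -/
theorem sw_mul {κ : Equiv.Perm (Fin 13)} (h : Fix2 κ) : sw * κ = κ * sw := by
  ext a
  simp only [Equiv.Perm.mul_apply]
  congr 1
  by_cases h1 : a = 11
  · rw [h1, h.1, sw11, h.2]
  · by_cases h2 : a = 12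
    · rw [h2, h.2, sw12, h.1]
    · have h3 : κ a ≠ 11 := fun h4 => h1 (κ.injective (h4.trans h.1.symm))
      have h4 : κ a ≠ 12 := fun h5 => h2 (κ.injective (h5.trans h.2.symm))
      rw [sw_of_ne h3 h4, sw_of_ne h1 h2]

theorem moved_mul {κ : Equiv.Perm (Fin 13)} (h : Fix2 κ) (σ : Equiv.Perm (Fin 13)) (B : Fam)
    (y : Fin 13) : moved (κ * σ) B y = mapF κ (moved σ B y) := by
  unfold moved
  rw [← mapF_mul, ← mul_assoc, ← mul_assoc, sw_mul h]

/-- the moved link is the relabelled moved link at the table frame -/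
theorem moved_base {ρ : Equiv.Perm (Fin 13)} (h : Fix2 ρ) (σ : Equiv.Perm (Fin 13)) (B : Fam)
    (y : Fin 13) : moved σ B y = mapF ρ (moved (ρ.symm * σ) B y) := by
  rw [← moved_mul h]
  congr 1
  rw [← mul_assoc]
  have : ρ * ρ.symm = 1 := by
    ext a
    simp
  rw [this, one_mul]

/-! ## rows -/

/-- the layer function is equivariant under the permutations fixing `11` and `12` -/
def Equi (Lay : Fam → Fam) : Prop :=
  ∀ ρ : Equiv.Perm (Fin 13), Fix2 ρ → ∀ D, Lay (mapF ρ D) = mapF ρ (Lay D)

/-- completeness of the first `n` lanes of `X` for the pair type `T` -/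
def TabX (Lay : Fam → Fam) (n X T cap : ℕ) (P : Fam → Prop) : Prop :=
  ∀ D : Fam, OddFam 3 (below 12) D → link D 11 = fam 11 3 T → 2 * D.card ≤ 114 + cap → P D →
    InX n X (Lay D)

/-- from the table of the parts avoiding `11` (helper7) and the layered rows (helper82) -/
theorem tabX_of_table {Lay : Fam → Fam} {n X T cap : ℕ} {P : Fam → Prop} {S : Set Fam}
    (hT : TableOK T cap P S)
    (hX : ∀ E ∈ S, ∀ D : Fam, link D 11 = fam 11 3 T →
      D.filter (fun s => (11 : Fin 13) ∉ s) = E → InX n X (Lay D)) : TabX Lay n X T cap P :=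
  fun D h1 h2 h3 h4 => hX _ (hT D h1 h2 h3 h4) D h2 rfl

/-- **the lane of `y` at any frame is a lane of the relabelled row** -/
theorem inX_moved {Lay : Fam → Fam} (hE : Equi Lay) {n N X T cap : ℕ} (hn : n ≤ N)
    {P : Fam → Prop} (hP : Inv P) (hT : TabX Lay n X T cap P) {B : Fam} (hB : OddCover B)
    {y : Fin 13} (hPy : P (link B y)) (hM : MM B y ≤ cap) {σ : Equiv.Perm (Fin 13)}
    (h12 : σ 12 = 12) (hy : σ y = 11) {w len : ℕ} (hw : okW 11 w len = true)
    (hρT : mapF (wpc (prs w len)) (fam 11 3 T) = link (mapF σ (link B 12)) 11) :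
    InX n (runC (2048 * N) len w X) (Lay (moved σ B y)) := by
  have hρ := wpc_fix2 hw
  set ρ := wpc (prs w len) with hρdef
  have e1 : (ρ.symm * σ) 12 = 12 := by rw [Equiv.Perm.mul_apply, h12, hρ.symm.2]
  have e2 : (ρ.symm * σ) y = 11 := by rw [Equiv.Perm.mul_apply, hy, hρ.symm.1]
  have h1 : mapF (ρ.symm * σ) (link (link B 12) y) = fam 11 3 T := by
    rw [mapF_mul, ← link_mapF σ (link B 12) y, hy, ← hρT, mapF_symm_mapF]
  have h2 := hT (moved (ρ.symm * σ) B y) (moved_odd hB e2) (moved_link e1 h1)
    (by rw [moved_card hB]; omega) (by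
      unfold moved
      exact hP _ _ hPy)
  have h3 := h2.run hn hw
  rw [← hρdef, ← hE ρ hρ, ← moved_base hρ] at h3
  exact h3

/-! ## the check of a position -/

/-- all digits are pairs `i < j < 11`, raw form -/
def okR (w len : ℕ) : Bool :=
  @Nat.rec (fun _ => Bool) true (fun t ih => @Bool.rec (fun _ => Bool) false
    (@Bool.rec (fun _ => Bool) false ih (Nat.ble (Nat.succ (Nat.div (dig8 w t) 16)) 11))
    (Nat.ble (Nat.succ (Nat.mod (dig8 w t) 16)) (Nat.div (dig8 w t) 16))) len

theorem okR_sound {w : ℕ} : ∀ {len : ℕ}, okR w len = true → okW 11 w len = true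
  | 0, _ => rfl
  | len + 1, h => by
    have e : okR w (len + 1) = @Bool.rec (fun _ => Bool) false
      (@Bool.rec (fun _ => Bool) false (okR w len) (Nat.ble (Nat.succ (dig8 w len / 16)) 11))
      (Nat.ble (Nat.succ (dig8 w len % 16)) (dig8 w len / 16)) := rfl
    rw [e] at h
    cases h1 : Nat.ble (Nat.succ (dig8 w len % 16)) (dig8 w len / 16) with
    | false =>
      rw [h1] at h
      exact Bool.noConfusion h
    | true =>
      rw [h1] at h
      cases h2 : Nat.ble (Nat.succ (dig8 w len / 16)) 11 with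
      | false =>
        rw [h2] at h
        exact Bool.noConfusion h
      | true =>
        rw [h2] at h
        have h3 := okR_sound (w := w) (len := len) h
        have h4 := Nat.le_of_ble_eq_true h1
        have h5 := Nat.le_of_ble_eq_true h2
        show (okW 11 w len && (Nat.blt (dig8 w len % 16) (dig8 w len / 16) &&
          (Nat.blt (dig8 w len / 16) 11 && Nat.blt (dig8 w len / 16) 13))) = true
        rw [Bool.and_eq_true, Bool.and_eq_true, Bool.and_eq_true, Nat.blt_eq, Nat.blt_eq,
          Nat.blt_eq]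
        exact ⟨h3, h4, h5, by omega⟩

/-- the cube of the link of the position `y` in its base frame, `C` = cube of the centre -/
def posC (C y : ℕ) : ℕ :=
  @Bool.rec (fun _ => ℕ)
    (Nat.shiftRight (Nat.mod (cstep 4096 (Nat.add y 176) C) (Nat.pow 2 4096)) 2048)
    (Nat.shiftRight C 2048) (Nat.beq y 11)

theorem posC_eq {r : ℕ} {y : Fin 13} (hy : y ≠ 12) :
    posC (cub 12 (fam 12 4 r)) y.val = cub 11 (link (mapF (Equiv.swap y 11) (fam 12 4 r)) 11) := by
  have hsh : ∀ D : Fam, cub 12 D >>> 2048 = cub 11 (link D 11) := fun D => cub_shift 11 D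
  by_cases h : y = 11
  · subst h
    rw [Equiv.swap_self]
    have e1 : mapF (Equiv.refl (Fin 13)) (fam 12 4 r) = fam 12 4 r := mapF_one _
    rw [e1, ← hsh]
    rfl
  · have hv : y.val < 11 := by
      have h1 : y.val ≠ 11 := fun h2 => h (Fin.ext h2)
      have h2 : y.val ≠ 12 := fun h2 => hy (Fin.ext h2)
      have := y.isLt
      omega
    have hb : Nat.beq y.val 11 = false := by
      rw [← Bool.not_eq_true]
      intro h1
      have := Nat.eq_of_beq_eq_true h1
      omega
    have h5 := fld_cswap_cub (i := y) (j := 11) (n := 12) (N := 1) hv (by decide)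
      (by norm_num) Nat.one_pos (fld_zero (cub_lt 12 (fam 12 4 r)))
    have e4 : 2 ^ 12 * 1 = 4096 := by norm_num
    rw [fld_mod, e4] at h5
    have e1 : Nat.mod (Nat.add y.val 176) 16 = y.val := by
      show (y.val + 176) % 16 = y.val
      omega
    have e2 : Nat.div (Nat.add y.val 176) 16 = 11 := by
      show (y.val + 176) / 16 = 11
      omega
    have e3 : cstep 4096 (Nat.add y.val 176) (cub 12 (fam 12 4 r)) =
        cswap y.val 11 (ib 4096 y.val) (ib 4096 11) (cub 12 (fam 12 4 r)) := by
      unfold cstep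
      rw [e1, e2]
    unfold posC
    rw [hb]
    show ((cstep 4096 (Nat.add y.val 176) (cub 12 (fam 12 4 r))) % 2 ^ 4096) >>> 2048 = _
    rw [e3, ← hsh, ← h5]
    rfl

/-- the check of a position: `C` = cube of the centre, `T` = code of the type -/
noncomputable def baseChk (C y T len w : ℕ) : Bool :=
  @Bool.rec (fun _ => Bool) false
    (Nat.beq (Nat.mod (runC 2048 len w (cub3 T)) (Nat.pow 2 2048)) (posC C y)) (okR w len)

theorem baseChk_sound {r : ℕ} {y : Fin 13} (hy : y ≠ 12) {T len w : ℕ} (hT : T < 2 ^ 165)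
    (h : baseChk (cub 12 (fam 12 4 r)) y.val T len w = true) : okW 11 w len = true ∧
      mapF (wpc (prs w len)) (fam 11 3 T) = link (mapF (Equiv.swap y 11) (fam 12 4 r)) 11 := by
  unfold baseChk at h
  cases hr : okR w len with
  | false =>
    rw [hr] at h
    exact Bool.noConfusion h
  | true =>
    rw [hr] at h
    have h1 : Nat.mod (runC 2048 len w (cub3 T)) (Nat.pow 2 2048) =
        posC (cub 12 (fam 12 4 r)) y.val := Nat.eq_of_beq_eq_true h
    have hw := okR_sound hr
    have hρ := wpc_fix2 hw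
    refine ⟨hw, cub_injOn (n := 11) ?_ ?_ ?_⟩
    · intro s hs
      rw [mem_mapF'] at hs
      exact (hρ.keeps.symm.sub_iff.1 (sub_of_mem_fam (by norm_num) hs)).1
    · refine mk_lt_link (n := 11) fun s hs => ?_
      rw [mem_mapF'] at hs
      have hk : Keeps 12 (Equiv.swap y (11 : Fin 13)) :=
        keeps_twelve (Equiv.swap_apply_of_ne_of_ne hy.symm (by decide))
      exact (hk.symm.sub_iff.1 (sub_of_mem_fam (n := 12) (by norm_num) hs)).1
    · rw [← posC_eq hy, ← h1, ← runC_one (by norm_num) hw, fld_mod, cub3_eq hT]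
      rfl

/-- **base lanes**: the lane of the position `y` in its base frame is a lane of the relabelled row -/
theorem inX_base {Lay : Fam → Fam} (hE : Equi Lay) {n N X T cap : ℕ} (hn : n ≤ N)
    (hT : T < 2 ^ 165) {P : Fam → Prop} (hP : Inv P) (hX : TabX Lay n X T cap P) {B : Fam}
    (hB : OddCover B) {r : ℕ} (hr : link B 12 = fam 12 4 r) {y : Fin 13} (hy : y ≠ 12)
    (hPy : P (link B y)) (hM : MM B y ≤ cap) {len w : ℕ}
    (h : baseChk (cub 12 (fam 12 4 r)) y.val T len w = true) :
    InX n (runC (2048 * N) len w X) (Lay (moved (Equiv.swap y 11) B y)) := by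
  obtain ⟨hw, h1⟩ := baseChk_sound hy hT h
  exact inX_moved hE hn hP hX hB hPy hM (Equiv.swap_apply_of_ne_of_ne hy.symm (by decide))
    (Equiv.swap_apply_left _ _) hw (by rw [hr]; exact h1)

end Pool.Agent.Helper91.TY
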