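import Pool.Agent.Helper91.TY.Part

/-!
MP_8ee768_co, project TH-Y': packed relabelling of combined lanes.

Layout Q (495 bits): quads of `{0, ..., 10}` at 0 (330 bits), triples at 330 (165 bits).
Layout L (715 bits): layout Q and four planes of pairs (55 bits each) at 495, 550, 605, 660.
`runQ`, `runL` act on all lanes (any width `W` at least 495 resp. 715).
-/

set_option autoImplicit false

namespace Pool.Agent.Helper91.TY

open Finset
open Pool.Agent.Helper63.SIMD
open Pool.Agent.Helper97.CV
open Pool.Agent.Helper79.CV

theorem fld_runG {tab : ℕ → List (ℕ × ℕ)} {kk : ℕ → ℕ → ℕ → ℕ} {m W0 W N : ℕ}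
    (hok : ∀ a < m, (tab a).all (okEx W0) = true)
    (hkk : ∀ R X a, a < m → kk R a X = appP R (tab a) X) (hW : W0 ≤ W) {len w : ℕ}
    (hw : ∀ a ∈ digs w len, a < m) (X : ℕ) {i : ℕ} (hi : i < N) :
    fld W (@Nat.rec (fun _ => ℕ) X (fun i ih => kk (rep W N) (dig w i) ih) len) i =
      runW tab (digs w len) (fld W X i) := by
  induction len with
  | zero => rfl
  | succ len ih =>
    have h1 : dig w len < m := hw _ (by
      show dig w len ∈ digs w len ++ [dig w len]
      exact List.mem_append_right _ (List.mem_singleton.2 rfl))
    show fld W (kk (rep W N) (dig w len)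
      (@Nat.rec (fun _ => ℕ) X (fun i ih => kk (rep W N) (dig w i) ih) len)) i =
      runW tab (digs w len ++ [dig w len]) (fld W X i)
    rw [hkk _ _ _ h1, fld_appP (okEx_mono hW (hok _ h1)) hi, runW_append,
      ih (fun a ha => hw a (List.mem_append_left _ ha))]
    rfl

/-- all digits are less than `m` -/
def okDigs (m w len : ℕ) : Bool := (digs w len).all (fun a => Nat.blt a m)

theorem okDigs_iff {m w len : ℕ} : okDigs m w len = true ↔ ∀ a ∈ digs w len, a < m := by
  unfold okDigs
  rw [List.all_eq_true]
  simp only [Nat.blt_eq]

def tabQ_0 : List (ℕ × ℕ) := [(1, 0x404082112804082112808211281089411284a29004082112808211281089411284a29008211281089411284a2901089411284a29022509452094521488)]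
def tabQ_1 : List (ℕ × ℕ) := [(1, 0x80810422440810422441042244211222244914480810422441042244211222244914481042244211222244914482112222449144844892289122892244)]
def tabQ_2 : List (ℕ × ℕ) := [(1, 0x101020844001020844002084400422004401000041020844002084400422004401000042084400422004401000044220044010000488020000a00008022), (2, 0x1800000001800000180000c00180618000000001800000180000c00180618000000180000c0018061800000c00180618000300c3000c300c00)]
def tabQ_3 : List (ℕ × ℕ) := [(1, 0x202041080002041080004108000840008000000002041080004108000840008000000004108000840008000000008400080000000100000000000000001), (3, 0xe00000000e000000e00007000e0380380000000e000000e00007000e03803800000e00007000e0380380007000e03803801c070070700701c0)]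
def tabQ_4 : List (ℕ × ℕ) := [(1, 0x404082000004082000008200001000000000000004082000008200001000000000000008200001000000000000010000000000000000000000000000000), (4, 0xf00000000f000000f00007800f0000000000000f000000f00007800f00000000000f00007800f0000000007800f00000001e00000000000001e), (6, 0xfc0000000000000000000000000000fc0000000000000000000fc000000000000fc0000001f8001f80000)]
def tabQ_5 : List (ℕ × ℕ) := [(1, 0x808100000008100000010000000000000000000008100000010000000000000000000010000000000000000000000000000000000000000000000000000), (5, 0x1f00000001f000001f0000f80000000000000001f000001f0000f800000000000001f0000f8000000000000f80000000000000000000000000000), (10, 0x3ff0000000000000000000000000003ff0000000000000000003ff000000000003ff0000007fe00000007fe0)]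
def tabQ_6 : List (ℕ × ℕ) := [(1, 0x1010000000010000000000000000000000000000010000000000000000000000000000000000000000000000000000000000000000000000000000000000), (6, 0x7e00000007e000007e0000000000000000000007e000007e00000000000000000007e0000000000000000000000000000000000000000000000000), (15, 0x1fffc00000000000000000000000001fffc00000000000000001fffc0000000001fffc0000000000000000000000), (20, 0x7ffff8000)]
def tabQ_7 : List (ℕ × ℕ) := [(1, 0x2000000000000000000000000000000000000000000000000000000000000000000000000000000000000000000000000000000000000000000000000000), (7, 0x3f80000003f80000000000000000000000000003f8000000000000000000000000000000000000000000000000000000000000000000000000000000), (21, 0x3ffffe0000000000000000000000003ffffe0000000000000003ffffe0000000000000000000000000000000000000000), (35, 0x3ffffffff800000000)]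
def tabQ_8 : List (ℕ × ℕ) := [(8, 0x3fc00000000000000000000000000000000000000000000000000000000000000000000000000000000000000000000000000000000000000000000000), (28, 0x3ffffffc00000000000000000000003ffffffc000000000000000000000000000000000000000000000000000000000000000000), (56, 0x3fffffffffffffc00000000000000000)]
def tabQ_9 : List (ℕ × ℕ) := [(36, 0x3ffffffffc0000000000000000000000000000000000000000000000000000000000000000000000000000000000000000000000000000000), (84, 0x3ffffffffffffffffffffc0000000000000000000000000000000)]

def tabQ : ℕ → List (ℕ × ℕ)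
  | 0 => tabQ_0
  | 1 => tabQ_1
  | 2 => tabQ_2
  | 3 => tabQ_3
  | 4 => tabQ_4
  | 5 => tabQ_5
  | 6 => tabQ_6
  | 7 => tabQ_7
  | 8 => tabQ_8
  | 9 => tabQ_9
  | _ => []

theorem ok_tabQ (a : ℕ) (h : a < 10) : (tabQ a).all (okEx 495) = true := by
  match a, h with
  | 0, _ => decide +kernel
  | 1, _ => decide +kernel
  | 2, _ => decide +kernel
  | 3, _ => decide +kernel
  | 4, _ => decide +kernel
  | 5, _ => decide +kernel
  | 6, _ => decide +kernel
  | 7, _ => decide +kernel
  | 8, _ => decide +kernel
  | 9, _ => decide +kernel
  | a + 10, h => exact absurd h (by omega)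

theorem chk_Q_4_0_0 : chkPart 11 4 0 0 tabQ_0 = true := by decide +kernel
theorem chk_Q_4_0_1 : chkPart 11 4 0 1 tabQ_1 = true := by decide +kernel
theorem chk_Q_4_0_2 : chkPart 11 4 0 2 tabQ_2 = true := by decide +kernel
theorem chk_Q_4_0_3 : chkPart 11 4 0 3 tabQ_3 = true := by decide +kernel
theorem chk_Q_4_0_4 : chkPart 11 4 0 4 tabQ_4 = true := by decide +kernel
theorem chk_Q_4_0_5 : chkPart 11 4 0 5 tabQ_5 = true := by decide +kernel
theorem chk_Q_4_0_6 : chkPart 11 4 0 6 tabQ_6 = true := by decide +kernel
theorem chk_Q_4_0_7 : chkPart 11 4 0 7 tabQ_7 = true := by decide +kernel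
theorem chk_Q_4_0_8 : chkPart 11 4 0 8 tabQ_8 = true := by decide +kernel
theorem chk_Q_4_0_9 : chkPart 11 4 0 9 tabQ_9 = true := by decide +kernel

theorem chk_Q_4_0 (a : ℕ) (h : a < 10) : chkPart 11 4 0 a (tabQ a) = true := by
  match a, h with
  | 0, _ => exact chk_Q_4_0_0
  | 1, _ => exact chk_Q_4_0_1
  | 2, _ => exact chk_Q_4_0_2
  | 3, _ => exact chk_Q_4_0_3
  | 4, _ => exact chk_Q_4_0_4
  | 5, _ => exact chk_Q_4_0_5
  | 6, _ => exact chk_Q_4_0_6
  | 7, _ => exact chk_Q_4_0_7
  | 8, _ => exact chk_Q_4_0_8
  | 9, _ => exact chk_Q_4_0_9
  | a + 10, h => exact absurd h (by omega)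

theorem chk_Q_3_330_0 : chkPart 11 3 330 0 tabQ_0 = true := by decide +kernel
theorem chk_Q_3_330_1 : chkPart 11 3 330 1 tabQ_1 = true := by decide +kernel
theorem chk_Q_3_330_2 : chkPart 11 3 330 2 tabQ_2 = true := by decide +kernel
theorem chk_Q_3_330_3 : chkPart 11 3 330 3 tabQ_3 = true := by decide +kernel
theorem chk_Q_3_330_4 : chkPart 11 3 330 4 tabQ_4 = true := by decide +kernel
theorem chk_Q_3_330_5 : chkPart 11 3 330 5 tabQ_5 = true := by decide +kernel
theorem chk_Q_3_330_6 : chkPart 11 3 330 6 tabQ_6 = true := by decide +kernel
theorem chk_Q_3_330_7 : chkPart 11 3 330 7 tabQ_7 = true := by decide +kernel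
theorem chk_Q_3_330_8 : chkPart 11 3 330 8 tabQ_8 = true := by decide +kernel
theorem chk_Q_3_330_9 : chkPart 11 3 330 9 tabQ_9 = true := by decide +kernel

theorem chk_Q_3_330 (a : ℕ) (h : a < 10) : chkPart 11 3 330 a (tabQ a) = true := by
  match a, h with
  | 0, _ => exact chk_Q_3_330_0
  | 1, _ => exact chk_Q_3_330_1
  | 2, _ => exact chk_Q_3_330_2
  | 3, _ => exact chk_Q_3_330_3
  | 4, _ => exact chk_Q_3_330_4
  | 5, _ => exact chk_Q_3_330_5
  | 6, _ => exact chk_Q_3_330_6
  | 7, _ => exact chk_Q_3_330_7
  | 8, _ => exact chk_Q_3_330_8
  | 9, _ => exact chk_Q_3_330_9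
  | a + 10, h => exact absurd h (by omega)

def kQ_0 (R X : ℕ) : ℕ := (sw (nat_lit 1) (nat_lit 0x404082112804082112808211281089411284a29004082112808211281089411284a29008211281089411284a2901089411284a29022509452094521488) R X)
def kQ_1 (R X : ℕ) : ℕ := (sw (nat_lit 1) (nat_lit 0x80810422440810422441042244211222244914480810422441042244211222244914481042244211222244914482112222449144844892289122892244) R X)
def kQ_2 (R X : ℕ) : ℕ := (sw (nat_lit 2) (nat_lit 0x1800000001800000180000c00180618000000001800000180000c00180618000000180000c0018061800000c00180618000300c3000c300c00) R (sw (nat_lit 1) (nat_lit 0x101020844001020844002084400422004401000041020844002084400422004401000042084400422004401000044220044010000488020000a00008022) R X))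
def kQ_3 (R X : ℕ) : ℕ := (sw (nat_lit 3) (nat_lit 0xe00000000e000000e00007000e0380380000000e000000e00007000e03803800000e00007000e0380380007000e03803801c070070700701c0) R (sw (nat_lit 1) (nat_lit 0x202041080002041080004108000840008000000002041080004108000840008000000004108000840008000000008400080000000100000000000000001) R X))
def kQ_4 (R X : ℕ) : ℕ := (sw (nat_lit 6) (nat_lit 0xfc0000000000000000000000000000fc0000000000000000000fc000000000000fc0000001f8001f80000) R (sw (nat_lit 4) (nat_lit 0xf00000000f000000f00007800f0000000000000f000000f00007800f00000000000f00007800f0000000007800f00000001e00000000000001e) R (sw (nat_lit 1) (nat_lit 0x404082000004082000008200001000000000000004082000008200001000000000000008200001000000000000010000000000000000000000000000000) R X)))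
def kQ_5 (R X : ℕ) : ℕ := (sw (nat_lit 10) (nat_lit 0x3ff0000000000000000000000000003ff0000000000000000003ff000000000003ff0000007fe00000007fe0) R (sw (nat_lit 5) (nat_lit 0x1f00000001f000001f0000f80000000000000001f000001f0000f800000000000001f0000f8000000000000f80000000000000000000000000000) R (sw (nat_lit 1) (nat_lit 0x808100000008100000010000000000000000000008100000010000000000000000000010000000000000000000000000000000000000000000000000000) R X)))
def kQ_6 (R X : ℕ) : ℕ := (sw (nat_lit 20) (nat_lit 0x7ffff8000) R (sw (nat_lit 15) (nat_lit 0x1fffc00000000000000000000000001fffc00000000000000001fffc0000000001fffc0000000000000000000000) R (sw (nat_lit 6) (nat_lit 0x7e00000007e000007e0000000000000000000007e000007e00000000000000000007e0000000000000000000000000000000000000000000000000) R (sw (nat_lit 1) (nat_lit 0x1010000000010000000000000000000000000000010000000000000000000000000000000000000000000000000000000000000000000000000000000000) R X))))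
def kQ_7 (R X : ℕ) : ℕ := (sw (nat_lit 35) (nat_lit 0x3ffffffff800000000) R (sw (nat_lit 21) (nat_lit 0x3ffffe0000000000000000000000003ffffe0000000000000003ffffe0000000000000000000000000000000000000000) R (sw (nat_lit 7) (nat_lit 0x3f80000003f80000000000000000000000000003f8000000000000000000000000000000000000000000000000000000000000000000000000000000) R (sw (nat_lit 1) (nat_lit 0x2000000000000000000000000000000000000000000000000000000000000000000000000000000000000000000000000000000000000000000000000000) R X))))
def kQ_8 (R X : ℕ) : ℕ := (sw (nat_lit 56) (nat_lit 0x3fffffffffffffc00000000000000000) R (sw (nat_lit 28) (nat_lit 0x3ffffffc00000000000000000000003ffffffc000000000000000000000000000000000000000000000000000000000000000000) R (sw (nat_lit 8) (nat_lit 0x3fc00000000000000000000000000000000000000000000000000000000000000000000000000000000000000000000000000000000000000000000000) R X)))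
def kQ_9 (R X : ℕ) : ℕ := (sw (nat_lit 84) (nat_lit 0x3ffffffffffffffffffffc0000000000000000000000000000000) R (sw (nat_lit 36) (nat_lit 0x3ffffffffc0000000000000000000000000000000000000000000000000000000000000000000000000000000000000000000000000000000) R X))

/-- transposition `a` on all lanes -/
def kQ (R a X : ℕ) : ℕ :=
  bif Nat.ble (nat_lit 5) a then (bif Nat.ble (nat_lit 7) a then (bif Nat.ble (nat_lit 8) a then (bif Nat.ble (nat_lit 9) a then (kQ_9 R X) else (kQ_8 R X)) else (kQ_7 R X)) else (bif Nat.ble (nat_lit 6) a then (kQ_6 R X) else (kQ_5 R X))) else (bif Nat.ble (nat_lit 2) a then (bif Nat.ble (nat_lit 3) a then (bif Nat.ble (nat_lit 4) a then (kQ_4 R X) else (kQ_3 R X)) else (kQ_2 R X)) else (bif Nat.ble (nat_lit 1) a then (kQ_1 R X) else (kQ_0 R X)))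

theorem kQ_eq (R X a : ℕ) (h : a < 10) : kQ R a X = appP R (tabQ a) X := by
  match a, h with
  | 0, _ => rfl
  | 1, _ => rfl
  | 2, _ => rfl
  | 3, _ => rfl
  | 4, _ => rfl
  | 5, _ => rfl
  | 6, _ => rfl
  | 7, _ => rfl
  | 8, _ => rfl
  | 9, _ => rfl
  | a + 10, h => exact absurd h (by omega)

/-- a word on all lanes, layout Q -/
noncomputable def runQ (len w R X : ℕ) : ℕ :=
  @Nat.rec (fun _ => ℕ) X (fun i ih => kQ R (dig w i) ih) len

theorem fld_runQ {W N : ℕ} (hW : 495 ≤ W) {len w : ℕ} (hw : okDigs 10 w len = true) (X : ℕ)
    {i : ℕ} (hi : i < N) :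
    fld W (runQ len w (rep W N) X) i = runW tabQ (digs w len) (fld W X i) :=
  fld_runG ok_tabQ (fun R X a h => kQ_eq R X a h) hW (okDigs_iff.1 hw) X hi

/-- the 4-subsets at the bits from 0 -/
theorem part_runQ_4_0 {W N : ℕ} (hW : 495 ≤ W) {len w : ℕ} (hw : okDigs 10 w len = true) {X : ℕ}
    {i : ℕ} (hi : i < N) {D : Finset (Finset (Fin 13))}
    (hD : part 11 4 0 (fld W X i) = enc 11 4 D) :
    part 11 4 0 (fld W (runQ len w (rep W N) X) i) =
      enc 11 4 (mapF (wp (digs w len)) D) := by
  rw [fld_runQ hW hw X hi]
  exact part_runW (by norm_num) (fun a ha => ok_tabQ a (okDigs_iff.1 hw a ha))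
    (fun a ha => chk_Q_4_0 a (okDigs_iff.1 hw a ha)) hD

/-- the 3-subsets at the bits from 330 -/
theorem part_runQ_3_330 {W N : ℕ} (hW : 495 ≤ W) {len w : ℕ} (hw : okDigs 10 w len = true) {X : ℕ}
    {i : ℕ} (hi : i < N) {D : Finset (Finset (Fin 13))}
    (hD : part 11 3 330 (fld W X i) = enc 11 3 D) :
    part 11 3 330 (fld W (runQ len w (rep W N) X) i) =
      enc 11 3 (mapF (wp (digs w len)) D) := by
  rw [fld_runQ hW hw X hi]
  exact part_runW (by norm_num) (fun a ha => ok_tabQ a (okDigs_iff.1 hw a ha))
    (fun a ha => chk_Q_3_330 a (okDigs_iff.1 hw a ha)) hD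

def tabL_0 : List (ℕ × ℕ) := [(1, 0x20101020844a0040202041089400804040821128010080810422500404082112804082112808211281089411284a29004082112808211281089411284a29008211281089411284a2901089411284a29022509452094521488)]
def tabL_1 : List (ℕ × ℕ) := [(1, 0x402020410891008040408211220100808104224402010102084488080810422440810422441042244211222244914480810422441042244211222244914481042244211222244914482112222449144844892289122892244)]
def tabL_2 : List (ℕ × ℕ) := [(1, 0x804040821100010080810422000201010208440004020204108800101020844001020844002084400422004401000041020844002084400422004401000042084400422004401000044220044010000488020000a00008022), (2, 0x60000000000000c00000000000018000000000000300000000001800000001800000180000c00180618000000001800000180000c00180618000000180000c0018061800000c00180618000300c3000c300c00)]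
def tabL_3 : List (ℕ × ℕ) := [(1, 0x1008081042000020101020840000402020410800008040408210000202041080002041080004108000840008000000002041080004108000840008000000004108000840008000000008400080000000100000000000000001), (3, 0x3800000000000070000000000000e0000000000001c0000000000e00000000e000000e00007000e0380380000000e000000e00007000e03803800000e00007000e0380380007000e03803801c070070700701c0)]
def tabL_4 : List (ℕ × ℕ) := [(1, 0x2010102080000040202041000000804040820000010080810400000404082000004082000008200001000000000000004082000008200001000000000000008200001000000000000010000000000000000000000000000000), (4, 0x3c00000000000078000000000000f0000000000001e0000000000f00000000f000000f00007800f0000000000000f000000f00007800f00000000000f00007800f0000000007800f00000001e00000000000001e), (6, 0xfc0000000000000000000000000000fc0000000000000000000fc000000000000fc0000001f8001f80000)]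
def tabL_5 : List (ℕ × ℕ) := [(1, 0x4020204000000080404080000001008081000000020101020000000808100000008100000010000000000000000000008100000010000000000000000000010000000000000000000000000000000000000000000000000000), (5, 0x7c000000000000f8000000000001f0000000000003e0000000001f00000001f000001f0000f80000000000000001f000001f0000f800000000000001f0000f8000000000000f80000000000000000000000000000), (10, 0x3ff0000000000000000000000000003ff0000000000000000003ff000000000003ff0000007fe00000007fe0)]
def tabL_6 : List (ℕ × ℕ) := [(1, 0x8040400000000100808000000002010100000000040202000000001010000000010000000000000000000000000000010000000000000000000000000000000000000000000000000000000000000000000000000000000000), (6, 0x1f8000000000003f0000000000007e000000000000fc0000000007e00000007e000007e0000000000000000000007e000007e00000000000000000007e0000000000000000000000000000000000000000000000000), (15, 0x1fffc00000000000000000000000001fffc00000000000000001fffc0000000001fffc0000000000000000000000), (20, 0x7ffff8000)]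
def tabL_7 : List (ℕ × ℕ) := [(1, 0x10080000000000201000000000004020000000000080400000000002000000000000000000000000000000000000000000000000000000000000000000000000000000000000000000000000000000000000000000000000000), (7, 0xfe000000000001fc000000000003f8000000000007f0000000003f80000003f80000000000000000000000000003f8000000000000000000000000000000000000000000000000000000000000000000000000000000), (21, 0x3ffffe0000000000000000000000003ffffe0000000000000003ffffe0000000000000000000000000000000000000000), (35, 0x3ffffffff800000000)]
def tabL_8 : List (ℕ × ℕ) := [(1, 0x20000000000000400000000000008000000000000100000000000000000000000000000000000000000000000000000000000000000000000000000000000000000000000000000000000000000000000000000000000000000), (8, 0xff000000000001fe000000000003fc000000000007f8000000003fc00000000000000000000000000000000000000000000000000000000000000000000000000000000000000000000000000000000000000000000000), (28, 0x3ffffffc00000000000000000000003ffffffc000000000000000000000000000000000000000000000000000000000000000000), (56, 0x3fffffffffffffc00000000000000000)]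
def tabL_9 : List (ℕ × ℕ) := [(9, 0x1ff000000000003fe000000000007fc00000000000ff8000000000000000000000000000000000000000000000000000000000000000000000000000000000000000000000000000000000000000000000000000000000000), (36, 0x3ffffffffc0000000000000000000000000000000000000000000000000000000000000000000000000000000000000000000000000000000), (84, 0x3ffffffffffffffffffffc0000000000000000000000000000000)]

def tabL : ℕ → List (ℕ × ℕ)
  | 0 => tabL_0
  | 1 => tabL_1
  | 2 => tabL_2
  | 3 => tabL_3
  | 4 => tabL_4
  | 5 => tabL_5
  | 6 => tabL_6
  | 7 => tabL_7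
  | 8 => tabL_8
  | 9 => tabL_9
  | _ => []

theorem ok_tabL (a : ℕ) (h : a < 10) : (tabL a).all (okEx 715) = true := by
  match a, h with
  | 0, _ => decide +kernel
  | 1, _ => decide +kernel
  | 2, _ => decide +kernel
  | 3, _ => decide +kernel
  | 4, _ => decide +kernel
  | 5, _ => decide +kernel
  | 6, _ => decide +kernel
  | 7, _ => decide +kernel
  | 8, _ => decide +kernel
  | 9, _ => decide +kernel
  | a + 10, h => exact absurd h (by omega)

theorem chk_L_4_0_0 : chkPart 11 4 0 0 tabL_0 = true := by decide +kernel
theorem chk_L_4_0_1 : chkPart 11 4 0 1 tabL_1 = true := by decide +kernel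
theorem chk_L_4_0_2 : chkPart 11 4 0 2 tabL_2 = true := by decide +kernel
theorem chk_L_4_0_3 : chkPart 11 4 0 3 tabL_3 = true := by decide +kernel
theorem chk_L_4_0_4 : chkPart 11 4 0 4 tabL_4 = true := by decide +kernel
theorem chk_L_4_0_5 : chkPart 11 4 0 5 tabL_5 = true := by decide +kernel
theorem chk_L_4_0_6 : chkPart 11 4 0 6 tabL_6 = true := by decide +kernel
theorem chk_L_4_0_7 : chkPart 11 4 0 7 tabL_7 = true := by decide +kernel
theorem chk_L_4_0_8 : chkPart 11 4 0 8 tabL_8 = true := by decide +kernel
theorem chk_L_4_0_9 : chkPart 11 4 0 9 tabL_9 = true := by decide +kernel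

theorem chk_L_4_0 (a : ℕ) (h : a < 10) : chkPart 11 4 0 a (tabL a) = true := by
  match a, h with
  | 0, _ => exact chk_L_4_0_0
  | 1, _ => exact chk_L_4_0_1
  | 2, _ => exact chk_L_4_0_2
  | 3, _ => exact chk_L_4_0_3
  | 4, _ => exact chk_L_4_0_4
  | 5, _ => exact chk_L_4_0_5
  | 6, _ => exact chk_L_4_0_6
  | 7, _ => exact chk_L_4_0_7
  | 8, _ => exact chk_L_4_0_8
  | 9, _ => exact chk_L_4_0_9
  | a + 10, h => exact absurd h (by omega)

theorem chk_L_3_330_0 : chkPart 11 3 330 0 tabL_0 = true := by decide +kernel
theorem chk_L_3_330_1 : chkPart 11 3 330 1 tabL_1 = true := by decide +kernel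
theorem chk_L_3_330_2 : chkPart 11 3 330 2 tabL_2 = true := by decide +kernel
theorem chk_L_3_330_3 : chkPart 11 3 330 3 tabL_3 = true := by decide +kernel
theorem chk_L_3_330_4 : chkPart 11 3 330 4 tabL_4 = true := by decide +kernel
theorem chk_L_3_330_5 : chkPart 11 3 330 5 tabL_5 = true := by decide +kernel
theorem chk_L_3_330_6 : chkPart 11 3 330 6 tabL_6 = true := by decide +kernel
theorem chk_L_3_330_7 : chkPart 11 3 330 7 tabL_7 = true := by decide +kernel
theorem chk_L_3_330_8 : chkPart 11 3 330 8 tabL_8 = true := by decide +kernel
theorem chk_L_3_330_9 : chkPart 11 3 330 9 tabL_9 = true := by decide +kernel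

theorem chk_L_3_330 (a : ℕ) (h : a < 10) : chkPart 11 3 330 a (tabL a) = true := by
  match a, h with
  | 0, _ => exact chk_L_3_330_0
  | 1, _ => exact chk_L_3_330_1
  | 2, _ => exact chk_L_3_330_2
  | 3, _ => exact chk_L_3_330_3
  | 4, _ => exact chk_L_3_330_4
  | 5, _ => exact chk_L_3_330_5
  | 6, _ => exact chk_L_3_330_6
  | 7, _ => exact chk_L_3_330_7
  | 8, _ => exact chk_L_3_330_8
  | 9, _ => exact chk_L_3_330_9
  | a + 10, h => exact absurd h (by omega)

theorem chk_L_2_495_0 : chkPart 11 2 495 0 tabL_0 = true := by decide +kernel
theorem chk_L_2_495_1 : chkPart 11 2 495 1 tabL_1 = true := by decide +kernel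
theorem chk_L_2_495_2 : chkPart 11 2 495 2 tabL_2 = true := by decide +kernel
theorem chk_L_2_495_3 : chkPart 11 2 495 3 tabL_3 = true := by decide +kernel
theorem chk_L_2_495_4 : chkPart 11 2 495 4 tabL_4 = true := by decide +kernel
theorem chk_L_2_495_5 : chkPart 11 2 495 5 tabL_5 = true := by decide +kernel
theorem chk_L_2_495_6 : chkPart 11 2 495 6 tabL_6 = true := by decide +kernel
theorem chk_L_2_495_7 : chkPart 11 2 495 7 tabL_7 = true := by decide +kernel
theorem chk_L_2_495_8 : chkPart 11 2 495 8 tabL_8 = true := by decide +kernel
theorem chk_L_2_495_9 : chkPart 11 2 495 9 tabL_9 = true := by decide +kernel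

theorem chk_L_2_495 (a : ℕ) (h : a < 10) : chkPart 11 2 495 a (tabL a) = true := by
  match a, h with
  | 0, _ => exact chk_L_2_495_0
  | 1, _ => exact chk_L_2_495_1
  | 2, _ => exact chk_L_2_495_2
  | 3, _ => exact chk_L_2_495_3
  | 4, _ => exact chk_L_2_495_4
  | 5, _ => exact chk_L_2_495_5
  | 6, _ => exact chk_L_2_495_6
  | 7, _ => exact chk_L_2_495_7
  | 8, _ => exact chk_L_2_495_8
  | 9, _ => exact chk_L_2_495_9
  | a + 10, h => exact absurd h (by omega)

theorem chk_L_2_550_0 : chkPart 11 2 550 0 tabL_0 = true := by decide +kernel
theorem chk_L_2_550_1 : chkPart 11 2 550 1 tabL_1 = true := by decide +kernel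
theorem chk_L_2_550_2 : chkPart 11 2 550 2 tabL_2 = true := by decide +kernel
theorem chk_L_2_550_3 : chkPart 11 2 550 3 tabL_3 = true := by decide +kernel
theorem chk_L_2_550_4 : chkPart 11 2 550 4 tabL_4 = true := by decide +kernel
theorem chk_L_2_550_5 : chkPart 11 2 550 5 tabL_5 = true := by decide +kernel
theorem chk_L_2_550_6 : chkPart 11 2 550 6 tabL_6 = true := by decide +kernel
theorem chk_L_2_550_7 : chkPart 11 2 550 7 tabL_7 = true := by decide +kernel
theorem chk_L_2_550_8 : chkPart 11 2 550 8 tabL_8 = true := by decide +kernel
theorem chk_L_2_550_9 : chkPart 11 2 550 9 tabL_9 = true := by decide +kernel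

theorem chk_L_2_550 (a : ℕ) (h : a < 10) : chkPart 11 2 550 a (tabL a) = true := by
  match a, h with
  | 0, _ => exact chk_L_2_550_0
  | 1, _ => exact chk_L_2_550_1
  | 2, _ => exact chk_L_2_550_2
  | 3, _ => exact chk_L_2_550_3
  | 4, _ => exact chk_L_2_550_4
  | 5, _ => exact chk_L_2_550_5
  | 6, _ => exact chk_L_2_550_6
  | 7, _ => exact chk_L_2_550_7
  | 8, _ => exact chk_L_2_550_8
  | 9, _ => exact chk_L_2_550_9
  | a + 10, h => exact absurd h (by omega)

theorem chk_L_2_605_0 : chkPart 11 2 605 0 tabL_0 = true := by decide +kernel
theorem chk_L_2_605_1 : chkPart 11 2 605 1 tabL_1 = true := by decide +kernel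
theorem chk_L_2_605_2 : chkPart 11 2 605 2 tabL_2 = true := by decide +kernel
theorem chk_L_2_605_3 : chkPart 11 2 605 3 tabL_3 = true := by decide +kernel
theorem chk_L_2_605_4 : chkPart 11 2 605 4 tabL_4 = true := by decide +kernel
theorem chk_L_2_605_5 : chkPart 11 2 605 5 tabL_5 = true := by decide +kernel
theorem chk_L_2_605_6 : chkPart 11 2 605 6 tabL_6 = true := by decide +kernel
theorem chk_L_2_605_7 : chkPart 11 2 605 7 tabL_7 = true := by decide +kernel
theorem chk_L_2_605_8 : chkPart 11 2 605 8 tabL_8 = true := by decide +kernel
theorem chk_L_2_605_9 : chkPart 11 2 605 9 tabL_9 = true := by decide +kernel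

theorem chk_L_2_605 (a : ℕ) (h : a < 10) : chkPart 11 2 605 a (tabL a) = true := by
  match a, h with
  | 0, _ => exact chk_L_2_605_0
  | 1, _ => exact chk_L_2_605_1
  | 2, _ => exact chk_L_2_605_2
  | 3, _ => exact chk_L_2_605_3
  | 4, _ => exact chk_L_2_605_4
  | 5, _ => exact chk_L_2_605_5
  | 6, _ => exact chk_L_2_605_6
  | 7, _ => exact chk_L_2_605_7
  | 8, _ => exact chk_L_2_605_8
  | 9, _ => exact chk_L_2_605_9
  | a + 10, h => exact absurd h (by omega)

theorem chk_L_2_660_0 : chkPart 11 2 660 0 tabL_0 = true := by decide +kernel
theorem chk_L_2_660_1 : chkPart 11 2 660 1 tabL_1 = true := by decide +kernel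
theorem chk_L_2_660_2 : chkPart 11 2 660 2 tabL_2 = true := by decide +kernel
theorem chk_L_2_660_3 : chkPart 11 2 660 3 tabL_3 = true := by decide +kernel
theorem chk_L_2_660_4 : chkPart 11 2 660 4 tabL_4 = true := by decide +kernel
theorem chk_L_2_660_5 : chkPart 11 2 660 5 tabL_5 = true := by decide +kernel
theorem chk_L_2_660_6 : chkPart 11 2 660 6 tabL_6 = true := by decide +kernel
theorem chk_L_2_660_7 : chkPart 11 2 660 7 tabL_7 = true := by decide +kernel
theorem chk_L_2_660_8 : chkPart 11 2 660 8 tabL_8 = true := by decide +kernel
theorem chk_L_2_660_9 : chkPart 11 2 660 9 tabL_9 = true := by decide +kernel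

theorem chk_L_2_660 (a : ℕ) (h : a < 10) : chkPart 11 2 660 a (tabL a) = true := by
  match a, h with
  | 0, _ => exact chk_L_2_660_0
  | 1, _ => exact chk_L_2_660_1
  | 2, _ => exact chk_L_2_660_2
  | 3, _ => exact chk_L_2_660_3
  | 4, _ => exact chk_L_2_660_4
  | 5, _ => exact chk_L_2_660_5
  | 6, _ => exact chk_L_2_660_6
  | 7, _ => exact chk_L_2_660_7
  | 8, _ => exact chk_L_2_660_8
  | 9, _ => exact chk_L_2_660_9
  | a + 10, h => exact absurd h (by omega)

def kL_0 (R X : ℕ) : ℕ := (sw (nat_lit 1) (nat_lit 0x20101020844a0040202041089400804040821128010080810422500404082112804082112808211281089411284a29004082112808211281089411284a29008211281089411284a2901089411284a29022509452094521488) R X)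
def kL_1 (R X : ℕ) : ℕ := (sw (nat_lit 1) (nat_lit 0x402020410891008040408211220100808104224402010102084488080810422440810422441042244211222244914480810422441042244211222244914481042244211222244914482112222449144844892289122892244) R X)
def kL_2 (R X : ℕ) : ℕ := (sw (nat_lit 2) (nat_lit 0x60000000000000c00000000000018000000000000300000000001800000001800000180000c00180618000000001800000180000c00180618000000180000c0018061800000c00180618000300c3000c300c00) R (sw (nat_lit 1) (nat_lit 0x804040821100010080810422000201010208440004020204108800101020844001020844002084400422004401000041020844002084400422004401000042084400422004401000044220044010000488020000a00008022) R X))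
def kL_3 (R X : ℕ) : ℕ := (sw (nat_lit 3) (nat_lit 0x3800000000000070000000000000e0000000000001c0000000000e00000000e000000e00007000e0380380000000e000000e00007000e03803800000e00007000e0380380007000e03803801c070070700701c0) R (sw (nat_lit 1) (nat_lit 0x1008081042000020101020840000402020410800008040408210000202041080002041080004108000840008000000002041080004108000840008000000004108000840008000000008400080000000100000000000000001) R X))
def kL_4 (R X : ℕ) : ℕ := (sw (nat_lit 6) (nat_lit 0xfc0000000000000000000000000000fc0000000000000000000fc000000000000fc0000001f8001f80000) R (sw (nat_lit 4) (nat_lit 0x3c00000000000078000000000000f0000000000001e0000000000f00000000f000000f00007800f0000000000000f000000f00007800f00000000000f00007800f0000000007800f00000001e00000000000001e) R (sw (nat_lit 1) (nat_lit 0x2010102080000040202041000000804040820000010080810400000404082000004082000008200001000000000000004082000008200001000000000000008200001000000000000010000000000000000000000000000000) R X)))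
def kL_5 (R X : ℕ) : ℕ := (sw (nat_lit 10) (nat_lit 0x3ff0000000000000000000000000003ff0000000000000000003ff000000000003ff0000007fe00000007fe0) R (sw (nat_lit 5) (nat_lit 0x7c000000000000f8000000000001f0000000000003e0000000001f00000001f000001f0000f80000000000000001f000001f0000f800000000000001f0000f8000000000000f80000000000000000000000000000) R (sw (nat_lit 1) (nat_lit 0x4020204000000080404080000001008081000000020101020000000808100000008100000010000000000000000000008100000010000000000000000000010000000000000000000000000000000000000000000000000000) R X)))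
def kL_6 (R X : ℕ) : ℕ := (sw (nat_lit 20) (nat_lit 0x7ffff8000) R (sw (nat_lit 15) (nat_lit 0x1fffc00000000000000000000000001fffc00000000000000001fffc0000000001fffc0000000000000000000000) R (sw (nat_lit 6) (nat_lit 0x1f8000000000003f0000000000007e000000000000fc0000000007e00000007e000007e0000000000000000000007e000007e00000000000000000007e0000000000000000000000000000000000000000000000000) R (sw (nat_lit 1) (nat_lit 0x8040400000000100808000000002010100000000040202000000001010000000010000000000000000000000000000010000000000000000000000000000000000000000000000000000000000000000000000000000000000) R X))))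
def kL_7 (R X : ℕ) : ℕ := (sw (nat_lit 35) (nat_lit 0x3ffffffff800000000) R (sw (nat_lit 21) (nat_lit 0x3ffffe0000000000000000000000003ffffe0000000000000003ffffe0000000000000000000000000000000000000000) R (sw (nat_lit 7) (nat_lit 0xfe000000000001fc000000000003f8000000000007f0000000003f80000003f80000000000000000000000000003f8000000000000000000000000000000000000000000000000000000000000000000000000000000) R (sw (nat_lit 1) (nat_lit 0x10080000000000201000000000004020000000000080400000000002000000000000000000000000000000000000000000000000000000000000000000000000000000000000000000000000000000000000000000000000000) R X))))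
def kL_8 (R X : ℕ) : ℕ := (sw (nat_lit 56) (nat_lit 0x3fffffffffffffc00000000000000000) R (sw (nat_lit 28) (nat_lit 0x3ffffffc00000000000000000000003ffffffc000000000000000000000000000000000000000000000000000000000000000000) R (sw (nat_lit 8) (nat_lit 0xff000000000001fe000000000003fc000000000007f8000000003fc00000000000000000000000000000000000000000000000000000000000000000000000000000000000000000000000000000000000000000000000) R (sw (nat_lit 1) (nat_lit 0x20000000000000400000000000008000000000000100000000000000000000000000000000000000000000000000000000000000000000000000000000000000000000000000000000000000000000000000000000000000000) R X))))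
def kL_9 (R X : ℕ) : ℕ := (sw (nat_lit 84) (nat_lit 0x3ffffffffffffffffffffc0000000000000000000000000000000) R (sw (nat_lit 36) (nat_lit 0x3ffffffffc0000000000000000000000000000000000000000000000000000000000000000000000000000000000000000000000000000000) R (sw (nat_lit 9) (nat_lit 0x1ff000000000003fe000000000007fc00000000000ff8000000000000000000000000000000000000000000000000000000000000000000000000000000000000000000000000000000000000000000000000000000000000) R X)))

/-- transposition `a` on all lanes -/
def kL (R a X : ℕ) : ℕ :=
  bif Nat.ble (nat_lit 5) a then (bif Nat.ble (nat_lit 7) a then (bif Nat.ble (nat_lit 8) a then (bif Nat.ble (nat_lit 9) a then (kL_9 R X) else (kL_8 R X)) else (kL_7 R X)) else (bif Nat.ble (nat_lit 6) a then (kL_6 R X) else (kL_5 R X))) else (bif Nat.ble (nat_lit 2) a then (bif Nat.ble (nat_lit 3) a then (bif Nat.ble (nat_lit 4) a then (kL_4 R X) else (kL_3 R X)) else (kL_2 R X)) else (bif Nat.ble (nat_lit 1) a then (kL_1 R X) else (kL_0 R X)))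

theorem kL_eq (R X a : ℕ) (h : a < 10) : kL R a X = appP R (tabL a) X := by
  match a, h with
  | 0, _ => rfl
  | 1, _ => rfl
  | 2, _ => rfl
  | 3, _ => rfl
  | 4, _ => rfl
  | 5, _ => rfl
  | 6, _ => rfl
  | 7, _ => rfl
  | 8, _ => rfl
  | 9, _ => rfl
  | a + 10, h => exact absurd h (by omega)

/-- a word on all lanes, layout L -/
noncomputable def runL (len w R X : ℕ) : ℕ :=
  @Nat.rec (fun _ => ℕ) X (fun i ih => kL R (dig w i) ih) len

theorem fld_runL {W N : ℕ} (hW : 715 ≤ W) {len w : ℕ} (hw : okDigs 10 w len = true) (X : ℕ)
    {i : ℕ} (hi : i < N) :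
    fld W (runL len w (rep W N) X) i = runW tabL (digs w len) (fld W X i) :=
  fld_runG ok_tabL (fun R X a h => kL_eq R X a h) hW (okDigs_iff.1 hw) X hi

/-- the 4-subsets at the bits from 0 -/
theorem part_runL_4_0 {W N : ℕ} (hW : 715 ≤ W) {len w : ℕ} (hw : okDigs 10 w len = true) {X : ℕ}
    {i : ℕ} (hi : i < N) {D : Finset (Finset (Fin 13))}
    (hD : part 11 4 0 (fld W X i) = enc 11 4 D) :
    part 11 4 0 (fld W (runL len w (rep W N) X) i) =
      enc 11 4 (mapF (wp (digs w len)) D) := by
  rw [fld_runL hW hw X hi]
  exact part_runW (by norm_num) (fun a ha => ok_tabL a (okDigs_iff.1 hw a ha))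
    (fun a ha => chk_L_4_0 a (okDigs_iff.1 hw a ha)) hD

/-- the 3-subsets at the bits from 330 -/
theorem part_runL_3_330 {W N : ℕ} (hW : 715 ≤ W) {len w : ℕ} (hw : okDigs 10 w len = true) {X : ℕ}
    {i : ℕ} (hi : i < N) {D : Finset (Finset (Fin 13))}
    (hD : part 11 3 330 (fld W X i) = enc 11 3 D) :
    part 11 3 330 (fld W (runL len w (rep W N) X) i) =
      enc 11 3 (mapF (wp (digs w len)) D) := by
  rw [fld_runL hW hw X hi]
  exact part_runW (by norm_num) (fun a ha => ok_tabL a (okDigs_iff.1 hw a ha))
    (fun a ha => chk_L_3_330 a (okDigs_iff.1 hw a ha)) hD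

/-- the 2-subsets at the bits from 495 -/
theorem part_runL_2_495 {W N : ℕ} (hW : 715 ≤ W) {len w : ℕ} (hw : okDigs 10 w len = true) {X : ℕ}
    {i : ℕ} (hi : i < N) {D : Finset (Finset (Fin 13))}
    (hD : part 11 2 495 (fld W X i) = enc 11 2 D) :
    part 11 2 495 (fld W (runL len w (rep W N) X) i) =
      enc 11 2 (mapF (wp (digs w len)) D) := by
  rw [fld_runL hW hw X hi]
  exact part_runW (by norm_num) (fun a ha => ok_tabL a (okDigs_iff.1 hw a ha))
    (fun a ha => chk_L_2_495 a (okDigs_iff.1 hw a ha)) hD

/-- the 2-subsets at the bits from 550 -/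
theorem part_runL_2_550 {W N : ℕ} (hW : 715 ≤ W) {len w : ℕ} (hw : okDigs 10 w len = true) {X : ℕ}
    {i : ℕ} (hi : i < N) {D : Finset (Finset (Fin 13))}
    (hD : part 11 2 550 (fld W X i) = enc 11 2 D) :
    part 11 2 550 (fld W (runL len w (rep W N) X) i) =
      enc 11 2 (mapF (wp (digs w len)) D) := by
  rw [fld_runL hW hw X hi]
  exact part_runW (by norm_num) (fun a ha => ok_tabL a (okDigs_iff.1 hw a ha))
    (fun a ha => chk_L_2_550 a (okDigs_iff.1 hw a ha)) hD

/-- the 2-subsets at the bits from 605 -/
theorem part_runL_2_605 {W N : ℕ} (hW : 715 ≤ W) {len w : ℕ} (hw : okDigs 10 w len = true) {X : ℕ}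
    {i : ℕ} (hi : i < N) {D : Finset (Finset (Fin 13))}
    (hD : part 11 2 605 (fld W X i) = enc 11 2 D) :
    part 11 2 605 (fld W (runL len w (rep W N) X) i) =
      enc 11 2 (mapF (wp (digs w len)) D) := by
  rw [fld_runL hW hw X hi]
  exact part_runW (by norm_num) (fun a ha => ok_tabL a (okDigs_iff.1 hw a ha))
    (fun a ha => chk_L_2_605 a (okDigs_iff.1 hw a ha)) hD

/-- the 2-subsets at the bits from 660 -/
theorem part_runL_2_660 {W N : ℕ} (hW : 715 ≤ W) {len w : ℕ} (hw : okDigs 10 w len = true) {X : ℕ}
    {i : ℕ} (hi : i < N) {D : Finset (Finset (Fin 13))}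
    (hD : part 11 2 660 (fld W X i) = enc 11 2 D) :
    part 11 2 660 (fld W (runL len w (rep W N) X) i) =
      enc 11 2 (mapF (wp (digs w len)) D) := by
  rw [fld_runL hW hw X hi]
  exact part_runW (by norm_num) (fun a ha => ok_tabL a (okDigs_iff.1 hw a ha))
    (fun a ha => chk_L_2_660 a (okDigs_iff.1 hw a ha)) hD

end Pool.Agent.Helper91.TY
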