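import Pool.Agent.Helper91.TY.Run

/-!
MP_8ee768_co, project TH-Y': relabelling of lanes that consist of several codes.

`part n k off x` is the code of `k`-subsets of `{0, ..., n - 1}` at the bits `off, ...` of the lane `x`.
`chkPart n k off a tb = true`: the program `tb` acts on this part as the transposition of `a` and `a + 1`.
-/

set_option autoImplicit false

namespace Pool.Agent.Helper91.TY

open Finset
open Pool.Agent.Helper63.SIMD
open Pool.Agent.Helper97.CV
open Pool.Agent.Helper79.CV
open Pool.Agent.Helper89.CV (ofMask)
open Pool.Agent.Helper33.CV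

/-- one code inside a lane -/
def part (n k off x : ℕ) : ℕ := (x >>> off) % 2 ^ n.choose k

theorem testBit_part (n k off x j : ℕ) :
    (part n k off x).testBit j = (decide (j < n.choose k) && x.testBit (off + j)) := by
  unfold part
  rw [Nat.testBit_mod_two_pow, Nat.testBit_shiftRight]

theorem part_zero_of_lt {n k x : ℕ} (h : x < 2 ^ n.choose k) : part n k 0 x = x := by
  unfold part
  rw [Nat.shiftRight_zero, Nat.mod_eq_of_lt h]

/-- check of one part of a program -/
def chkPart (n k off a : ℕ) (tb : List (ℕ × ℕ)) : Bool :=
  Nat.blt (a + 1) n &&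
    ((PL n k (valL (swp a))).map (fun j => off + j) ==
      (List.range (n.choose k)).map (fun j => srcs tb (off + j)))

theorem part_app {n k off a W : ℕ} (hn : n ≤ 13) {tb : List (ℕ × ℕ)}
    (hok : tb.all (okEx W) = true) (h : chkPart n k off a tb = true) {x : ℕ}
    {D : Finset (Finset (Fin 13))} (hD : part n k off x = enc n k D) :
    part n k off (app tb x) = enc n k (mapF (swp a) D) := by
  unfold chkPart at h
  rw [Bool.and_eq_true, Nat.blt_eq, beq_iff_eq] at h
  obtain ⟨h1, h3⟩ := h
  have h4 := enc_mapF_gather (k := k) hn (keeps_swp h1) D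
  rw [swp_symm] at h4
  rw [h4]
  refine Nat.eq_of_testBit_eq fun i => ?_
  rw [testBit_part, testBit_app hok, Bool.eq_iff_iff, testBit_gather]
  by_cases hi : i < n.choose k
  · have h5 : ((PL n k (valL (swp a))).map (fun j => off + j))[i]? = some (srcs tb (off + i)) := by
      rw [h3, List.getElem?_map, List.getElem?_range hi]
      rfl
    rw [List.getElem?_map] at h5
    cases h6 : (PL n k (valL (swp a)))[i]? with
    | none => rw [h6] at h5; exact absurd h5 (by simp)
    | some p =>
      rw [h6, Option.map_some, Option.some.injEq] at h5
      -- the source lies in the part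
      have hp : p < n.choose k := by
        have h7 := List.mem_of_getElem? h6
        unfold PL at h7
        rw [List.mem_map] at h7
        obtain ⟨m, hm, rfl⟩ := h7
        refine rkM_lt ?_
        rw [mem_L hn, ofMask_pmM]
        have h8 := (mem_L hn).1 hm
        have h9 : mk (ofMask m) = m :=
          mk_ofMask (lt_of_lt_of_le h8.1 (Nat.pow_le_pow_right (by norm_num) hn))
        have h10 : Pool.Agent.Helper79.CV.Sub n k (mapS (swp a) (ofMask m)) :=
          (keeps_swp h1).sub ⟨by rw [h9]; exact h8.1, h8.2⟩
        have h11 : pmM (valL (swp a)) m = mk (mapS (swp a) (ofMask m)) := by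
          rw [mk_mapS, h9]
        rw [h11]
        exact h10
      have hx : x.testBit (off + p) = (enc n k D).testBit p := by
        rw [← hD, testBit_part, decide_eq_true hp, Bool.true_and]
      rw [decide_eq_true hi, Bool.true_and, ← h5, hx]
      constructor
      · exact fun h => ⟨p, rfl, h⟩
      · rintro ⟨q, hq, h⟩
        rw [Option.some.injEq] at hq
        rw [hq]
        exact h
  · rw [decide_eq_false hi, Bool.false_and]
    have h5 : (PL n k (valL (swp a)))[i]? = none := by
      rw [List.getElem?_eq_none]
      unfold PL
      rw [List.length_map, length_L]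
      omega
    rw [h5]
    simp

/-- words on one part -/
theorem part_runW {n k off W : ℕ} (hn : n ≤ 13) {tab : ℕ → List (ℕ × ℕ)} {w : List ℕ}
    (hok : ∀ a ∈ w, (tab a).all (okEx W) = true)
    (h : ∀ a ∈ w, chkPart n k off a (tab a) = true) {x : ℕ}
    {D : Finset (Finset (Fin 13))} (hD : part n k off x = enc n k D) :
    part n k off (runW tab w x) = enc n k (mapF (wp w) D) := by
  induction w generalizing x D with
  | nil =>
    show part n k off x = enc n k (mapF 1 D)
    rw [mapF_one]
    exact hD
  | cons a w ih =>
    show part n k off (runW tab w (app (tab a) x)) = enc n k (mapF (wp w * swp a) D)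
    rw [mapF_mul]
    exact ih (fun b hb => hok b (List.mem_cons_of_mem _ hb))
      (fun b hb => h b (List.mem_cons_of_mem _ hb))
      (part_app hn (hok a List.mem_cons_self) (h a List.mem_cons_self) hD)

end Pool.Agent.Helper91.TY
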