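import Pool.Agent.Helper91.TY.CRun
import Pool.Agent.Helper74.TY.XExt

/-!
MP_8ee768_co, project TH-Y': fast relabelling of many chunks by the same words.

A word is compiled once to a program (shift, mask) per letter, all masks forced; then every chunk
needs six big operations and two unfoldings per letter. `runP X (cmpP K w len) = runC K len w X`.
`bldM K ws cs k = k (relabF K ws cs)` is the forced form, `relabF K ws cs` = every chunk relabelled
by every word `(w, len)` of `ws`, word outer, chunk inner.
-/

set_option autoImplicit false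

namespace Pool.Agent.Helper91.TY

open Pool.Agent.Helper63.SIMD

/-- a compiled word -/
inductive Prog : Type
  | nil : Prog
  | cons : ℕ → ℕ → Prog → Prog

/-- the program `l` on `X` -/
noncomputable def runP (X : ℕ) (l : Prog) : ℕ :=
  @Prog.rec (fun _ => ℕ) X (fun s M _ ih => dswap s M ih) l

theorem runP_nil (X : ℕ) : runP X Prog.nil = X := rfl

theorem runP_cons (X s M : ℕ) (l : Prog) : runP X (Prog.cons s M l) = dswap s M (runP X l) := rfl

/-- the mask of the exchange of the points `i`, `j` -/
def mskIJ (K i j : ℕ) : ℕ := Nat.land (ib K i) (Nat.xor (ib K i) (ib K j))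

/-- compilation -/
def cmpP (K w : ℕ) : ℕ → Prog
  | 0 => Prog.nil
  | len + 1 => Prog.cons
      (Nat.sub (Nat.pow 2 (Nat.div (dig8 w len) 16)) (Nat.pow 2 (Nat.mod (dig8 w len) 16)))
      (mskIJ K (Nat.mod (dig8 w len) 16) (Nat.div (dig8 w len) 16)) (cmpP K w len)

/-- **the compiled word acts as the word** -/
theorem runP_cmpP (K w X : ℕ) : ∀ len, runP X (cmpP K w len) = runC K len w X
  | 0 => rfl
  | len + 1 => by
    have e : runC K (len + 1) w X =
        frc (fun d => cstep K d (runC K len w X)) (dig8 w len) := rfl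
    rw [e, frc_eq, ← runP_cmpP K w X len]
    rfl

/-- successor with a salt -/
def scM (_k a : ℕ) : ℕ := Nat.succ a

/-- evaluation with a salt -/
def frM (k v : ℕ) (f : ℕ → Bool) : Bool := @Nat.rec (fun _ => Bool) (f 0) (fun m _ => f (scM k m)) v

theorem frM_eq (k v : ℕ) (f : ℕ → Bool) : frM k v f = f v := by
  cases v <;> rfl

/-- evaluation of a small number, no salt: equal numbers give equal terms -/
def frN (v : ℕ) (f : ℕ → Bool) : Bool := @Nat.rec (fun _ => Bool) (f 0) (fun m _ => f (Nat.succ m)) v

theorem frN_eq (v : ℕ) (f : ℕ → Bool) : frN v f = f v := by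
  cases v <;> rfl

/-- compilation, forced -/
def cmpK (K w len : ℕ) : (Prog → Bool) → Bool :=
  @Nat.rec (fun _ => (Prog → Bool) → Bool) (fun k => k Prog.nil)
    (fun t ih k => ih fun l => frN (dig8 w t) fun d => frN (Nat.mod d 16) fun i =>
      frN (Nat.div d 16) fun j => frN (Nat.sub (Nat.pow 2 j) (Nat.pow 2 i)) fun s =>
        frM s (mskIJ K i j) fun M => k (Prog.cons s M l)) len

theorem cmpK_eq (K w : ℕ) : ∀ (len : ℕ) (k : Prog → Bool), cmpK K w len k = k (cmpP K w len)
  | 0, _ => rfl
  | len + 1, k => by
    show (cmpK K w len fun l => frN (dig8 w len) fun d => frN (Nat.mod d 16) fun i =>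
      frN (Nat.div d 16) fun j => frN (Nat.sub (Nat.pow 2 j) (Nat.pow 2 i)) fun s =>
        frM s (mskIJ K i j) fun M => k (Prog.cons s M l)) = _
    rw [cmpK_eq K w len]
    simp only [frN_eq, frM_eq]
    rfl

/-- all chunks by one compiled word, in front of `acc` -/
noncomputable def mapP (l : Prog) (cs acc : List ℕ) : (List ℕ → Bool) → Bool :=
  @List.rec ℕ (fun _ => (List ℕ → Bool) → Bool) (fun k => k acc)
    (fun X _ ih k => ih fun L => frM (runP X l) (runP X l) fun v => k (v :: L)) cs

theorem mapP_eq (l : Prog) (cs acc : List ℕ) (k : List ℕ → Bool) :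
    mapP l cs acc k = k (cs.map (fun X => runP X l) ++ acc) := by
  induction cs generalizing k with
  | nil => rfl
  | cons X cs ih =>
    show (mapP l cs acc fun L => frM (runP X l) (runP X l) fun v => k (v :: L)) = _
    rw [ih]
    simp only [frM_eq]
    rfl

/-- every chunk relabelled by every word `(w, len)` -/
noncomputable def relabF (K : ℕ) (ws : List (ℕ × ℕ)) (cs : List ℕ) : List ℕ :=
  ws.flatMap fun w => cs.map fun X => runC K w.2 w.1 X

/-- the forced form -/
noncomputable def bldM (K : ℕ) (ws : List (ℕ × ℕ)) (cs : List ℕ) : (List ℕ → Bool) → Bool :=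
  @List.rec (ℕ × ℕ) (fun _ => (List ℕ → Bool) → Bool) (fun k => k [])
    (fun w _ ih k => ih fun L => cmpK K w.1 w.2 fun l => mapP l cs L k) ws

theorem bldM_eq (K : ℕ) (ws : List (ℕ × ℕ)) (cs : List ℕ) (k : List ℕ → Bool) :
    bldM K ws cs k = k (relabF K ws cs) := by
  induction ws generalizing k with
  | nil => rfl
  | cons w ws ih =>
    show (bldM K ws cs fun L => cmpK K w.1 w.2 fun l => mapP l cs L k) = _
    rw [ih, cmpK_eq, mapP_eq]
    unfold relabF
    rw [List.flatMap_cons]
    congr 2
    refine List.map_congr_left fun X _ => ?_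
    exact runP_cmpP K w.1 X w.2

end Pool.Agent.Helper91.TY
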